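import Mathlib
import Pool.Agent.Lib.MP_c95b3b_ag_h85.Dim

set_option autoImplicit false

/-!
Algebraic independence over a field `F`, and the dimension of affine domains.
-/

namespace CIT8

open Set MvPolynomial

section matroid

variable {F : Type} [Field F] {A : Type} [CommRing A] [IsDomain A] [Algebra F A]

/-- Algebraic closure of a set over the base field. -/
def acl (F : Type) [Field F] {A : Type} [CommRing A] [Algebra F A] (S : Set A) : Set A :=
  {a | IsAlgebraic (Algebra.adjoin F S) a}

lemma mem_acl {S : Set A} {a : A} : a ∈ acl F S ↔ IsAlgebraic (Algebra.adjoin F S) a := Iff.rfl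

lemma acl_eq [FaithfulSMul F A] (S : Set A) :
    acl F S = (AlgebraicIndependent.matroid F A).closure S := by
  ext a
  rw [AlgebraicIndependent.matroid_closure_eq]
  exact (Subalgebra.mem_algebraicClosure _ _).symm

lemma subset_acl (S : Set A) : S ⊆ acl F S := by
  intro a ha
  exact isAlgebraic_algebraMap (⟨a, Algebra.subset_adjoin ha⟩ : Algebra.adjoin F S)

lemma acl_mono [FaithfulSMul F A] {S T : Set A} (h : S ⊆ T) : acl F S ⊆ acl F T := by
  rw [acl_eq, acl_eq]
  exact Matroid.closure_subset_closure _ h

lemma acl_idem [FaithfulSMul F A] {S T : Set A} (h : S ⊆ acl F T) : acl F S ⊆ acl F T := by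
  rw [acl_eq, acl_eq] at *
  have := (AlgebraicIndependent.matroid F A).closure_subset_closure h
  rwa [Matroid.closure_closure] at this

lemma acl_mul {S : Set A} {a b : A} (ha : a ∈ acl F S) (hb : b ∈ acl F S) :
    a * b ∈ acl F S := IsAlgebraic.mul ha hb

lemma acl_add {S : Set A} {a b : A} (ha : a ∈ acl F S) (hb : b ∈ acl F S) :
    a + b ∈ acl F S := IsAlgebraic.add ha hb

lemma acl_algebraMap (S : Set A) (c : F) : algebraMap F A c ∈ acl F S :=
  isAlgebraic_algebraMap (R := Algebra.adjoin F S) (A := A) (algebraMap F (Algebra.adjoin F S) c)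

lemma acl_pow {S : Set A} {a : A} (ha : a ∈ acl F S) (n : ℕ) : a ^ n ∈ acl F S :=
  IsAlgebraic.pow ha n

lemma acl_prod {ι : Type} {S : Set A} (T : Finset ι) (f : ι → A)
    (hf : ∀ i ∈ T, f i ∈ acl F S) : ∏ i ∈ T, f i ∈ acl F S := by
  classical
  induction T using Finset.induction_on with
  | empty =>
    rw [Finset.prod_empty, ← map_one (algebraMap F A)]
    exact acl_algebraMap S 1
  | insert a T ha ih =>
    rw [Finset.prod_insert ha]
    exact acl_mul (hf a (Finset.mem_insert_self a T))
      (ih fun i hi => hf i (Finset.mem_insert_of_mem hi))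

/-- The number of independent elements is at most the number of generators. -/
lemma card_le_of_acl [FaithfulSMul F A] {α β : Type} [Finite α] [Finite β] (x : α → A) (y : β → A)
    (hx : AlgebraicIndependent F x) (h : ∀ a, x a ∈ acl F (range y)) :
    Nat.card α ≤ Nat.card β := by
  classical
  let M := AlgebraicIndependent.matroid F A
  have h1 : M.Indep (range x) := (algebraicIndependent_subtype_range hx.injective).mpr hx
  have h2 : (range x).encard ≤ M.eRk (range y) := by
    rw [← Matroid.eRk_closure_eq]
    refine h1.encard_le_eRk_of_subset ?_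
    rw [← acl_eq]
    rintro _ ⟨a, rfl⟩
    exact h a
  have h3 : (range y).encard ≤ (Nat.card β : ℕ∞) := by
    rw [← image_univ]
    refine (encard_image_le _ _).trans ?_
    rw [encard_univ, ENat.card_eq_coe_natCard]
  have h4 : (range x).encard = (Nat.card α : ℕ∞) := by
    rw [← image_univ, Function.Injective.encard_image hx.injective, encard_univ,
      ENat.card_eq_coe_natCard]
  rw [h4] at h2
  have h5 := h2.trans ((M.eRk_le_encard _).trans h3)
  exact_mod_cast h5

end matroid

lemma acl_inv {F : Type} [Field F] {A : Type} [Field A] [Algebra F A] {S : Set A} {a : A}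
    (ha : a ∈ acl F S) : a⁻¹ ∈ acl F S := IsAlgebraic.inv ha

lemma acl_zpow {F : Type} [Field F] {A : Type} [Field A] [Algebra F A] {S : Set A} {a : A}
    (ha : a ∈ acl F S) (n : ℤ) : a ^ n ∈ acl F S := by
  cases n with
  | ofNat n => rw [Int.ofNat_eq_natCast, zpow_natCast]; exact acl_pow ha n
  | negSucc n =>
    rw [zpow_negSucc]
    exact acl_inv (acl_pow ha _)

/-- A maximal independent subfamily of a finite family. -/
lemma exists_maxIndep (F : Type) [Field F] {A : Type} [CommRing A] [IsDomain A] [Algebra F A]
    [FaithfulSMul F A] {ι : Type} [Fintype ι] (z : ι → A) :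
    ∃ J : Finset ι, AlgebraicIndependent F (fun j : J => z j) ∧
      (∀ i, z i ∈ acl F (range (fun j : J => z j))) ∧
      (∀ J' : Finset ι, AlgebraicIndependent F (fun j : J' => z j) → J'.card ≤ J.card) := by
  classical
  let P := (Finset.univ : Finset (Finset ι)).filter
    (fun I : Finset ι => AlgebraicIndependent F (fun i : I => z i))
  have hP : P.Nonempty := by
    refine ⟨∅, ?_⟩
    simp only [P, Finset.mem_filter, Finset.mem_univ, true_and]
    have : IsEmpty ((∅ : Finset ι) : Type) := by
      constructor; rintro ⟨a, ha⟩; simp at ha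
    rw [algebraicIndependent_empty_type_iff]
    exact FaithfulSMul.algebraMap_injective F A
  obtain ⟨I, hIP, hImax⟩ := Finset.exists_max_image P Finset.card hP
  simp only [P, Finset.mem_filter, Finset.mem_univ, true_and] at hIP hImax
  refine ⟨I, hIP, fun i => ?_, hImax⟩
  by_cases hi : i ∈ I
  · exact subset_acl _ ⟨⟨i, hi⟩, rfl⟩
  · by_contra hcon
    have h1 : AlgebraicIndepOn F z (insert i (I : Set ι)) := by
      refine AlgebraicIndepOn.insert (s := (I : Set ι)) hIP ?_
      rw [Set.image_eq_range]
      exact hcon
    have h2 : AlgebraicIndependent F (fun j : (insert i I : Finset ι) => z j) := by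
      rw [← Finset.coe_insert] at h1
      exact h1
    have h3 := hImax _ h2
    rw [Finset.card_insert_of_notMem hi] at h3
    omega

/-- Incomparability: integral extensions do not raise the dimension. -/
lemma ringKrullDim_le_of_integral' {A R : Type} [CommRing A] [CommRing R] [Algebra A R]
    [Algebra.IsIntegral A R] : ringKrullDim R ≤ ringKrullDim A := by
  refine Order.krullDim_le_of_strictMono (PrimeSpectrum.comap (algebraMap A R)) ?_
  intro p q hpq
  have h1 : p.asIdeal < q.asIdeal := hpq
  have h2 := Ideal.IsIntegral.comap_lt_comap (R := A) h1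
  exact h2

/-- The dimension of an affine domain is the number of elements of a transcendence basis. -/
lemma ringKrullDim_eq_card {k R ι : Type} [Field k] [CommRing R] [IsDomain R] [Algebra k R]
    [Algebra.FiniteType k R] [FaithfulSMul k R] [Fintype ι] (x : ι → R)
    (hx : AlgebraicIndependent k x) (hx' : ∀ r : R, r ∈ acl k (range x)) :
    ringKrullDim R = (Fintype.card ι : WithBot ℕ∞) := by
  refine le_antisymm ?_ (CIT85.card_le_ringKrullDim x hx)
  obtain ⟨s, g, ginj, gint⟩ := exists_integral_inj_algHom_of_fg k R
  let _ : Algebra (MvPolynomial (Fin s) k) R := g.toRingHom.toAlgebra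
  have _ : Algebra.IsIntegral (MvPolynomial (Fin s) k) R := ⟨gint⟩
  have h1 : ringKrullDim R ≤ ringKrullDim (MvPolynomial (Fin s) k) :=
    ringKrullDim_le_of_integral' (A := MvPolynomial (Fin s) k) (R := R)
  rw [MvPolynomial.ringKrullDim_of_isNoetherianRing, ringKrullDim_eq_zero_of_field] at h1
  have h2 : AlgebraicIndependent k (fun i : Fin s => g (X i)) := by
    rw [algebraicIndependent_iff_injective_aeval]
    have h3 : (aeval (fun i : Fin s => g (X i)) : MvPolynomial (Fin s) k →ₐ[k] R) = g := by
      apply MvPolynomial.algHom_ext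
      intro i
      rw [aeval_X]
    rw [h3]
    exact ginj
  have h3 := card_le_of_acl (fun i : Fin s => g (X i)) x h2 (fun i => hx' _)
  simp only [Nat.card_eq_fintype_card, Fintype.card_fin, zero_add] at h1 h3
  refine h1.trans ?_
  exact_mod_cast h3

end CIT8
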