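import Mathlib

set_option autoImplicit false

/-!
Multiplicative relations between units of a field, and rank computations for submodules of
`ι → ℤ`.
-/

namespace CIT8

open Module

section Rel

variable {ι κ : Type} [Fintype ι] [Fintype κ] {K : Type} [Field K]

/-- The lattice of multiplicative relations of a family of units. -/
def rel (z : ι → Kˣ) : Submodule ℤ (ι → ℤ) where
  carrier := {a | ∏ i, z i ^ a i = 1}
  add_mem' := by
    intro a b ha hb
    simp only [Set.mem_ofPred_eq, Pi.add_apply] at *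
    simp only [zpow_add, Finset.prod_mul_distrib, ha, hb, mul_one]
  zero_mem' := by simp
  smul_mem' := by
    intro c a ha
    simp only [Set.mem_ofPred_eq, Pi.smul_apply, smul_eq_mul] at *
    simp only [mul_comm c, zpow_mul, Finset.prod_zpow, ha, one_zpow]

lemma mem_rel {z : ι → Kˣ} {a : ι → ℤ} : a ∈ rel z ↔ ∏ i, z i ^ a i = 1 := Iff.rfl

end Rel

section Rank

variable {ι κ : Type} [Fintype ι] [Fintype κ]

lemma finrank_sup_inf (s t : Submodule ℤ (ι → ℤ)) :
    finrank ℤ ↥(s ⊔ t) + finrank ℤ ↥(s ⊓ t) = finrank ℤ s + finrank ℤ t := by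
  have h := Submodule.rank_sup_add_rank_inf_eq s t
  rw [← finrank_eq_rank, ← finrank_eq_rank, ← finrank_eq_rank, ← finrank_eq_rank] at h
  exact_mod_cast h

lemma finrank_mono {s t : Submodule ℤ (ι → ℤ)} (h : s ≤ t) : finrank ℤ s ≤ finrank ℤ t :=
  Submodule.finrank_mono h

/-- The modular inequality for ranks. -/
lemma finrank_modular {Z W : Submodule ℤ (ι → ℤ)} (N : Submodule ℤ (ι → ℤ)) (h : Z ≤ W) :
    finrank ℤ Z + finrank ℤ ↥(W ⊓ N) ≤ finrank ℤ W + finrank ℤ ↥(Z ⊓ N) := by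
  have h1 := finrank_sup_inf Z (W ⊓ N)
  have h2 : Z ⊓ (W ⊓ N) = Z ⊓ N := by
    rw [← inf_assoc, inf_eq_left.mpr h]
  have h3 : finrank ℤ ↥(Z ⊔ (W ⊓ N)) ≤ finrank ℤ W := finrank_mono (sup_le h inf_le_left)
  rw [h2] at h1
  omega

/-- Disjoint submodules of a submodule. -/
lemma finrank_add_le {A B C : Submodule ℤ (ι → ℤ)} (hA : A ≤ C) (hB : B ≤ C) (h : A ⊓ B = ⊥) :
    finrank ℤ A + finrank ℤ B ≤ finrank ℤ C := by
  have h1 := finrank_sup_inf A B
  rw [h, finrank_bot] at h1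
  have h3 : finrank ℤ ↥(A ⊔ B) ≤ finrank ℤ C := finrank_mono (sup_le hA hB)
  omega

lemma finrank_comap (f : (κ → ℤ) →ₗ[ℤ] (ι → ℤ)) (S : Submodule ℤ (ι → ℤ)) :
    Fintype.card κ + finrank ℤ S ≤ finrank ℤ (S.comap f) + Fintype.card ι := by
  have h1 : finrank ℤ ((κ → ℤ) ⧸ S.comap f) + finrank ℤ (S.comap f) = finrank ℤ (κ → ℤ) :=
    Submodule.finrank_quotient_add_finrank _
  have h2 : finrank ℤ ((ι → ℤ) ⧸ S) + finrank ℤ S = finrank ℤ (ι → ℤ) :=
    Submodule.finrank_quotient_add_finrank _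
  rw [finrank_fintype_fun_eq_card] at h1 h2
  have h3 : finrank ℤ ((κ → ℤ) ⧸ S.comap f) ≤ finrank ℤ ((ι → ℤ) ⧸ S) := by
    refine LinearMap.finrank_le_finrank_of_injective (f := (S.comap f).mapQ S f le_rfl) ?_
    rw [← LinearMap.ker_eq_bot, Submodule.ker_mapQ]
    rw [Submodule.eq_bot_iff]
    rintro _ ⟨x, hx, rfl⟩
    simpa using hx
  omega

omit [Fintype ι] [Fintype κ] in
lemma finrank_map_eq {f : (κ → ℤ) →ₗ[ℤ] (ι → ℤ)} (hf : Function.Injective f)
    (S : Submodule ℤ (κ → ℤ)) : finrank ℤ (S.map f) = finrank ℤ S :=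
  (LinearEquiv.finrank_eq (Submodule.equivMapOfInjective f hf S)).symm

/-- Extension by zero. -/
def ext0 (ι κ : Type) [Fintype ι] [Fintype κ] : (ι → ℤ) →ₗ[ℤ] (ι ⊕ κ → ℤ) where
  toFun a := Sum.elim a 0
  map_add' a b := by ext i; rcases i with i | i <;> simp
  map_smul' c a := by ext i; rcases i with i | i <;> simp

lemma ext0_injective : Function.Injective (ext0 ι κ) := by
  intro a b h
  ext i
  exact congrFun h (Sum.inl i)

end Rank

section Both

variable {ι κ : Type} [Fintype ι] [Fintype κ] {K L : Type} [Field K] [Field L]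

lemma rel_elim_inf (z : ι → Kˣ) (s : κ → Kˣ) :
    rel (Sum.elim z s) ⊓ LinearMap.range (ext0 ι κ) = (rel z).map (ext0 ι κ) := by
  ext a
  constructor
  · rintro ⟨h1, ⟨b, rfl⟩⟩
    refine ⟨b, mem_rel.mpr ?_, rfl⟩
    have h2 := mem_rel.mp h1
    rw [Fintype.prod_sum_type] at h2
    simpa [ext0] using h2
  · rintro ⟨b, hb, rfl⟩
    refine ⟨?_, ⟨b, rfl⟩⟩
    have hb' : b ∈ rel z := hb
    rw [mem_rel] at hb'
    change ext0 ι κ b ∈ rel (Sum.elim z s)
    rw [mem_rel, Fintype.prod_sum_type]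
    simpa [ext0] using hb'

/-- Adding new coordinates: the rank of the relations of the larger family. -/
lemma finrank_rel_elim (z : ι → Kˣ) (s : κ → Kˣ) (w : ι → Lˣ) (t : κ → Lˣ)
    (h : rel (Sum.elim z s) ≤ rel (Sum.elim w t)) :
    finrank ℤ (rel (Sum.elim z s)) + finrank ℤ (rel w) ≤
      finrank ℤ (rel (Sum.elim w t)) + finrank ℤ (rel z) := by
  have h1 := finrank_modular (LinearMap.range (ext0 ι κ)) h
  rw [rel_elim_inf, rel_elim_inf, finrank_map_eq ext0_injective, finrank_map_eq ext0_injective] at h1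
  exact h1

end Both

end CIT8
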