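import Mathlib
import Pool.Agent.Lib.MP_c95b3b_ag_h8.Rel

set_option autoImplicit false

/-!
Specialisations of families of units with many multiplicative relations.
-/

namespace CIT8

open Module MvPolynomial

section

variable (F : Type) [Field F] {K L : Type} [Field K] [Field L] [Algebra F K] [Algebra F L]
  {ι κ : Type} [Fintype ι] [Fintype κ]

/-- `w` is a specialisation over `F` of `z`. -/
def Spc (z : ι → Kˣ) (w : ι → Lˣ) : Prop :=
  ∀ H : MvPolynomial ι F, aeval (fun i => (z i : K)) H = 0 → aeval (fun i => (w i : L)) H = 0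

/-- There is a Zariski dense set of specialisations of `z` over `F` with at least `1 + D`
additional multiplicative relations. -/
def Star (z : ι → Kˣ) (D : ℕ) : Prop :=
  ∀ G : MvPolynomial ι F, aeval (fun i => (z i : K)) G ≠ 0 → ∃ w : ι → Fˣ, Spc F z w ∧
    aeval (fun i => (w i : F)) G ≠ 0 ∧ finrank ℤ (rel z) + 1 + D ≤ finrank ℤ (rel w)

variable {F}

lemma prod_zpow_sum {G ι : Type} [CommGroup G] (s : Finset ι) (x : G) (f : ι → ℤ) :
    ∏ k ∈ s, x ^ f k = x ^ ∑ k ∈ s, f k := by
  classical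
  induction s using Finset.induction_on with
  | empty => simp
  | insert a s ha ih => rw [Finset.prod_insert ha, Finset.sum_insert ha, ih, zpow_add]

lemma prod_toNat {E : Type} [Field E] (v : ι → Eˣ) (a : ι → ℤ) (n : ℕ) (hn : ∀ i, 0 ≤ a i + n) :
    (∏ i, (v i : E) ^ (a i + n).toNat) =
      (∏ i, (v i : E)) ^ n * ((∏ i, v i ^ a i : Eˣ) : E) := by
  have h1 : (∏ i, v i ^ (a i + n).toNat : Eˣ) = (∏ i, v i) ^ n * ∏ i, v i ^ a i := by
    rw [← Finset.prod_pow, ← Finset.prod_mul_distrib]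
    refine Finset.prod_congr rfl fun i _ => ?_
    rw [← zpow_natCast (v i) ((a i + n).toNat), Int.toNat_of_nonneg (hn i), zpow_add, zpow_natCast,
      mul_comm]
  have h2 := congrArg (fun u : Eˣ => (u : E)) h1
  simpa using h2

/-- The binomial of a Laurent monomial. -/
noncomputable def binom (F : Type) [Field F] (a : ι → ℤ) : MvPolynomial ι F :=
  ∏ i, X i ^ (a i).toNat - ∏ i, X i ^ (-a i).toNat

lemma aeval_binom {E : Type} [Field E] [Algebra F E] (v : ι → Eˣ) (a : ι → ℤ) :
    aeval (fun i => (v i : E)) (binom F a) = 0 ↔ a ∈ rel v := by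
  have h1 : (∏ i, v i ^ (a i).toNat : Eˣ) = (∏ i, v i ^ a i) * ∏ i, v i ^ (-a i).toNat := by
    rw [← Finset.prod_mul_distrib]
    refine Finset.prod_congr rfl fun i _ => ?_
    rw [← zpow_natCast, ← zpow_natCast, ← zpow_add]
    congr 1
    omega
  have h2 : aeval (fun i => (v i : E)) (binom F a) =
      ((∏ i, v i ^ (a i).toNat : Eˣ) : E) - ((∏ i, v i ^ (-a i).toNat : Eˣ) : E) := by
    simp [binom]
  rw [h2, sub_eq_zero, Units.val_inj, h1, mul_eq_right, mem_rel]

lemma Spc.rel_le {z : ι → Kˣ} {w : ι → Lˣ} (h : Spc F z w) : rel z ≤ rel w := by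
  intro a ha
  rw [← aeval_binom (F := F)] at ha ⊢
  exact h _ ha

omit [Fintype ι] in
lemma Spc.trans {M : Type} [Field M] [Algebra F M] {z : ι → Kˣ} {w : ι → Lˣ} {u : ι → Mˣ}
    (h : Spc F z w) (h' : Spc F w u) : Spc F z u := fun H hH => h' H (h H hH)

/-- Adding polynomial functions as new coordinates. -/
lemma Star.add {z : ι → Kˣ} {D : ℕ} (h : Star F z D) (s : κ → Kˣ) (S : κ → MvPolynomial ι F)
    (hS : ∀ k, (s k : K) = aeval (fun i => (z i : K)) (S k)) : Star F (Sum.elim z s) D := by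
  classical
  let θ : MvPolynomial (ι ⊕ κ) F →ₐ[F] MvPolynomial ι F := aeval (Sum.elim X S)
  have hθ : ∀ (E : Type) [Field E] [Algebra F E] (v : ι → E) (H : MvPolynomial (ι ⊕ κ) F),
      aeval v (θ H) = aeval (Sum.elim v (fun k => aeval v (S k))) H := by
    intro E _ _ v H
    have h1 : (aeval v : MvPolynomial ι F →ₐ[F] E).comp θ =
        aeval (Sum.elim v (fun k => aeval v (S k))) := by
      apply MvPolynomial.algHom_ext
      rintro (i | k) <;> simp [θ]
    exact DFunLike.congr_fun h1 H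
  intro G hG
  have hzs : (fun i => ((Sum.elim z s i : Kˣ) : K)) =
      Sum.elim (fun i => (z i : K)) (fun k => aeval (fun i => (z i : K)) (S k)) := by
    funext i
    rcases i with i | k
    · rfl
    · exact hS k
  rw [hzs, ← hθ] at hG
  obtain ⟨w, hw, hwG, hr⟩ := h (θ G * ∏ k, S k) (by
    rw [map_mul, map_prod]
    refine mul_ne_zero hG (Finset.prod_ne_zero_iff.mpr fun k _ => ?_)
    rw [← hS]
    exact (s k).ne_zero)
  rw [map_mul, map_prod] at hwG
  have hwS : ∀ k, aeval (fun i => (w i : F)) (S k) ≠ 0 := fun k =>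
    Finset.prod_ne_zero_iff.mp (right_ne_zero_of_mul hwG) k (Finset.mem_univ k)
  let t : κ → Fˣ := fun k => Units.mk0 _ (hwS k)
  have hwt : (fun i => ((Sum.elim w t i : Fˣ) : F)) =
      Sum.elim (fun i => (w i : F)) (fun k => aeval (fun i => (w i : F)) (S k)) := by
    funext i
    rcases i with i | k <;> rfl
  have hspc : Spc F (Sum.elim z s) (Sum.elim w t) := by
    intro H hH
    rw [hzs, ← hθ] at hH
    rw [hwt, ← hθ]
    exact hw _ hH
  refine ⟨Sum.elim w t, hspc, ?_, ?_⟩
  · rw [hwt, ← hθ]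
    exact left_ne_zero_of_mul hwG
  · have h1 := finrank_rel_elim z s w t hspc.rel_le
    omega

omit [Fintype κ] in
/-- Clearing denominators. -/
lemma exists_clear (B : κ → ι → ℤ) (G : MvPolynomial κ F) :
    ∃ (N : ℕ) (G' : MvPolynomial ι F), ∀ (E : Type) [Field E] [Algebra F E] (v : ι → Eˣ),
      aeval (fun i => (v i : E)) G' =
        (∏ i, (v i : E)) ^ N * aeval (fun k => ((∏ i, v i ^ B k i : Eˣ) : E)) G := by
  induction G using MvPolynomial.induction_on with
  | C a => exact ⟨0, C a, fun E _ _ v => by simp⟩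
  | add p q hp hq =>
    obtain ⟨N, p', hp'⟩ := hp
    obtain ⟨M, q', hq'⟩ := hq
    refine ⟨N + M, (∏ i, X i) ^ M * p' + (∏ i, X i) ^ N * q', fun E _ _ v => ?_⟩
    simp only [map_add, map_mul, map_pow, map_prod, aeval_X, hp' E v, hq' E v]
    ring
  | mul_X p k hp =>
    obtain ⟨N, p', hp'⟩ := hp
    let n : ℕ := ∑ i, (B k i).natAbs
    have hn : ∀ i, 0 ≤ B k i + n := by
      intro i
      have h1 : (B k i).natAbs ≤ n :=
        Finset.single_le_sum (f := fun i => (B k i).natAbs) (fun _ _ => Nat.zero_le _)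
          (Finset.mem_univ i)
      omega
    refine ⟨N + n, p' * ∏ i, X i ^ (B k i + n).toNat, fun E _ _ v => ?_⟩
    simp only [map_mul, map_pow, map_prod, aeval_X, hp' E v]
    rw [prod_toNat v (B k) n hn]
    ring

/-- Passing to a multiplicative basis. -/
lemma Star.basis {z : ι → Kˣ} {D : ℕ} (h : Star F z D) (b : κ → Kˣ) (B : κ → ι → ℤ)
    (hB : ∀ k, b k = ∏ i, z i ^ B k i) (hb : rel b = ⊥)
    (hcard : Fintype.card ι ≤ Fintype.card κ + finrank ℤ (rel z)) : Star F b D := by
  classical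
  intro G hG
  obtain ⟨N, G', hG'⟩ := exists_clear B G
  have hbz : (fun k => (b k : K)) = fun k => ((∏ i, z i ^ B k i : Kˣ) : K) := by
    funext k
    rw [hB k]
  obtain ⟨w, hw, hwG, hr⟩ := h G' (by
    rw [hG' K z]
    refine mul_ne_zero (pow_ne_zero _ (Finset.prod_ne_zero_iff.mpr fun i _ => (z i).ne_zero)) ?_
    rw [← hbz]
    exact hG)
  refine ⟨fun k => ∏ i, w i ^ B k i, ?_, ?_, ?_⟩
  · intro H hH
    obtain ⟨M, H', hH'⟩ := exists_clear B H
    have h1 := hw H' (by rw [hH' K z, ← hbz, hH, mul_zero])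
    rw [hH' F w] at h1
    rcases mul_eq_zero.mp h1 with h2 | h2
    · exact absurd h2 (pow_ne_zero _ (Finset.prod_ne_zero_iff.mpr fun i _ => (w i).ne_zero))
    · exact h2
  · rw [hG' F w] at hwG
    exact right_ne_zero_of_mul hwG
  · let f : (κ → ℤ) →ₗ[ℤ] (ι → ℤ) := ∑ k, (LinearMap.proj k).smulRight (B k)
    have hf : ∀ a i, f a i = ∑ k, a k * B k i := by
      intro a i
      simp [f]
    have hcomap : (rel w).comap f ≤ rel (fun k => ∏ i, w i ^ B k i) := by
      intro a ha
      rw [Submodule.mem_comap, mem_rel] at ha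
      rw [mem_rel]
      rw [← ha]
      have h1 : ∀ k, (∏ i, w i ^ B k i) ^ a k = ∏ i, w i ^ (a k * B k i) := by
        intro k
        rw [← Finset.prod_zpow]
        exact Finset.prod_congr rfl fun i _ => by rw [← zpow_mul, mul_comm]
      simp only [h1, hf]
      rw [Finset.prod_comm]
      refine Finset.prod_congr rfl fun i _ => ?_
      rw [prod_zpow_sum]
    have h1 := finrank_comap f (rel w)
    have h2 := finrank_mono hcomap
    rw [hb, finrank_bot]
    omega

end

end CIT8
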