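import Mathlib
import Pool.Agent.Lib.MP_c95b3b_ag_h8.Indep

set_option autoImplicit false

/-!
An algebraic element satisfies a relation that is a sum of signed monomials, with nonzero
derivative and no vanishing proper partial sum.
-/

namespace CIT8

open Set MvPolynomial

section

variable {K : Type} [Field K] {ι : Type} [Fintype ι]

/-- Value of a signed monomial. -/
def sval (z : ι → Kˣ) (ε : ℕ → ℤ) (α : ℕ → ι → ℕ) (t : ℕ) : K :=
  (ε t : K) * ∏ i, (z i : K) ^ α t i

/-- Pairs (value, logarithmic derivative in direction `i₀`) represented by sums of signed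
monomials in the allowed variables `T`. -/
def Rep (z : ι → Kˣ) (T : Set ι) (i₀ : ι) (m : ℕ) (p : K × K) : Prop :=
  ∃ (ε : ℕ → ℤ) (α : ℕ → ι → ℕ), (∀ t, ε t = 1 ∨ ε t = -1) ∧ (∀ t, ∀ i ∉ T, α t i = 0) ∧
    ∑ t ∈ Finset.range m, sval z ε α t = p.1 ∧
    ∑ t ∈ Finset.range m, sval z ε α t * (α t i₀ : K) = p.2

lemma Rep.zero (z : ι → Kˣ) (T : Set ι) (i₀ : ι) : Rep z T i₀ 0 0 :=
  ⟨fun _ => 1, fun _ _ => 0, fun _ => Or.inl rfl, fun _ _ _ => rfl, by simp, by simp⟩

lemma Rep.neg {z : ι → Kˣ} {T : Set ι} {i₀ : ι} {m : ℕ} {p : K × K} (h : Rep z T i₀ m p) :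
    Rep z T i₀ m (-p) := by
  obtain ⟨ε, α, h1, h2, h3, h4⟩ := h
  refine ⟨fun t => -ε t, α, fun t => ?_, h2, ?_, ?_⟩
  · rcases h1 t with h | h <;> simp [h]
  · simp only [sval, Int.cast_neg, neg_mul, Finset.sum_neg_distrib, Prod.fst_neg]
    rw [← h3]; rfl
  · simp only [sval, Int.cast_neg, neg_mul, Finset.sum_neg_distrib, Prod.snd_neg]
    rw [← h4]; rfl

lemma Rep.add {z : ι → Kˣ} {T : Set ι} {i₀ : ι} {m n : ℕ} {p q : K × K} (h : Rep z T i₀ m p)
    (h' : Rep z T i₀ n q) : Rep z T i₀ (m + n) (p + q) := by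
  obtain ⟨ε, α, h1, h2, h3, h4⟩ := h
  obtain ⟨δ, β, k1, k2, k3, k4⟩ := h'
  refine ⟨fun t => if t < m then ε t else δ (t - m), fun t => if t < m then α t else β (t - m),
    fun t => ?_, fun t i hi => ?_, ?_, ?_⟩
  · dsimp only
    split_ifs
    · exact h1 t
    · exact k1 _
  · dsimp only
    split_ifs
    · exact h2 t i hi
    · exact k2 _ i hi
  · rw [Finset.sum_range_add, Prod.fst_add, ← h3, ← k3]
    congr 1
    · refine Finset.sum_congr rfl fun t ht => ?_
      have : t < m := Finset.mem_range.mp ht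
      simp [sval, this]
    · refine Finset.sum_congr rfl fun t ht => ?_
      simp [sval]
  · rw [Finset.sum_range_add, Prod.snd_add, ← h4, ← k4]
    congr 1
    · refine Finset.sum_congr rfl fun t ht => ?_
      have : t < m := Finset.mem_range.mp ht
      simp [sval, this]
    · refine Finset.sum_congr rfl fun t ht => ?_
      simp [sval]

/-- All pairs represented by sums of signed monomials. -/
def RepG (z : ι → Kˣ) (T : Set ι) (i₀ : ι) : AddSubgroup (K × K) where
  carrier := {p | ∃ m, Rep z T i₀ m p}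
  zero_mem' := ⟨0, Rep.zero z T i₀⟩
  add_mem' := by
    rintro p q ⟨m, hm⟩ ⟨n, hn⟩
    exact ⟨m + n, hm.add hn⟩
  neg_mem' := by
    rintro p ⟨m, hm⟩
    exact ⟨m, hm.neg⟩

lemma mem_repG_mono (z : ι → Kˣ) (T : Set ι) (i₀ : ι) (a : ι → ℕ) (ha : ∀ i ∉ T, a i = 0) :
    ((∏ i, (z i : K) ^ a i, (∏ i, (z i : K) ^ a i) * (a i₀ : K)) : K × K) ∈ RepG z T i₀ :=
  ⟨1, fun _ => 1, fun _ => a, fun _ => Or.inl rfl, fun _ => ha, by simp [sval], by simp [sval]⟩

/-- Existence of a relation with nonzero derivative. -/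
lemma exists_rep [CharZero K] (z : ι → Kˣ) (J : Finset ι)
    (hJ : AlgebraicIndependent ℤ (fun j : J => (z j : K))) (i₀ : ι) (hi₀ : i₀ ∉ J)
    (hi₀' : IsAlgebraic (Algebra.adjoin ℤ (range (fun j : J => (z j : K)))) (z i₀ : K)) :
    ∃ (m : ℕ) (d : K), d ≠ 0 ∧ Rep z (insert i₀ (J : Set ι)) i₀ m (0, d) := by
  classical
  let A := MvPolynomial J ℤ
  let φ : A →ₐ[ℤ] K := aeval (fun j : J => (z j : K))
  have hφ : Function.Injective φ := hJ
  let _ : Algebra A K := φ.toRingHom.toAlgebra
  have hA : ∀ a : A, algebraMap A K a = φ a := fun _ => rfl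
  have halg : IsAlgebraic A (z i₀ : K) := by
    let E := hJ.aevalEquiv
    refine IsAlgebraic.ringHom_of_comp_eq (E.symm : _ →+* A) (RingHom.id K) hi₀'
      E.symm.injective ?_
    ext x
    obtain ⟨a, rfl⟩ := E.surjective x
    simp only [RingHom.comp_apply, RingHom.id_apply, RingHom.coe_coe, hA]
    rw [E.symm_apply_apply]
    rfl
  -- a polynomial of minimal degree
  have hex : ∃ d : ℕ, ∃ p : Polynomial A, p ≠ 0 ∧ Polynomial.aeval (z i₀ : K) p = 0 ∧
      p.natDegree = d := by
    obtain ⟨p, hp, hp'⟩ := halg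
    exact ⟨_, p, hp, hp', rfl⟩
  obtain ⟨p, hp0, hp, hpd⟩ := Nat.find_spec hex
  have hmin : ∀ q : Polynomial A, q ≠ 0 → Polynomial.aeval (z i₀ : K) q = 0 →
      p.natDegree ≤ q.natDegree := by
    intro q hq hq'
    rw [hpd]
    exact Nat.find_min' hex ⟨q, hq, hq', rfl⟩
  have hder : Polynomial.aeval (z i₀ : K) (Polynomial.derivative p) ≠ 0 := by
    intro h0
    have hdeg : p.natDegree ≠ 0 := by
      intro h1
      rw [Polynomial.natDegree_eq_zero] at h1
      obtain ⟨a, rfl⟩ := h1
      rw [Polynomial.aeval_C, hA, map_eq_zero_iff _ hφ] at hp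
      exact hp0 (by rw [hp, map_zero])
    by_cases h1 : Polynomial.derivative p = 0
    · exact hdeg (Polynomial.derivative_eq_zero.mp h1)
    · have h2 := hmin _ h1 h0
      have h3 := Polynomial.natDegree_derivative_lt hdeg
      omega
  -- decomposition into signed monomials
  have key : ∀ q : Polynomial A, ((Polynomial.aeval (z i₀ : K) q,
      (z i₀ : K) * Polynomial.aeval (z i₀ : K) (Polynomial.derivative q)) : K × K) ∈
      RepG z (insert i₀ (J : Set ι)) i₀ := by
    intro q
    induction q using Polynomial.induction_on' with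
    | add q r hq hr =>
      have := add_mem hq hr
      simpa [mul_add] using this
    | monomial k a =>
      induction a using MvPolynomial.induction_on' with
      | monomial s c =>
        let α : ι → ℕ := fun i => if h : i ∈ J then s ⟨i, h⟩ else if i = i₀ then k else 0
        have hα : ∀ i ∉ insert i₀ (J : Set ι), α i = 0 := by
          intro i hi
          rw [mem_insert_iff, not_or] at hi
          have h1 : i ∉ J := fun h => hi.2 h
          simp [α, h1, hi.1]
        have hα0 : α i₀ = k := by simp [α, hi₀]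
        have hprod : ∏ i, (z i : K) ^ α i = (s.prod fun j n => (z j : K) ^ n) * (z i₀ : K) ^ k := by
          rw [Finsupp.prod_fintype _ _ (fun _ => pow_zero _)]
          have h1 : ∏ i, (z i : K) ^ α i = ∏ i ∈ insert i₀ J, (z i : K) ^ α i := by
            refine (Finset.prod_subset (Finset.subset_univ _) ?_).symm
            intro i _ hi
            rw [hα i (by simpa using hi), pow_zero]
          rw [h1, Finset.prod_insert hi₀, hα0, mul_comm]
          congr 1
          rw [← Finset.prod_coe_sort J (fun i => (z i : K) ^ α i)]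
          refine Finset.prod_congr rfl fun j _ => ?_
          simp [α]
        have h2 := zsmul_mem (mem_repG_mono z (insert i₀ (J : Set ι)) i₀ α hα) c
        have hm : φ (monomial s c) = (c : K) * s.prod fun j n => (z j : K) ^ n := by
          change aeval _ _ = _
          rw [aeval_monomial]
          simp
        have h3 : c • ((∏ i, (z i : K) ^ α i, (∏ i, (z i : K) ^ α i) * (α i₀ : K)) : K × K) =
            ((c : K) * ∏ i, (z i : K) ^ α i, (c : K) * ((∏ i, (z i : K) ^ α i) * (α i₀ : K))) := by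
          simp
        rw [h3, hprod, hα0] at h2
        convert! h2 using 1
        ext
        · change Polynomial.aeval (z i₀ : K) (Polynomial.monomial k (monomial s c)) = _
          rw [Polynomial.aeval_monomial, hA, hm]
          change _ = (c : K) * _
          ring
        · change (z i₀ : K) * Polynomial.aeval (z i₀ : K) (Polynomial.derivative
            (Polynomial.monomial k (monomial s c))) = (c : K) * _
          rw [Polynomial.derivative_monomial, Polynomial.aeval_monomial, hA, map_mul, map_natCast,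
            hm]
          rcases Nat.eq_zero_or_pos k with h0 | h0
          · simp [h0]
          · have : (z i₀ : K) ^ k = (z i₀ : K) ^ (k - 1) * (z i₀ : K) := by
              rw [← pow_succ]
              congr 1
              omega
            rw [this]
            ring
      | add a b ha hb =>
        have := add_mem ha hb
        simpa [mul_add, add_mul] using this
  obtain ⟨m, hm⟩ := key p
  rw [hp] at hm
  exact ⟨m, _, mul_ne_zero (z i₀).ne_zero hder, hm⟩

/-- A relation of minimal length has no vanishing proper partial sum. -/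
lemma exists_minimal (z : ι → Kˣ) (T : Set ι) (i₀ : ι)
    (h : ∃ (m : ℕ) (d : K), d ≠ 0 ∧ Rep z T i₀ m (0, d)) :
    ∃ (m : ℕ) (ε : ℕ → ℤ) (α : ℕ → ι → ℕ), (∀ t, ε t = 1 ∨ ε t = -1) ∧
      (∀ t, ∀ i ∉ T, α t i = 0) ∧
      ∑ t ∈ Finset.range m, sval z ε α t = 0 ∧
      ∑ t ∈ Finset.range m, sval z ε α t * (α t i₀ : K) ≠ 0 ∧
      ∀ l, 0 < l → l < m → ∑ t ∈ Finset.range l, sval z ε α t ≠ 0 := by
  classical
  obtain ⟨d, hd, ε, α, h1, h2, h3, h4⟩ := Nat.find_spec h
  have hmin : ∀ m < Nat.find h, ∀ d : K, d ≠ 0 → ¬ Rep z T i₀ m (0, d) := by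
    intro m hm d hd hr
    exact Nat.find_min h hm ⟨d, hd, hr⟩
  refine ⟨Nat.find h, ε, α, h1, h2, h3, by rw [h4]; exact hd, ?_⟩
  intro l hl hlm h0
  have h5 : ∑ t ∈ Finset.range l, sval z ε α t * (α t i₀ : K) = 0 := by
    by_contra hcon
    exact hmin l hlm _ hcon ⟨ε, α, h1, h2, h0, rfl⟩
  obtain ⟨r, hr⟩ := Nat.exists_eq_add_of_lt hlm
  have hr' : Nat.find h = l + (r + 1) := by omega
  rw [hr', Finset.sum_range_add] at h3 h4
  rw [h0, zero_add] at h3
  rw [h5, zero_add] at h4
  exact hmin (r + 1) (by omega) d hd ⟨fun t => ε (l + t), fun t => α (l + t), fun t => h1 _,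
    fun t => h2 _, h3, h4⟩

end

end CIT8
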