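import Mathlib
import Pool.Agent.Lib.MP_c95b3b_ag_h8.Star
import Pool.Agent.Lib.MP_c95b3b_ag_h8.StepB1

set_option autoImplicit false

/-!
Encoding of algebraic relations by three-term relations.
-/

namespace CIT8

open Set MvPolynomial Module

/-- Algebraicity over `F[S]` gives algebraicity over `ℤ[S]` when `F` is algebraic over `ℤ`. -/
lemma isAlgebraic_int {F : Type} [Field F] [CharZero F] [Algebra.IsAlgebraic ℤ F] {K : Type}
    [Field K] [Algebra F K] {κ : Type} (x : κ → K) (hx : AlgebraicIndependent F x) (a : K)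
    (ha : a ∈ acl F (range x)) : AlgebraicIndependent ℤ x ∧
      IsAlgebraic (Algebra.adjoin ℤ (range x)) a := by
  have h1 : AlgebraicIndependent ℤ x :=
    hx.restrictScalars (by simpa using Int.cast_injective (α := F))
  refine ⟨h1, ?_⟩
  by_contra hcon
  have h2 := (h1.option_iff_transcendental a).mpr hcon
  have h3 := h2.extendScalars F
  exact (hx.option_iff_transcendental a).mp h3 ha

theorem stepB (F : Type) [Field F] [CharZero F] [Algebra.IsAlgebraic ℤ F] {K : Type} [Field K]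
    [Algebra F K] {ι : Type} [Fintype ι] (z : ι → Kˣ) (J : Finset ι)
    (hJ : AlgebraicIndependent F (fun j : J => (z j : K)))
    (hJ' : ∀ i, (z i : K) ∈ acl F (range (fun j : J => (z j : K)))) (D : ℕ)
    (hstar : Star F z D) :
    ∃ (ι' : Type) (_ : Fintype ι') (z' : ι' → Kˣ) (J' : Finset ι') (E : Type) (_ : Fintype E)
      (c : E → Fin 3 → ℤ) (a : E → Fin 3 → ι' → ℤ),
      (∀ e t, c e t = 0 ∨ c e t = 1 ∨ c e t = -1) ∧
      (∀ e, ∑ t, (c e t : K) * ((∏ i, z' i ^ a e t i : Kˣ) : K) = 0) ∧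
      (∀ v : ι' → K, (∀ j ∈ J', v j = 0) →
        (∀ e, ∑ t, (c e t : K) * ((∏ i, z' i ^ a e t i : Kˣ) : K) * ∑ i, (a e t i : K) * v i = 0) →
        v = 0) ∧
      J'.card = J.card ∧ AlgebraicIndependent F (fun j : J' => (z' j : K)) ∧
      (∀ i, (z' i : K) ∈ acl F (range (fun j : J' => (z' j : K)))) ∧ Star F z' D := by
  classical
  have hK : CharZero K := charZero_of_injective_algebraMap (algebraMap F K).injective
  have hrel : ∀ i : {i // i ∉ J}, ∃ (m : ℕ) (ε : ℕ → ℤ) (α : ℕ → ι → ℕ),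
      (∀ t, ε t = 1 ∨ ε t = -1) ∧
      (∀ t, ∀ i' ∉ insert (i : ι) (J : Set ι), α t i' = 0) ∧
      ∑ t ∈ Finset.range m, sval z ε α t = 0 ∧
      ∑ t ∈ Finset.range m, sval z ε α t * (α t i : K) ≠ 0 ∧
      ∀ l, 0 < l → l < m → ∑ t ∈ Finset.range l, sval z ε α t ≠ 0 := by
    intro i
    obtain ⟨h1, h2⟩ := isAlgebraic_int _ hJ _ (hJ' i)
    exact exists_minimal z _ _ (exists_rep z J h1 i i.2 h2)
  choose m ε α hε hα hsum hder hpart using hrel
  -- partial sums
  let S : {i // i ∉ J} → ℕ → K := fun i l => ∑ t ∈ Finset.range l, sval z (ε i) (α i) t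
  have hS0 : ∀ i, S i 0 = 0 := fun i => by simp [S]
  have hSm : ∀ i, S i (m i) = 0 := fun i => hsum i
  have hSne : ∀ i l, 0 < l → l < m i → S i l ≠ 0 := fun i l h1 h2 => hpart i l h1 h2
  have hSsucc : ∀ i l, S i (l + 1) = S i l + sval z (ε i) (α i) l := fun i l => by
    simp only [S, Finset.sum_range_succ]
  -- new variables
  let κ : Type := Σ i : {i // i ∉ J}, Fin (m i - 1)
  let s : κ → Kˣ := fun k => Units.mk0 (S k.1 (k.2 + 1)) (hSne k.1 _ (Nat.succ_pos _) (by
    have := k.2.2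
    omega))
  let z' : ι ⊕ κ → Kˣ := Sum.elim z s
  let P : κ → MvPolynomial ι F := fun k => ∑ t ∈ Finset.range (k.2 + 1),
    C (ε k.1 t : F) * ∏ i, X i ^ (α k.1 t i)
  have hP : ∀ k, (s k : K) = aeval (fun i => (z i : K)) (P k) := by
    intro k
    simp only [s, P, S, Units.val_mk0, map_sum, map_mul, map_prod, map_pow, aeval_X, sval,
      map_intCast]
  have hstar' : Star F z' D := hstar.add s P hP
  -- equations
  let E : Type := Σ i : {i // i ∉ J}, Fin (m i)
  let c : E → Fin 3 → ℤ := fun e => ![ε e.1 e.2, if 0 < (e.2 : ℕ) then 1 else 0,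
    if (e.2 : ℕ) + 1 < m e.1 then -1 else 0]
  let a : E → Fin 3 → (ι ⊕ κ → ℤ) := fun e => ![Sum.elim (fun i => (α e.1 e.2 i : ℤ)) 0,
    if h : 0 < (e.2 : ℕ) then Pi.single (Sum.inr ⟨e.1, ⟨e.2 - 1, by have := e.2.2; omega⟩⟩) 1 else 0,
    if h : (e.2 : ℕ) + 1 < m e.1 then Pi.single (Sum.inr ⟨e.1, ⟨e.2, by omega⟩⟩) 1 else 0]
  let τ : (ι ⊕ κ → K) → {i // i ∉ J} → ℕ → K := fun v i l =>
    if h : 0 < l ∧ l < m i then v (Sum.inr ⟨i, ⟨l - 1, by omega⟩⟩) else 0
  have hsingle : ∀ (j : ι ⊕ κ), ((∏ i, z' i ^ (Pi.single j (1 : ℤ) : ι ⊕ κ → ℤ) i : Kˣ) : K) =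
      z' j := by
    intro j
    rw [Finset.prod_eq_single j]
    · simp
    · intro i _ hi
      simp [Pi.single_eq_of_ne hi]
    · simp
  have hsum1 : ∀ (j : ι ⊕ κ) (v : ι ⊕ κ → K),
      ∑ i, ((Pi.single j (1 : ℤ) : ι ⊕ κ → ℤ) i : K) * v i = v j := by
    intro j v
    rw [Finset.sum_eq_single j]
    · simp
    · intro i _ hi
      simp [Pi.single_eq_of_ne hi]
    · simp
  have hv0 : ∀ e : E, (c e 0 : K) * ((∏ i, z' i ^ a e 0 i : Kˣ) : K) =
      sval z (ε e.1) (α e.1) e.2 := by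
    intro e
    have h1 : ∏ i, z' i ^ a e 0 i = ∏ i, z i ^ (α e.1 e.2 i) := by
      rw [Fintype.prod_sum_type]
      simp [z', a]
    rw [h1]
    simp [c, sval]
  have hv1 : ∀ e : E, (c e 1 : K) * ((∏ i, z' i ^ a e 1 i : Kˣ) : K) = S e.1 e.2 := by
    intro e
    by_cases h : 0 < (e.2 : ℕ)
    · have h1 : a e 1 = Pi.single (Sum.inr ⟨e.1, ⟨e.2 - 1, by have := e.2.2; omega⟩⟩) 1 := by
        simp [a, h]
      have h2 : c e 1 = 1 := by simp [c, h]
      rw [h1, h2, hsingle]
      have h3 : ((e.2 : ℕ) - 1) + 1 = e.2 := by omega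
      simp [z', s, h3]
    · have h0 : (e.2 : ℕ) = 0 := by omega
      have h2 : c e 1 = 0 := by simp [c, h]
      rw [h2, h0, hS0]
      simp
  have hv2 : ∀ e : E, (c e 2 : K) * ((∏ i, z' i ^ a e 2 i : Kˣ) : K) = - S e.1 (e.2 + 1) := by
    intro e
    by_cases h : (e.2 : ℕ) + 1 < m e.1
    · have h1 : a e 2 = Pi.single (Sum.inr ⟨e.1, ⟨e.2, by omega⟩⟩) 1 := by
        simp [a, h]
      have h2 : c e 2 = -1 := by simp [c, h]
      rw [h1, h2, hsingle]
      simp [z', s]
    · have h0 : (e.2 : ℕ) + 1 = m e.1 := by have := e.2.2; omega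
      have h2 : c e 2 = 0 := by simp [c, h]
      rw [h2, h0, hSm]
      simp
  have hd0 : ∀ (e : E) (v : ι ⊕ κ → K), ∑ i, (a e 0 i : K) * v i =
      ∑ i, (α e.1 e.2 i : K) * v (Sum.inl i) := by
    intro e v
    rw [Fintype.sum_sum_type]
    simp [a]
  have hd1 : ∀ (e : E) (v : ι ⊕ κ → K), S e.1 e.2 * ∑ i, (a e 1 i : K) * v i =
      S e.1 e.2 * τ v e.1 e.2 := by
    intro e v
    by_cases h : 0 < (e.2 : ℕ)
    · have h1 : a e 1 = Pi.single (Sum.inr ⟨e.1, ⟨e.2 - 1, by have := e.2.2; omega⟩⟩) 1 := by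
        simp [a, h]
      rw [h1, hsum1]
      simp [τ, h]
    · have h0 : (e.2 : ℕ) = 0 := by omega
      rw [h0, hS0]
      simp
  have hd2 : ∀ (e : E) (v : ι ⊕ κ → K), S e.1 (e.2 + 1) * ∑ i, (a e 2 i : K) * v i =
      S e.1 (e.2 + 1) * τ v e.1 (e.2 + 1) := by
    intro e v
    by_cases h : (e.2 : ℕ) + 1 < m e.1
    · have h1 : a e 2 = Pi.single (Sum.inr ⟨e.1, ⟨e.2, by omega⟩⟩) 1 := by
        simp [a, h]
      rw [h1, hsum1]
      simp [τ, h]
    · have h0 : (e.2 : ℕ) + 1 = m e.1 := by have := e.2.2; omega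
      rw [h0, hSm]
      simp
  refine ⟨ι ⊕ κ, inferInstance, z', J.map ⟨Sum.inl, Sum.inl_injective⟩, E, inferInstance, c, a,
    ?_, ?_, ?_, Finset.card_map _, ?_, ?_, hstar'⟩
  · intro e t
    fin_cases t
    · rcases hε e.1 e.2 with h | h <;> simp [c, h]
    · simp only [c]
      by_cases h : 0 < (e.2 : ℕ) <;> simp [h]
    · simp only [c]
      by_cases h : (e.2 : ℕ) + 1 < m e.1 <;> simp [h]
  · intro e
    rw [Fin.sum_univ_three, hv0, hv1, hv2, hSsucc]
    ring
  · intro v hvJ hv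
    have hvJ' : ∀ j ∈ J, v (Sum.inl j) = 0 := fun j hj => hvJ _ (Finset.mem_map_of_mem _ hj)
    have hrec : ∀ (i : {i // i ∉ J}) (l : ℕ), l < m i →
        S i (l + 1) * τ v i (l + 1) = S i l * τ v i l +
          sval z (ε i) (α i) l * ((α i l i : K) * v (Sum.inl i)) := by
      intro i l hl
      have h1 := hv ⟨i, ⟨l, hl⟩⟩
      rw [Fin.sum_univ_three, hv0, hv1, hv2, neg_mul, hd1, hd2, hd0] at h1
      have h2 : ∑ i', (α i l i' : K) * v (Sum.inl i') = (α i l i : K) * v (Sum.inl i) := by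
        rw [Finset.sum_eq_single (i : ι)]
        · intro i' _ hi'
          by_cases hJi : i' ∈ J
          · rw [hvJ' _ hJi, mul_zero]
          · rw [hα i l i' (by
              rw [mem_insert_iff, not_or]
              exact ⟨hi', hJi⟩)]
            simp
        · simp
      dsimp only at h1
      rw [h2] at h1
      linear_combination -h1
    have hvi : ∀ i : {i // i ∉ J}, v (Sum.inl i) = 0 := by
      intro i
      have h1 : ∀ l ≤ m i, S i l * τ v i l =
          (∑ t ∈ Finset.range l, sval z (ε i) (α i) t * (α i t i : K)) * v (Sum.inl i) := by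
        intro l
        induction l with
        | zero => intro _; simp [hS0]
        | succ l ih =>
          intro hl
          rw [hrec i l (by omega), ih (by omega), Finset.sum_range_succ]
          ring
      have h2 := h1 (m i) le_rfl
      rw [hSm, zero_mul] at h2
      rcases mul_eq_zero.mp h2.symm with h3 | h3
      · exact absurd h3 (hder i)
      · exact h3
    have hvk : ∀ (i : {i // i ∉ J}) (l : ℕ), l ≤ m i → S i l * τ v i l = 0 := by
      intro i l
      induction l with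
      | zero => intro _; simp [hS0]
      | succ l ih =>
        intro hl
        rw [hrec i l (by omega), ih (by omega), hvi i]
        simp
    funext x
    rcases x with i | ⟨i, l⟩
    · by_cases hi : i ∈ J
      · exact hvJ' _ hi
      · exact hvi ⟨i, hi⟩
    · have hl : (l : ℕ) + 1 < m i := by have := l.2; omega
      have h1 := hvk i (l + 1) hl.le
      rcases mul_eq_zero.mp h1 with h2 | h2
      · exact absurd h2 (hSne i _ (Nat.succ_pos _) hl)
      · simpa [τ, hl] using h2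
  · exact (algebraicIndependent_equiv (Finset.equivMap ⟨Sum.inl, Sum.inl_injective⟩ J)).mp hJ
  · have h1 : range (fun j : J => (z j : K)) ⊆
        range (fun j : (J.map ⟨Sum.inl, Sum.inl_injective⟩ : Finset (ι ⊕ κ)) => (z' j : K)) := by
      rintro _ ⟨j, rfl⟩
      exact ⟨⟨Sum.inl j, Finset.mem_map_of_mem _ j.2⟩, rfl⟩
    rintro (i | k)
    · exact acl_mono h1 (hJ' i)
    · change (s k : K) ∈ _
      rw [hP k]
      have h2 : ∀ H : MvPolynomial ι F, aeval (fun i => (z i : K)) H ∈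
          acl F (range (fun j : (J.map ⟨Sum.inl, Sum.inl_injective⟩ : Finset (ι ⊕ κ)) =>
            (z' j : K))) := by
        intro H
        induction H using MvPolynomial.induction_on with
        | C a => rw [aeval_C]; exact acl_algebraMap _ _
        | add p q hp hq => rw [map_add]; exact acl_add hp hq
        | mul_X p i hp => rw [map_mul, aeval_X]; exact acl_mul hp (acl_mono h1 (hJ' i))
      exact h2 _

end CIT8
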