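import Mathlib
import Pool.Agent.Lib.MP_c95b3b_ag_h8.Star
import Pool.Agent.Lib.MP_c95b3b_ag_h8.StepB1

set_option autoImplicit false

/-!
Passing to a multiplicative basis, and nonvanishing minors.
-/

namespace CIT8

open Set MvPolynomial Module

/-- A matrix over a field has a nonvanishing minor of size its rank. -/
lemma exists_minor {K : Type} [Field K] {E : Type} [Fintype E] {R : ℕ} (M : Matrix E (Fin R) K) :
    ∃ (e : Fin M.rank → E) (j : Fin M.rank → Fin R), (M.submatrix e j).det ≠ 0 := by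
  classical
  -- rows
  obtain ⟨κ, a, ha, hspan, hli⟩ := exists_linearIndependent' K M.row
  have hκ : Finite κ := Finite.of_injective a ha
  have := Fintype.ofFinite κ
  have hcard : Fintype.card κ = M.rank := by
    rw [Matrix.rank_eq_finrank_span_row, ← hspan, finrank_span_eq_card hli]
  let eκ : Fin M.rank ≃ κ := (Fintype.equivFinOfCardEq hcard).symm
  let e : Fin M.rank → E := a ∘ eκ
  let M' : Matrix (Fin M.rank) (Fin R) K := M.submatrix e id
  have hM' : LinearIndependent K M'.row := by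
    have : M'.row = (M.row ∘ a) ∘ eκ := rfl
    rw [this]
    exact hli.comp _ eκ.injective
  have hrank' : M'.rank = M.rank := by
    rw [Matrix.rank_eq_finrank_span_row, finrank_span_eq_card hM', Fintype.card_fin]
  -- columns
  obtain ⟨κ', a', ha', hspan', hli'⟩ := exists_linearIndependent' K M'.col
  have hκ' : Finite κ' := Finite.of_injective a' ha'
  have := Fintype.ofFinite κ'
  have hcard' : Fintype.card κ' = M.rank := by
    rw [← hrank', Matrix.rank_eq_finrank_span_cols, ← hspan', finrank_span_eq_card hli']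
  let eκ' : Fin M.rank ≃ κ' := (Fintype.equivFinOfCardEq hcard').symm
  refine ⟨e, a' ∘ eκ', ?_⟩
  have h1 : LinearIndependent K (M.submatrix e (a' ∘ eκ')).col := by
    have : (M.submatrix e (a' ∘ eκ')).col = (M'.col ∘ a') ∘ eκ' := rfl
    rw [this]
    exact hli'.comp _ eκ'.injective
  rw [Matrix.linearIndependent_cols_iff_isUnit, Matrix.isUnit_iff_isUnit_det] at h1
  exact h1.ne_zero

/-- A root of unity in an extension of an algebraically closed field lies in the field. -/
lemma exists_root_eq {F K : Type} [Field F] [IsAlgClosed F] [CharZero F] [Field K] [Algebra F K]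
    (x : Kˣ) (hx : ∃ N : ℕ, 0 < N ∧ x ^ N = 1) :
    ∃ y : Fˣ, (∃ N : ℕ, 0 < N ∧ y ^ N = 1) ∧ Units.map (algebraMap F K : F →* K) y = x := by
  obtain ⟨N, hN, hN'⟩ := hx
  have : NeZero (N : F) := ⟨by exact_mod_cast hN.ne'⟩
  have : NeZero N := ⟨hN.ne'⟩
  obtain ⟨ζ, hζ⟩ := HasEnoughRootsOfUnity.exists_primitiveRoot F N
  have hζ' := hζ.map_of_injective (algebraMap F K).injective
  have hx' : (x : K) ^ N = 1 := by
    rw [← Units.val_pow_eq_pow_val, hN', Units.val_one]
  obtain ⟨i, -, hi⟩ := hζ'.eq_pow_of_pow_eq_one hx'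
  have hζu : IsUnit ζ := hζ.isUnit hN.ne'
  refine ⟨hζu.unit ^ i, ⟨N, hN, ?_⟩, ?_⟩
  · apply Units.ext
    simp only [Units.val_pow_eq_pow_val, IsUnit.unit_spec, Units.val_one]
    rw [← pow_mul, mul_comm, pow_mul, hζ.pow_eq_one, one_pow]
  · apply Units.ext
    simp only [Units.coe_map, Units.val_pow_eq_pow_val, IsUnit.unit_spec]
    simpa using hi

section

variable {K : Type} [Field K] {ι : Type} [Fintype ι]

/-- The monomial map as an additive homomorphism. -/
lemma mon_add_units (z : ι → Kˣ) (a b : ι → ℤ) :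
    ∏ i, z i ^ (a + b) i = (∏ i, z i ^ a i) * ∏ i, z i ^ b i := by
  simp only [Pi.add_apply, zpow_add, Finset.prod_mul_distrib]

lemma mon_sum_units (z : ι → Kˣ) {κ : Type} (s : Finset κ) (f : κ → ι → ℤ) (c : κ → ℤ) :
    ∏ i, z i ^ (∑ l ∈ s, c l * f l i) = ∏ l ∈ s, (∏ i, z i ^ f l i) ^ c l := by
  have h1 : ∀ l, (∏ i, z i ^ f l i) ^ c l = ∏ i, z i ^ (c l * f l i) := by
    intro l
    rw [← Finset.prod_zpow]
    exact Finset.prod_congr rfl fun i _ => by rw [← zpow_mul, mul_comm]
  simp only [h1]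
  rw [Finset.prod_comm]
  exact Finset.prod_congr rfl fun i _ => (prod_zpow_sum _ _ _).symm

/-- A multiplicative basis, up to torsion, of the group generated by a family of units. -/
theorem exists_mulbasis (z : ι → Kˣ) :
    ∃ (R : ℕ) (b : Fin R → Kˣ) (B : Fin R → ι → ℤ) (A : ι → Fin R → ℤ) (ζ : ι → Kˣ),
      (∀ l, b l = ∏ i, z i ^ B l i) ∧ (∀ i, z i = ζ i * ∏ l, b l ^ A i l) ∧
      (∀ i, ∃ N : ℕ, 0 < N ∧ ζ i ^ N = 1) ∧ rel b = ⊥ ∧
      Fintype.card ι ≤ R + finrank ℤ (rel z) ∧
      (∀ l l', ∑ i, B l i * A i l' = if l = l' then 1 else 0) := by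
  classical
  let Q := (ι → ℤ) ⧸ rel z
  let Q' := Q ⧸ Submodule.torsion ℤ Q
  have hfree : Module.Free ℤ Q' := Module.free_of_finite_type_torsion_free'
  let h := finrank ℤ Q'
  let β : Basis (Fin h) ℤ Q' := Module.finBasis ℤ Q'
  let π : (ι → ℤ) →ₗ[ℤ] Q' :=
    (Submodule.mkQ (Submodule.torsion ℤ Q)).comp (Submodule.mkQ (rel z))
  have hπ : Function.Surjective π :=
    (Submodule.mkQ_surjective _).comp (Submodule.mkQ_surjective _)
  have hπrel : ∀ a ∈ rel z, π a = 0 := by
    intro a ha
    have : Submodule.mkQ (rel z) a = 0 := by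
      rw [Submodule.mkQ_apply, Submodule.Quotient.mk_eq_zero]
      exact ha
    simp [π, this]
  have hker : ∀ a, π a = 0 → ∃ N : ℕ, 0 < N ∧ (∏ i, z i ^ a i) ^ N = 1 := by
    intro a ha
    have h2 : Submodule.mkQ (rel z) a ∈ Submodule.torsion ℤ Q := by
      have : Submodule.mkQ (Submodule.torsion ℤ Q) (Submodule.mkQ (rel z) a) = 0 := ha
      rwa [Submodule.mkQ_apply, Submodule.Quotient.mk_eq_zero] at this
    rw [Submodule.mem_torsion_iff] at h2
    obtain ⟨c, hc⟩ := h2
    have hc0 : (c : ℤ) ≠ 0 := nonZeroDivisors.ne_zero c.2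
    have h3 : (c : ℤ) • a ∈ rel z := by
      have h4 : Submodule.mkQ (rel z) ((c : ℤ) • a) = 0 := by
        rw [map_smul]; exact hc
      rwa [Submodule.mkQ_apply, Submodule.Quotient.mk_eq_zero] at h4
    rw [mem_rel] at h3
    have h5 : (∏ i, z i ^ a i) ^ (c : ℤ) = 1 := by
      rw [← h3, ← Finset.prod_zpow]
      refine Finset.prod_congr rfl fun i _ => ?_
      rw [← zpow_mul, Pi.smul_apply, smul_eq_mul, mul_comm]
    refine ⟨(c : ℤ).natAbs, Int.natAbs_pos.mpr hc0, ?_⟩
    rcases Int.natAbs_eq (c : ℤ) with h6 | h6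
    · rw [h6, zpow_natCast] at h5
      exact h5
    · rw [h6, zpow_neg, zpow_natCast, inv_eq_one] at h5
      exact h5
  obtain ⟨s, hs⟩ := Module.projective_lifting_property π LinearMap.id hπ
  have hs' : ∀ q, π (s q) = q := fun q => by
    have := LinearMap.congr_fun hs q
    simpa using this
  let B : Fin h → ι → ℤ := fun l => s (β l)
  let b : Fin h → Kˣ := fun l => ∏ i, z i ^ B l i
  let A : ι → Fin h → ℤ := fun i l => β.repr (π (Pi.single i 1)) l
  let lam : ι → (ι → ℤ) := fun i => Pi.single i 1 - s (π (Pi.single i 1))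
  have hA : ∀ i, s (π (Pi.single i 1)) = ∑ l, A i l • B l := by
    intro i
    conv_lhs => rw [← β.sum_repr (π (Pi.single i 1))]
    rw [map_sum]
    exact Finset.sum_congr rfl fun l _ => by rw [map_smul]
  refine ⟨h, b, B, A, fun i => ∏ k, z k ^ lam i k, fun l => rfl, ?_, ?_, ?_, ?_, ?_⟩
  · intro i
    have h1 : (Pi.single i 1 : ι → ℤ) = lam i + ∑ l, A i l • B l := by
      rw [← hA]
      simp [lam]
    have h2 : ∏ l, b l ^ A i l = ∏ k, z k ^ (∑ l, A i l • B l : ι → ℤ) k := by
      have h3 := mon_sum_units z Finset.univ B (A i)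
      rw [← h3]
      refine Finset.prod_congr rfl fun k _ => ?_
      simp
    rw [h2, ← mon_add_units, ← h1, Finset.prod_eq_single i]
    · simp
    · intro k _ hk
      simp [Pi.single_eq_of_ne hk]
    · simp
  · intro i
    exact hker _ (by simp only [lam, map_sub, hs', sub_self])
  · rw [Submodule.eq_bot_iff]
    intro a ha
    rw [mem_rel] at ha
    have h3 := mon_sum_units z Finset.univ B a
    rw [show (∏ l, (∏ i, z i ^ B l i) ^ a l) = 1 from ha] at h3
    have h4 := hπrel (∑ l, a l • B l) (by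
      rw [mem_rel, ← h3]
      refine Finset.prod_congr rfl fun k _ => ?_
      simp)
    rw [map_sum] at h4
    have h5 : ∑ l, a l • β l = 0 := by
      rw [← h4]
      exact Finset.sum_congr rfl fun l _ => by rw [map_smul, hs']
    exact funext fun l => (Fintype.linearIndependent_iff.mp β.linearIndependent) a h5 l
  · have h1 : h = finrank ℤ Q := finrank_quotient_eq_of_le_torsion le_rfl
    have h2 : finrank ℤ Q + finrank ℤ (rel z) = finrank ℤ (ι → ℤ) :=
      Submodule.finrank_quotient_add_finrank (rel z)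
    rw [finrank_fintype_fun_eq_card] at h2
    omega
  · intro l l'
    have h1 : (∑ i, B l i • (Pi.single i 1 : ι → ℤ)) = B l := by
      ext k
      simp [Pi.single_apply]
    have h2 : ∑ i, B l i * A i l' = β.repr (π (B l)) l' := by
      conv_rhs => rw [← h1]
      rw [map_sum, map_sum, Finsupp.finsetSum_apply]
      refine Finset.sum_congr rfl fun i _ => ?_
      rw [map_smul, map_smul]
      rfl
    rw [h2]
    simp only [B]
    rw [hs', β.repr_self, Finsupp.single_apply]

end

end CIT8
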