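import Mathlib
import Pool.Agent.Lib.MP_c95b3b_ag_h8.StepC
import Pool.Agent.Lib.MP_c95b3b_ag_h8.Indep

set_option autoImplicit false

/-!
Passing to the minimal torus: trinomial equations in a multiplicative basis.
-/

namespace CIT8

open Set MvPolynomial Module

section

variable {F K : Type} [Field F] [CharZero F] [Field K] [Algebra F K]

omit [CharZero F] in
/-- Two-term relations between multiplicatively independent units are trivial. -/
lemma two_term {R : ℕ} (b : Fin R → Kˣ) (hb : rel b = ⊥) (C C' : F) (a a' : Fin R → ℤ)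
    (hC : C = 0 ∨ ∃ N : ℕ, 0 < N ∧ C ^ N = 1) (hC' : C' = 0 ∨ ∃ N : ℕ, 0 < N ∧ C' ^ N = 1)
    (h : algebraMap F K C * ((∏ l, b l ^ a l : Kˣ) : K) +
      algebraMap F K C' * ((∏ l, b l ^ a' l : Kˣ) : K) = 0) (l : Fin R) :
    algebraMap F K C * ((∏ l, b l ^ a l : Kˣ) : K) * (a l : K) +
      algebraMap F K C' * ((∏ l, b l ^ a' l : Kˣ) : K) * (a' l : K) = 0 := by
  by_cases h0 : C = 0
  · rw [h0, map_zero, zero_mul, zero_add] at h
    rw [h0, h]
    simp
  by_cases h0' : C' = 0
  · rw [h0', map_zero, zero_mul, add_zero] at h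
    rw [h0', h]
    simp
  obtain ⟨N, hN, hN'⟩ := hC.resolve_left h0
  obtain ⟨M, hM, hM'⟩ := hC'.resolve_left h0'
  have h1 : (((∏ l, b l ^ a l : Kˣ) : K)) ^ (2 * N * M) = (((∏ l, b l ^ a' l : Kˣ) : K)) ^ (2 * N * M) := by
    have h2 : algebraMap F K C * ((∏ l, b l ^ a l : Kˣ) : K) =
      - (algebraMap F K C' * ((∏ l, b l ^ a' l : Kˣ) : K)) := by linear_combination h
    have h3 := congrArg (fun x : K => x ^ (2 * N * M)) h2
    simp only [mul_pow] at h3
    rw [neg_pow, mul_pow] at h3
    have e1 : (algebraMap F K C) ^ (2 * N * M) = 1 := by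
      rw [← map_pow, show 2 * N * M = N * (2 * M) by ring, pow_mul, hN', one_pow, map_one]
    have e2 : (algebraMap F K C') ^ (2 * N * M) = 1 := by
      rw [← map_pow, show 2 * N * M = M * (2 * N) by ring, pow_mul, hM', one_pow, map_one]
    have e3 : (-1 : K) ^ (2 * N * M) = 1 := by
      rw [show 2 * N * M = 2 * (N * M) by ring, pow_mul]
      simp
    rw [e1, e2, e3, one_mul, one_mul, one_mul] at h3
    exact h3
  have h2 : ((2 * N * M : ℕ) : ℤ) • (a - a') ∈ rel b := by
    rw [mem_rel]
    have h3 : (∏ l, b l ^ a l) ^ (2 * N * M) = (∏ l, b l ^ a' l) ^ (2 * N * M) := by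
      apply Units.ext
      rw [Units.val_pow_eq_pow_val, Units.val_pow_eq_pow_val]
      exact h1
    have h4 : ∏ l, b l ^ (((2 * N * M : ℕ) : ℤ) • (a - a')) l =
        (∏ l, b l ^ a l) ^ (2 * N * M) / (∏ l, b l ^ a' l) ^ (2 * N * M) := by
      rw [← Finset.prod_pow, ← Finset.prod_pow, ← Finset.prod_div_distrib]
      refine Finset.prod_congr rfl fun l _ => ?_
      rw [Pi.smul_apply, Pi.sub_apply, smul_eq_mul, mul_comm, zpow_mul, zpow_sub, zpow_natCast,
        div_eq_mul_inv, mul_pow, inv_pow]
    rw [h4, h3, div_self']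
  rw [hb, Submodule.mem_bot] at h2
  have h5 : a - a' = 0 := by
    rcases smul_eq_zero.mp h2 with h6 | h6
    · have : 2 * N * M ≠ 0 := by positivity
      exact absurd h6 (by exact_mod_cast this)
    · exact h6
  have h6 : a = a' := sub_eq_zero.mp h5
  rw [← h6] at h ⊢
  linear_combination (a l : K) * h

theorem stepC [IsAlgClosed F] {ι : Type} [Fintype ι] (z : ι → Kˣ) (J : Finset ι) {E : Type}
    [Fintype E] (c : E → Fin 3 → ℤ) (a : E → Fin 3 → ι → ℤ)
    (hc : ∀ e t, c e t = 0 ∨ c e t = 1 ∨ c e t = -1)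
    (hsum : ∀ e, ∑ t, (c e t : K) * ((∏ i, z i ^ a e t i : Kˣ) : K) = 0)
    (htan : ∀ v : ι → K, (∀ j ∈ J, v j = 0) →
      (∀ e, ∑ t, (c e t : K) * ((∏ i, z i ^ a e t i : Kˣ) : K) * ∑ i, (a e t i : K) * v i = 0) →
      v = 0)
    (hJ : AlgebraicIndependent F (fun j : J => (z j : K)))
    (hJ' : ∀ i, (z i : K) ∈ acl F (range (fun j : J => (z j : K)))) (D : ℕ) (hD : J.card = D)
    (hstar : Star F z D) :
    ∃ (R : ℕ) (b : Fin R → Kˣ) (k : ℕ) (C : Fin k → Fin 3 → Fˣ) (α : Fin k → Fin 3 → Fin R → ℤ)
      (j : Fin k → Fin R),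
      rel b = ⊥ ∧ (∀ e t, ∃ N : ℕ, 0 < N ∧ C e t ^ N = 1) ∧
      (∀ e, ∑ t, algebraMap F K (C e t) * ((∏ l, b l ^ α e t l : Kˣ) : K) = 0) ∧
      R ≤ k + D ∧
      (Matrix.of fun e l => ∑ t, algebraMap F K (C e t) * ((∏ l', b l' ^ α e t l' : Kˣ) : K) *
        (α e t (j l) : K)).det ≠ 0 ∧
      (∃ J' : Finset (Fin R), J'.card = D ∧ AlgebraicIndependent F (fun l : J' => (b l : K)) ∧
        ∀ l, (b l : K) ∈ acl F (range (fun l : J' => (b l : K)))) ∧ Star F b D := by
  classical
  obtain ⟨R, b, B, A, ζ, hb, hz, hζ, hrel, hcard, hBA⟩ := exists_mulbasis z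
  choose ζF hζF hζF' using fun i => exists_root_eq (F := F) (ζ i) (hζ i)
  let C0 : E → Fin 3 → F := fun e t => (c e t : F) * ((∏ i, ζF i ^ a e t i : Fˣ) : F)
  let α : E → Fin 3 → Fin R → ℤ := fun e t l => ∑ i, a e t i * A i l
  have hval : ∀ e t, (c e t : K) * ((∏ i, z i ^ a e t i : Kˣ) : K) =
      algebraMap F K (C0 e t) * ((∏ l, b l ^ α e t l : Kˣ) : K) := by
    intro e t
    have h1 : ∏ i, z i ^ a e t i = Units.map (algebraMap F K : F →* K) (∏ i, ζF i ^ a e t i) *
        ∏ l, b l ^ α e t l := by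
      have h2 := mon_sum_units b Finset.univ A (a e t)
      rw [show (∏ l, b l ^ α e t l) = ∏ l, b l ^ (∑ i, a e t i * A i l) from rfl, h2, map_prod,
        ← Finset.prod_mul_distrib]
      refine Finset.prod_congr rfl fun i _ => ?_
      rw [map_zpow, hζF', ← mul_zpow, ← hz i]
    rw [h1, Units.val_mul, Units.coe_map]
    simp only [C0, map_mul, map_intCast]
    rw [mul_assoc]
    rfl
  have hC0 : ∀ e t, C0 e t = 0 ∨ ∃ N : ℕ, 0 < N ∧ C0 e t ^ N = 1 := by
    intro e t
    choose N hN hN' using hζF
    have h1 : ((∏ i, ζF i ^ a e t i : Fˣ) : F) ^ (2 * ∏ i, N i) = 1 := by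
      have h2 : (∏ i, ζF i ^ a e t i) ^ (∏ i, N i) = 1 := by
        rw [← Finset.prod_pow]
        refine Finset.prod_eq_one fun i _ => ?_
        have h3 : ζF i ^ (∏ i, N i) = 1 := by
          rw [← Finset.mul_prod_erase _ _ (Finset.mem_univ i), pow_mul, hN', one_pow]
        rw [← zpow_natCast, ← zpow_mul, mul_comm, zpow_mul, zpow_natCast, h3, one_zpow]
      rw [← Units.val_pow_eq_pow_val, mul_comm, pow_mul, h2, one_pow, Units.val_one]
    have hpos : 0 < 2 * ∏ i, N i := Nat.mul_pos two_pos (Finset.prod_pos fun i _ => hN i)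
    rcases hc e t with h | h | h
    · left; simp [C0, h]
    · right
      refine ⟨_, hpos, ?_⟩
      simp only [C0, h, Int.cast_one, one_mul]
      exact h1
    · right
      refine ⟨_, hpos, ?_⟩
      simp only [C0, h, Int.cast_neg, Int.cast_one, neg_mul, one_mul]
      rw [neg_pow, h1, pow_mul]
      simp
  have hsum' : ∀ e, ∑ t, algebraMap F K (C0 e t) * ((∏ l, b l ^ α e t l : Kˣ) : K) = 0 := by
    intro e
    rw [← hsum e]
    exact Finset.sum_congr rfl fun t _ => (hval e t).symm
  let M : Matrix E (Fin R) K := Matrix.of fun e l =>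
    ∑ t, algebraMap F K (C0 e t) * ((∏ l', b l' ^ α e t l' : Kˣ) : K) * (α e t l : K)
  have hrank : R ≤ M.rank + D := by
    let T : (Fin R → K) →ₗ[K] (J → K) :=
      { toFun := fun u j => ∑ l, (A j l : K) * u l
        map_add' := by
          intro u v
          ext j
          simp [mul_add, Finset.sum_add_distrib]
        map_smul' := by
          intro r u
          ext j
          simp [Finset.mul_sum, mul_left_comm] }
    have h1 : Function.Injective (T.comp (LinearMap.ker M.mulVecLin).subtype) := by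
      rw [← LinearMap.ker_eq_bot, LinearMap.ker_eq_bot']
      rintro ⟨u, hu⟩ hTu
      have hu' : ∀ e, ∑ l, M e l * u l = 0 := by
        intro e
        have h2 : M.mulVecLin u = 0 := hu
        exact congrFun h2 e
      have h2 : (fun i => ∑ l, (A i l : K) * u l) = 0 := by
        apply htan
        · intro j hj
          exact congrFun hTu ⟨j, hj⟩
        · intro e
          rw [← hu' e]
          simp only [M, Matrix.of_apply, Finset.sum_mul]
          rw [Finset.sum_comm]
          refine Finset.sum_congr rfl fun t _ => ?_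
          rw [hval e t]
          simp only [mul_assoc, ← Finset.mul_sum]
          congr 2
          simp only [α, Int.cast_sum, Int.cast_mul, Finset.mul_sum, Finset.sum_mul]
          rw [Finset.sum_comm]
          refine Finset.sum_congr rfl fun l _ => Finset.sum_congr rfl fun i _ => ?_
          ring
      have h3 : u = 0 := by
        funext l
        have h4 : ∑ l', (∑ i, (B l i : K) * (A i l' : K)) * u l' = u l := by
          have h5 : ∀ l', (∑ i, (B l i : K) * (A i l' : K)) = if l = l' then 1 else 0 := by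
            intro l'
            have := congrArg (fun n : ℤ => (n : K)) (hBA l l')
            push_cast at this
            rw [this]
          simp [h5]
        have h6 : ∑ l', (∑ i, (B l i : K) * (A i l' : K)) * u l' =
            ∑ i, (B l i : K) * ∑ l', (A i l' : K) * u l' := by
          simp only [Finset.mul_sum, Finset.sum_mul]
          rw [Finset.sum_comm]
          refine Finset.sum_congr rfl fun _ _ => Finset.sum_congr rfl fun _ _ => ?_
          rw [mul_assoc]
        rw [← h4, h6]
        simp only [Pi.zero_apply]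
        refine Finset.sum_eq_zero fun i _ => ?_
        rw [congrFun h2 i]
        simp
      exact Subtype.ext h3
    have h2 := LinearMap.finrank_le_finrank_of_injective h1
    rw [finrank_fintype_fun_eq_card, Fintype.card_coe, hD] at h2
    have h3 := LinearMap.finrank_range_add_finrank_ker M.mulVecLin
    rw [finrank_fintype_fun_eq_card, Fintype.card_fin] at h3
    have h4 : M.rank = finrank K (LinearMap.range M.mulVecLin) := rfl
    omega
  obtain ⟨e, j, hdet⟩ := exists_minor M
  -- all coefficients are nonzero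
  have hne : ∀ i t, C0 (e i) t ≠ 0 := by
    intro i t h0
    apply hdet
    refine Matrix.det_eq_zero_of_row_eq_zero i fun l => ?_
    have hs := hsum' (e i)
    simp only [Matrix.submatrix_apply, M, Matrix.of_apply]
    rw [Fin.sum_univ_three] at hs ⊢
    have hC := hC0 (e i)
    fin_cases t
    · have h0' : C0 (e i) 0 = 0 := h0
      rw [h0', map_zero, zero_mul, zero_add] at hs
      have := two_term b hrel _ _ _ _ (hC 1) (hC 2) hs (j l)
      rw [h0', map_zero, zero_mul, zero_mul, zero_add]
      exact this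
    · have h0' : C0 (e i) 1 = 0 := h0
      rw [h0', map_zero, zero_mul, add_zero] at hs
      have := two_term b hrel _ _ _ _ (hC 0) (hC 2) hs (j l)
      rw [h0', map_zero, zero_mul, zero_mul, add_zero]
      exact this
    · have h0' : C0 (e i) 2 = 0 := h0
      rw [h0', map_zero, zero_mul, add_zero] at hs
      have := two_term b hrel _ _ _ _ (hC 0) (hC 1) hs (j l)
      rw [h0', map_zero, zero_mul, zero_mul, add_zero]
      exact this
  have hzacl : ∀ (T : Set K), (∀ l, (b l : K) ∈ acl F T) → ∀ i, (z i : K) ∈ acl F T := by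
    intro T hT i
    have h1 : (z i : K) = algebraMap F K (ζF i) * ∏ l, (b l : K) ^ A i l := by
      rw [hz i, ← hζF' i]
      simp
    rw [h1]
    exact acl_mul (acl_algebraMap _ _) (acl_prod _ _ fun l _ => acl_zpow (hT l) _)
  have hbacl : ∀ l, (b l : K) ∈ acl F (range (fun j : J => (z j : K))) := by
    intro l
    have h1 : (b l : K) = ∏ i, (z i : K) ^ B l i := by
      rw [hb l]
      simp
    rw [h1]
    exact acl_prod _ _ fun i _ => acl_zpow (hJ' i) _
  obtain ⟨J', hJ'1, hJ'2, -⟩ := exists_maxIndep F (fun l => (b l : K))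
  have hJ'card : J'.card = D := by
    refine le_antisymm ?_ ?_
    · have := card_le_of_acl (fun l : J' => (b l : K)) (fun j : J => (z j : K)) hJ'1
        (fun l => hbacl l)
      simpa [hD] using this
    · have := card_le_of_acl (fun j : J => (z j : K)) (fun l : J' => (b l : K)) hJ
        (fun i => hzacl _ hJ'2 i)
      simpa [hD] using this
  refine ⟨R, b, M.rank, fun i t => Units.mk0 (C0 (e i) t) (hne i t), fun i t => α (e i) t, j, hrel,
    ?_, ?_, hrank, ?_, ⟨J', hJ'card, hJ'1, hJ'2⟩, ?_⟩
  · intro i t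
    obtain ⟨N, hN, hN'⟩ := (hC0 (e i) t).resolve_left (hne i t)
    exact ⟨N, hN, Units.ext (by simpa using hN')⟩
  · intro i
    exact hsum' (e i)
  · exact hdet
  · refine hstar.basis b B hb hrel ?_
    rw [Fintype.card_fin]
    exact hcard

end

end CIT8
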