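import Mathlib

set_option autoImplicit false

/-!
Specialisation of a point of a variety over an algebraically closed field `F` of characteristic
zero, with prescribed transcendental coordinates going to roots of unity.
-/

namespace CIT8

open MvPolynomial

/-- The roots of unity of an algebraically closed field of characteristic zero. -/
lemma infinite_roots (F : Type) [Field F] [IsAlgClosed F] [CharZero F] :
    {x : F | ∃ N : ℕ, 0 < N ∧ x ^ N = 1}.Infinite := by
  classical
  intro hfin
  obtain ⟨C, hC⟩ : ∃ C, C = hfin.toFinset.card := ⟨_, rfl⟩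
  have : NeZero ((C + 1 : ℕ) : F) := ⟨by exact_mod_cast Nat.succ_ne_zero C⟩
  have : NeZero (C + 1) := ⟨Nat.succ_ne_zero C⟩
  obtain ⟨ζ, hζ⟩ := HasEnoughRootsOfUnity.exists_primitiveRoot F (C + 1)
  have h1 : (Finset.range (C + 1)).image (fun i => ζ ^ i) ⊆ hfin.toFinset := by
    intro x hx
    rw [Finset.mem_image] at hx
    obtain ⟨i, -, rfl⟩ := hx
    rw [Set.Finite.mem_toFinset]
    refine ⟨C + 1, Nat.succ_pos C, ?_⟩
    rw [← pow_mul, mul_comm, pow_mul, hζ.pow_eq_one, one_pow]
  have h2 := Finset.card_le_card h1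
  rw [Finset.card_image_of_injOn, Finset.card_range] at h2
  · omega
  · intro i hi j hj hij
    exact hζ.pow_inj (by simpa using hi) (by simpa using hj) hij

/-- An algebra homomorphism from a subring `B` to an algebraically closed field `F ⊆ B` extends
to the integral closure of `B`. -/
lemma exists_extension {F B A : Type} [Field F] [IsAlgClosed F] [CommRing B] [CommRing A]
    [Algebra F B] [Algebra B A] [Algebra.IsIntegral B A]
    (hinj : Function.Injective (algebraMap B A)) (e : B →ₐ[F] F) :
    ∃ ψ : A →+* F, ∀ b, ψ (algebraMap B A b) = e b := by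
  have hmax : (RingHom.ker (e : B →+* F)).IsMaximal := by
    refine RingHom.ker_isMaximal_of_surjective _ ?_
    intro x
    exact ⟨algebraMap F B x, by simp⟩
  obtain ⟨q, hq, hq'⟩ := Ideal.exists_ideal_over_maximal_of_isIntegral (S := A)
    (RingHom.ker (e : B →+* F)) (by
      rw [(RingHom.injective_iff_ker_eq_bot _).mp hinj]
      exact bot_le)
  let _ : Field (A ⧸ q) := Ideal.Quotient.field q
  let f : F →+* A ⧸ q := (Ideal.Quotient.mk q).comp ((algebraMap B A).comp (algebraMap F B))
  let _ : Algebra F (A ⧸ q) := f.toAlgebra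
  have hB : ∀ b, Ideal.Quotient.mk q (algebraMap B A b) = f (e b) := by
    intro b
    have h1 : b - algebraMap F B (e b) ∈ RingHom.ker (e : B →+* F) := by
      rw [RingHom.mem_ker]
      simp
    rw [← hq', Ideal.mem_comap, map_sub] at h1
    exact Ideal.Quotient.eq.mpr h1
  have hint : Algebra.IsIntegral F (A ⧸ q) := by
    constructor
    intro x
    obtain ⟨a, rfl⟩ := Ideal.Quotient.mk_surjective x
    obtain ⟨p, hp, hp'⟩ := Algebra.IsIntegral.isIntegral (R := B) a
    refine ⟨p.map (e : B →+* F), hp.map _, ?_⟩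
    rw [Polynomial.eval₂_map]
    have h1 : (algebraMap F (A ⧸ q)).comp (e : B →+* F) =
        (Ideal.Quotient.mk q).comp (algebraMap B A) := by
      ext b
      exact (hB b).symm
    rw [h1, ← Polynomial.hom_eval₂, hp', map_zero]
  have hbij := IsAlgClosed.algebraMap_bijective_of_isIntegral (k := F) (K := A ⧸ q)
  let E : F ≃+* A ⧸ q := RingEquiv.ofBijective (algebraMap F (A ⧸ q)) hbij
  refine ⟨(E.symm : A ⧸ q →+* F).comp (Ideal.Quotient.mk q), fun b => ?_⟩
  change E.symm (Ideal.Quotient.mk q (algebraMap B A b)) = e b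
  rw [hB]
  exact E.symm_apply_apply (e b)

/-- Specialisation with prescribed transcendental coordinates going to roots of unity. -/
theorem exists_torsion_specialization {F L : Type} [Field F] [IsAlgClosed F] [CharZero F]
    [Field L] [Algebra F L] {ι : Type} [Finite ι] (z : ι → L) (J : Set ι)
    (hJ : AlgebraicIndependent F (fun j : J => z j)) (G : MvPolynomial ι F) (hG : aeval z G ≠ 0) :
    ∃ w : ι → F, (∀ H : MvPolynomial ι F, aeval z H = 0 → aeval w H = 0) ∧ aeval w G ≠ 0 ∧
      ∀ j ∈ J, ∃ N : ℕ, 0 < N ∧ w j ^ N = 1 := by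
  classical
  have hfin := Fintype.ofFinite ι
  obtain ⟨J', hJJ', hJ'⟩ := Finite.exists_le_maximal
    (p := fun S : Set ι => AlgebraicIndependent F (fun j : S => z j)) hJ
  have hJ'1 : AlgebraicIndependent F (fun j : J' => z j) := hJ'.1
  let x : J' → L := fun j => z j
  let B := Algebra.adjoin F (Set.range x)
  have halg : ∀ i, IsAlgebraic B (z i) := by
    intro i
    by_cases hi : i ∈ J'
    · exact isAlgebraic_algebraMap (⟨z i, Algebra.subset_adjoin ⟨⟨i, hi⟩, rfl⟩⟩ : B)
    · by_contra hcon
      have h0 : Set.range x = z '' J' := by rw [Set.image_eq_range]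
      have h1 : AlgebraicIndepOn F z (insert i J') := by
        refine AlgebraicIndepOn.insert (s := J') hJ'1 ?_
        rw [← h0]
        exact hcon
      have h2 := hJ'.2 (y := insert i J') h1 (Set.subset_insert _ _)
      exact hi (h2 (Set.mem_insert i J'))
  have halg' : ∀ H : MvPolynomial ι F, IsAlgebraic B (aeval z H) := by
    intro H
    induction H using MvPolynomial.induction_on with
    | C a =>
      rw [aeval_C]
      exact isAlgebraic_algebraMap (R := B) (A := L) (algebraMap F B a)
    | add p q hp hq => rw [map_add]; exact hp.add hq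
    | mul_X p i hp => rw [map_mul, aeval_X]; exact hp.mul (halg i)
  -- integral multiples
  choose y hy0 hy using fun i => (halg i).exists_integral_multiple
  obtain ⟨yG, hyG0, hyG⟩ := (halg' G).inv.exists_integral_multiple
  let Y : B := yG * ∏ i, y i
  have hY0 : Y ≠ 0 := mul_ne_zero hyG0 (Finset.prod_ne_zero_iff.mpr fun i _ => hy0 i)
  have hYz : ∀ i, IsIntegral B (Y • z i) := by
    intro i
    have h1 : Y = (yG * ∏ k ∈ Finset.univ.erase i, y k) * y i := by
      rw [mul_assoc, Finset.prod_erase_mul _ _ (Finset.mem_univ i)]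
    rw [h1, mul_smul]
    exact (hy i).smul _
  have hYG : IsIntegral B (Y • (aeval z G)⁻¹) := by
    have h1 : Y = (∏ i, y i) * yG := mul_comm _ _
    rw [h1, mul_smul]
    exact hyG.smul _
  -- the torsion point
  let E := hJ'1.aevalEquiv
  have hEx : ∀ j : J', E (X j) = ⟨z j, Algebra.subset_adjoin ⟨j, rfl⟩⟩ := by
    intro j
    apply Subtype.ext
    rw [AlgebraicIndependent.aevalEquiv_apply_coe, aeval_X]
  obtain ⟨τ, hτ, hτ'⟩ : ∃ τ : J' → F, (∀ j, ∃ N : ℕ, 0 < N ∧ τ j ^ N = 1) ∧
      eval τ (E.symm Y) ≠ 0 := by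
    by_contra hcon
    push Not at hcon
    have h1 : E.symm Y = 0 := by
      refine funext_set (fun _ => {x : F | ∃ N : ℕ, 0 < N ∧ x ^ N = 1})
        (fun _ => infinite_roots F) ?_
      intro τ hτ
      rw [map_zero]
      exact hcon τ (fun j => hτ j (Set.mem_univ j))
    apply hY0
    rw [← E.apply_symm_apply Y, h1, map_zero]
  let e : B →ₐ[F] F := (aeval τ).comp (E.symm : B →ₐ[F] MvPolynomial J' F)
  have heY : e Y ≠ 0 := hτ'
  have hez : ∀ j : J', e ⟨z j, Algebra.subset_adjoin ⟨j, rfl⟩⟩ = τ j := by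
    intro j
    rw [← hEx j]
    change aeval τ (E.symm (E (X j))) = τ j
    rw [E.symm_apply_apply, aeval_X]
  let A := integralClosure B L
  obtain ⟨ψ, hψ⟩ := exists_extension (F := F) (B := B) (A := A)
    (FaithfulSMul.algebraMap_injective B A) e
  let u : ι → A := fun i => ⟨Y • z i, hYz i⟩
  let YA : A := algebraMap B A Y
  have hYA : ψ YA = e Y := hψ Y
  let w : ι → F := fun i => ψ (u i) / e Y
  have key : ∀ H : MvPolynomial ι F, ∃ (N : ℕ) (a : A), (a : L) = (Y : L) ^ N * aeval z H ∧
      ψ a = e Y ^ N * aeval w H := by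
    intro H
    induction H using MvPolynomial.induction_on with
    | C a =>
      refine ⟨0, algebraMap B A (algebraMap F B a), ?_, ?_⟩
      · rw [pow_zero, one_mul, aeval_C]; rfl
      · rw [pow_zero, one_mul, aeval_C, hψ, AlgHom.commutes]
    | add p q hp hq =>
      obtain ⟨N, a, ha, ha'⟩ := hp
      obtain ⟨M, b, hb, hb'⟩ := hq
      refine ⟨N + M, YA ^ M * a + YA ^ N * b, ?_, ?_⟩
      · have h1 : ((YA : A) : L) = (Y : L) := rfl
        push_cast
        rw [h1, ha, hb, map_add]
        ring
      · rw [map_add, map_mul, map_mul, map_pow, map_pow, hYA, ha', hb', map_add]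
        ring
    | mul_X p i hp =>
      obtain ⟨N, a, ha, ha'⟩ := hp
      refine ⟨N + 1, a * u i, ?_, ?_⟩
      · have h1 : ((u i : A) : L) = (Y : L) * z i := rfl
        push_cast
        rw [h1, ha, map_mul, aeval_X]
        ring
      · have h2 : aeval w (p * X i) = aeval w p * (ψ (u i) / e Y) := by rw [map_mul, aeval_X]
        rw [map_mul, ha', h2, pow_succ]
        field_simp
  refine ⟨w, ?_, ?_, ?_⟩
  · intro H hH
    obtain ⟨N, a, ha, ha'⟩ := key H
    rw [hH, mul_zero] at ha
    have h1 : a = 0 := Subtype.ext ha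
    rw [h1, map_zero] at ha'
    rcases mul_eq_zero.mp ha'.symm with h | h
    · exact absurd h (pow_ne_zero _ heY)
    · exact h
  · obtain ⟨N, a, ha, ha'⟩ := key G
    intro h0
    rw [h0, mul_zero] at ha'
    let b : A := ⟨Y • (aeval z G)⁻¹, hYG⟩
    have h1 : a * b = YA ^ (N + 1) := by
      apply Subtype.ext
      have h2 : ((b : A) : L) = (Y : L) * (aeval z G)⁻¹ := rfl
      have h3 : ((YA : A) : L) = (Y : L) := rfl
      push_cast
      rw [h2, h3, ha, pow_succ]
      field_simp
    have h2 := congrArg ψ h1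
    rw [map_mul, ha', zero_mul, map_pow, hYA] at h2
    exact pow_ne_zero _ heY h2.symm
  · intro j hj
    obtain ⟨N, hN, hN'⟩ := hτ ⟨j, hJJ' hj⟩
    refine ⟨N, hN, ?_⟩
    have h1 : u j = algebraMap B A (Y * ⟨z j, Algebra.subset_adjoin ⟨⟨j, hJJ' hj⟩, rfl⟩⟩) := by
      apply Subtype.ext
      rfl
    have h2 : w j = τ ⟨j, hJJ' hj⟩ := by
      change ψ (u j) / e Y = _
      rw [h1, hψ, map_mul, hez ⟨j, hJJ' hj⟩]
      field_simp
    rw [h2, hN']

end CIT8
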