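import Mathlib
import Pool.Agent.Lib.MP_c95b3b_ag_h60.Alg
import Pool.Agent.Lib.MP_c95b3b_ag_h8.Star
import Pool.Agent.Lib.MP_c95b3b_ag_h8.Spec
import Pool.Agent.Lib.MP_c95b3b_ag_h8.Indep

set_option autoImplicit false

/-!
Elimination of transcendental coefficients: a counterexample to Zilber's conjecture over the
complex numbers gives a family of units with property `Star` over an algebraically closed
subfield `F`.
-/

namespace CIT8

open Set MvPolynomial Module

lemma acl_transfer {F F' A A' : Type} [Field F] [Field F'] [CommRing A] [CommRing A'] [Algebra F A]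
    [Algebra F' A'] {S : Set A} {S' : Set A'} (f : F →+* F') (g : A →+* A')
    (hg : Function.Injective g) (hfg : ∀ c, g (algebraMap F A c) = algebraMap F' A' (f c))
    (hS : ∀ s ∈ S, g s ∈ S') {a : A} (ha : a ∈ acl F S) : g a ∈ acl F' S' := by
  have h1 : ∀ x ∈ Algebra.adjoin F S, g x ∈ Algebra.adjoin F' S' := by
    intro x hx
    induction hx using Algebra.adjoin_induction with
    | mem x hx => exact Algebra.subset_adjoin (hS x hx)
    | algebraMap c => rw [hfg]; exact Subalgebra.algebraMap_mem _ _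
    | add x y _ _ hx hy => rw [map_add]; exact add_mem hx hy
    | mul x y _ _ hx hy => rw [map_mul]; exact mul_mem hx hy
  let f' : Algebra.adjoin F S →+* Algebra.adjoin F' S' :=
    (g.comp (algebraMap (Algebra.adjoin F S) A)).codRestrict (Algebra.adjoin F' S')
      (fun x => h1 x x.2)
  refine IsAlgebraic.ringHom_of_comp_eq f' g ha ?_ ?_
  · intro x y hxy
    apply Subtype.ext
    apply hg
    exact congrArg Subtype.val hxy
  · ext x
    rfl

section

variable {F : Type} [Field F] {L : Type} [Field L] [Algebra F L] {ι : Type} [Fintype ι]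

lemma binom_eq_zero {a : ι → ℤ} (h : binom F a = 0) : a = 0 := by
  classical
  have h1 : ∀ e : ι → ℕ, (∏ i, (X i : MvPolynomial ι F) ^ e i) =
      monomial (Finsupp.equivFunOnFinite.symm e) 1 := by
    intro e
    rw [monomial_eq, Finsupp.prod_fintype _ _ (fun i => pow_zero _)]
    simp
  rw [binom, sub_eq_zero, h1, h1] at h
  have h2 := monomial_left_injective (R := F) one_ne_zero h
  have h3 := Finsupp.equivFunOnFinite.symm.injective h2
  funext i
  have h4 := congrFun h3 i
  simp only [Pi.zero_apply]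
  omega

lemma rel_eq_bot_of_independent {z : ι → Lˣ}
    (h : AlgebraicIndependent F (fun i => (z i : L))) : rel z = ⊥ := by
  rw [Submodule.eq_bot_iff]
  intro a ha
  rw [← aeval_binom (F := F)] at ha
  refine binom_eq_zero (F := F) ?_
  exact (algebraicIndependent_iff.mp h) _ ha

/-- Specialising independent coordinates to roots of unity increases the rank of the relations. -/
lemma finrank_torsion {z : ι → Lˣ} {w : ι → Fˣ} (hzw : Spc F z w) (J : Finset ι)
    (hJ : AlgebraicIndependent F (fun j : J => (z j : L)))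
    (hw : ∀ j ∈ J, ∃ N : ℕ, 0 < N ∧ w j ^ N = 1) :
    finrank ℤ (rel z) + J.card ≤ finrank ℤ (rel w) := by
  classical
  choose! N hN hN' using hw
  let M : ℕ := ∏ j ∈ J, N j
  have hM : M ≠ 0 := Finset.prod_ne_zero_iff.mpr fun j hj => (hN j hj).ne'
  have hwM : ∀ j ∈ J, w j ^ M = 1 := by
    intro j hj
    have h1 : M = N j * ∏ k ∈ J.erase j, N k := (Finset.mul_prod_erase J N hj).symm
    rw [h1, pow_mul, hN' j hj, one_pow]
  let f : (J → ℤ) →ₗ[ℤ] (ι → ℤ) :=
    { toFun := fun a i => if h : i ∈ J then (M : ℤ) * a ⟨i, h⟩ else 0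
      map_add' := by
        intro a b
        ext i
        by_cases h : i ∈ J <;> simp [h, mul_add]
      map_smul' := by
        intro c a
        ext i
        by_cases h : i ∈ J <;> simp [h, mul_left_comm] }
  have hf : ∀ (a : J → ℤ) (E : Type) [Field E] (v : ι → Eˣ),
      ∏ i, v i ^ f a i = ∏ j : J, v j ^ ((M : ℤ) * a j) := by
    intro a E _ v
    have h1 : ∏ i, v i ^ f a i = ∏ i ∈ J, v i ^ f a i := by
      refine (Finset.prod_subset (Finset.subset_univ J) ?_).symm
      intro i _ hi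
      simp [f, hi]
    rw [h1, ← Finset.prod_coe_sort J (fun i => v i ^ f a i)]
    refine Finset.prod_congr rfl fun j _ => ?_
    simp [f]
  have hinj : Function.Injective f := by
    intro a b hab
    ext j
    have h1 := congrFun hab j
    simp only [f, LinearMap.coe_mk, AddHom.coe_mk, Finset.coe_mem, dite_true] at h1
    exact mul_left_cancel₀ (by exact_mod_cast hM) h1
  have hrank : finrank ℤ (LinearMap.range f) = J.card := by
    rw [LinearMap.finrank_range_of_inj hinj, finrank_fintype_fun_eq_card, Fintype.card_coe]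
  rw [← hrank]
  refine finrank_add_le hzw.rel_le ?_ ?_
  · rintro _ ⟨a, rfl⟩
    rw [mem_rel, hf]
    refine Finset.prod_eq_one fun j _ => ?_
    rw [zpow_mul, zpow_natCast, hwM j j.2, one_zpow]
  · rw [Submodule.eq_bot_iff]
    rintro _ ⟨h1, ⟨a, rfl⟩⟩
    have h2 : f a ∈ rel z := h1
    rw [mem_rel, hf] at h2
    have h3 : (M : ℤ) • a ∈ rel (fun j : J => z j) := by
      rw [mem_rel]
      exact h2
    rw [rel_eq_bot_of_independent (F := F) hJ, Submodule.mem_bot] at h3
    rcases smul_eq_zero.mp h3 with h4 | h4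
    · exact absurd h4 (by exact_mod_cast hM)
    · rw [h4, map_zero]

/-- Units version of the specialisation lemma. -/
lemma exists_torsion_units [IsAlgClosed F] [CharZero F] (z : ι → Lˣ) (J : Finset ι)
    (hJ : AlgebraicIndependent F (fun j : J => (z j : L))) (G : MvPolynomial ι F)
    (hG : aeval (fun i => (z i : L)) G ≠ 0) :
    ∃ w : ι → Fˣ, Spc F z w ∧ aeval (fun i => (w i : F)) G ≠ 0 ∧
      finrank ℤ (rel z) + J.card ≤ finrank ℤ (rel w) := by
  classical
  obtain ⟨w, hw, hwG, hwJ⟩ := exists_torsion_specialization (fun i => (z i : L)) (J : Set ι) hJ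
    (G * ∏ i, X i) (by
      rw [map_mul, map_prod]
      refine mul_ne_zero hG (Finset.prod_ne_zero_iff.mpr fun i _ => ?_)
      rw [aeval_X]
      exact (z i).ne_zero)
  rw [map_mul, map_prod] at hwG
  have hw0 : ∀ i, w i ≠ 0 := by
    intro i
    have h1 := Finset.prod_ne_zero_iff.mp (right_ne_zero_of_mul hwG) i (Finset.mem_univ i)
    rwa [aeval_X] at h1
  have hsp : Spc F z (fun i => Units.mk0 (w i) (hw0 i)) := hw
  refine ⟨fun i => Units.mk0 (w i) (hw0 i), hsp, left_ne_zero_of_mul hwG, ?_⟩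
  refine finrank_torsion hsp J hJ ?_
  intro j hj
  obtain ⟨N, hN, hN'⟩ := hwJ j hj
  exact ⟨N, hN, Units.ext (by simpa using hN')⟩

lemma Star.mono {K : Type} [Field K] [Algebra F K] {z : ι → Kˣ} {D D' : ℕ} (h : Star F z D)
    (hD : D' ≤ D) : Star F z D' := by
  intro G hG
  obtain ⟨w, h1, h2, h3⟩ := h G hG
  exact ⟨w, h1, h2, by omega⟩

end

/-- The density hypothesis gives points of the special set outside any hypersurface. -/
lemma exists_point (n : ℕ) (P : Ideal (MvPolynomial (Fin n) ℂ)) (hP : P.IsPrime)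
    (hX : (∏ i : Fin n, (MvPolynomial.X i : MvPolynomial (Fin n) ℂ)) ∉ P)
    (hU : ∀ f : MvPolynomial (Fin n) ℂ,
      (∀ x : Fin n → ℂ, (∀ i, x i ≠ 0) → (∀ g ∈ P, MvPolynomial.eval x g = 0) →
        (∃ Λ : Submodule ℤ (Fin n → ℤ),
          ringKrullDim (MvPolynomial (Fin n) ℂ ⧸ P)
              + ((n - Module.finrank ℤ Λ : ℕ) : WithBot ℕ∞) + 1 ≤ (n : WithBot ℕ∞) ∧
          ∀ a ∈ Λ, ∏ i : Fin n, x i ^ a i = 1) →
        MvPolynomial.eval x f = 0) →
      ∀ x : Fin n → ℂ, (∀ i, x i ≠ 0) → (∀ g ∈ P, MvPolynomial.eval x g = 0) →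
        MvPolynomial.eval x f = 0) (G : MvPolynomial (Fin n) ℂ) (hG : G ∉ P) :
    ∃ y : Fin n → ℂˣ, (∀ g ∈ P, MvPolynomial.eval (fun i => (y i : ℂ)) g = 0) ∧
      MvPolynomial.eval (fun i => (y i : ℂ)) G ≠ 0 ∧
      ringKrullDim (MvPolynomial (Fin n) ℂ ⧸ P)
              + ((n - Module.finrank ℤ (rel y) : ℕ) : WithBot ℕ∞) + 1 ≤ (n : WithBot ℕ∞) := by
  by_contra hcon
  push Not at hcon
  have hF := hU G (by
    intro x hx hxP ⟨Λ, hΛ, hΛ'⟩
    by_contra hxG
    refine not_le_of_gt (hcon (fun i => Units.mk0 (x i) (hx i)) hxP hxG) (le_trans ?_ hΛ)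
    have h1 : Λ ≤ rel (fun i => Units.mk0 (x i) (hx i)) := by
      intro a ha
      rw [mem_rel]
      apply Units.ext
      simpa using hΛ' a ha
    have h2 := finrank_mono h1
    gcongr
    )
  have hFP : G * ∏ i : Fin n, (X i : MvPolynomial (Fin n) ℂ) ∈ P := by
    have h1 : G * ∏ i : Fin n, (X i : MvPolynomial (Fin n) ℂ) ∈
        vanishingIdeal ℂ (zeroLocus ℂ P) := by
      rw [mem_vanishingIdeal_iff]
      intro x hx
      rw [mem_zeroLocus_iff] at hx
      simp only [aeval_eq_eval] at hx ⊢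
      by_cases h0 : ∀ i, x i ≠ 0
      · change eval x _ = 0
        rw [map_mul, hF x h0 (fun g hg => hx g hg), zero_mul]
      · push Not at h0
        obtain ⟨i, hi⟩ := h0
        change eval x _ = 0
        rw [map_mul, map_prod, Finset.prod_eq_zero (Finset.mem_univ i) (by rw [eval_X, hi]),
          mul_zero]
    rw [vanishingIdeal_zeroLocus_eq_radical, hP.radical] at h1
    exact h1
  rcases hP.mem_or_mem hFP with h | h
  · exact hG h
  · exact hX h

theorem stepA (F : Type) [Field F] [IsAlgClosed F] [CharZero F] [Algebra F ℂ]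
    (n : ℕ) (P : Ideal (MvPolynomial (Fin n) ℂ)) (hP : P.IsPrime)
    (hX : (∏ i : Fin n, (MvPolynomial.X i : MvPolynomial (Fin n) ℂ)) ∉ P)
    (hU : ∀ f : MvPolynomial (Fin n) ℂ,
      (∀ x : Fin n → ℂ, (∀ i, x i ≠ 0) → (∀ g ∈ P, MvPolynomial.eval x g = 0) →
        (∃ Λ : Submodule ℤ (Fin n → ℤ),
          ringKrullDim (MvPolynomial (Fin n) ℂ ⧸ P)
              + ((n - Module.finrank ℤ Λ : ℕ) : WithBot ℕ∞) + 1 ≤ (n : WithBot ℕ∞) ∧
          ∀ a ∈ Λ, ∏ i : Fin n, x i ^ a i = 1) →
        MvPolynomial.eval x f = 0) →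
      ∀ x : Fin n → ℂ, (∀ i, x i ≠ 0) → (∀ g ∈ P, MvPolynomial.eval x g = 0) →
        MvPolynomial.eval x f = 0)
    (hne : ¬ ∃ a : Fin n → ℤ, a ≠ 0 ∧
      ∀ x : Fin n → ℂ, (∀ i, x i ≠ 0) → (∀ g ∈ P, MvPolynomial.eval x g = 0) →
        ∏ i : Fin n, x i ^ a i = 1) :
    ∃ (K : Type) (_ : Field K) (_ : Algebra F K) (ι : Type) (_ : Fintype ι) (z : ι → Kˣ)
      (J : Finset ι), AlgebraicIndependent F (fun j : J => (z j : K)) ∧
      (∀ i, (z i : K) ∈ acl F (range (fun j : J => (z j : K)))) ∧ Star F z J.card := by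
  classical
  let R := MvPolynomial (Fin n) ℂ ⧸ P
  have : IsDomain R := Ideal.Quotient.isDomain P
  let K := FractionRing R
  have hRK : Function.Injective (algebraMap R K) := IsFractionRing.injective R K
  have : FaithfulSMul ℂ R :=
    (faithfulSMul_iff_algebraMap_injective ℂ R).mpr (algebraMap ℂ R).injective
  let x : Fin n → R := fun i => Ideal.Quotient.mk P (X i)
  have hx0 : ∀ i, algebraMap R K (x i) ≠ 0 := by
    intro i h
    rw [map_eq_zero_iff _ hRK] at h
    apply hX
    rw [← Finset.mul_prod_erase _ _ (Finset.mem_univ i)]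
    exact P.mul_mem_right _ (Ideal.Quotient.eq_zero_iff_mem.mp h)
  let xK : Fin n → Kˣ := fun i => Units.mk0 _ (hx0 i)
  -- transcendence basis over ℂ
  obtain ⟨I, hI, hIacl, -⟩ := exists_maxIndep ℂ x
  have hdim : ((I.card : ℕ) : WithBot ℕ∞) ≤ ringKrullDim R := by
    have h1 := CIT85.card_le_ringKrullDim (k := ℂ) (R := R) (fun i : I => x i) hI
    rwa [Fintype.card_coe] at h1
  -- finitely many coefficients
  have hCi : ∀ i, ∃ C : Set ℂ, C.Finite ∧
      x i ∈ acl ℚ (algebraMap ℂ R '' C ∪ range (fun j : I => x j)) :=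
    fun i => CIT60.exists_finite_coeff _ _ (hIacl i)
  choose Ci hCif hCi using hCi
  let C : Set ℂ := (⋃ i, Ci i) \ {0}
  have hCfin : C.Finite := (finite_iUnion hCif).sdiff
  let κ : Type := C
  have : Fintype κ := hCfin.fintype
  let c : κ → ℂˣ := fun k => Units.mk0 (k : ℂ) (fun h => k.2.2 h)
  obtain ⟨E, hE, hEacl, -⟩ := exists_maxIndep F (fun k : κ => (c k : ℂ))
  let cK : κ → Kˣ := fun k => Units.map (algebraMap ℂ K : ℂ →* K) (c k)
  let z : Fin n ⊕ κ → Kˣ := Sum.elim xK cK
  have hFK : ∀ a : F, algebraMap ℂ K (algebraMap F ℂ a) = algebraMap F K a := fun a =>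
    (IsScalarTower.algebraMap_apply F ℂ K a).symm
  obtain ⟨J, hJ, hJacl, -⟩ := exists_maxIndep F (fun i => (z i : K))
  -- the transcendence degree over `F`
  have hcard : J.card ≤ I.card + E.card := by
    let y : I ⊕ E → K := Sum.elim (fun i => algebraMap R K (x i)) (fun k => algebraMap ℂ K (c k))
    have hc : ∀ k : κ, algebraMap ℂ K (c k) ∈ acl F (range y) := by
      intro k
      have h1 := acl_transfer (RingHom.id F) (algebraMap ℂ K) (algebraMap ℂ K).injective
        (S' := range y) (fun a => hFK a) (by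
          rintro _ ⟨k, rfl⟩
          exact ⟨Sum.inr k, rfl⟩) (hEacl k)
      exact h1
    have hxa : ∀ i, algebraMap R K (x i) ∈ acl F (range y) := by
      intro i
      have h1 := acl_transfer (F' := F) (A' := K) (algebraMap ℚ F) (algebraMap R K) hRK
        (S' := algebraMap R K '' (algebraMap ℂ R '' (Ci i) ∪ range (fun j : I => x j)))
        (fun a => by
          rw [← IsScalarTower.algebraMap_apply ℚ R K, ← IsScalarTower.algebraMap_apply ℚ F K])
        (fun s hs => ⟨s, hs, rfl⟩) (hCi i)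
      refine acl_idem ?_ h1
      rintro _ ⟨s, (⟨a, ha, rfl⟩ | ⟨j, rfl⟩), rfl⟩
      · by_cases h0 : a = 0
        · rw [h0, map_zero, map_zero]
          have := acl_algebraMap (F := F) (range y) 0
          rwa [map_zero] at this
        · exact hc ⟨a, mem_iUnion.mpr ⟨i, ha⟩, h0⟩
      · exact subset_acl _ ⟨Sum.inl j, rfl⟩
    have h1 := card_le_of_acl (fun j : J => (z j : K)) y hJ (by
      rintro ⟨(i | k), hj⟩
      · exact hxa i
      · exact hc k)
    simpa using h1
  refine ⟨K, inferInstance, inferInstance, Fin n ⊕ κ, inferInstance, z, J, hJ, hJacl, ?_⟩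
  refine Star.mono (D := I.card + E.card) ?_ hcard
  intro G hG
  -- the polynomial over ℂ
  let θ : MvPolynomial (Fin n ⊕ κ) F →ₐ[F] MvPolynomial (Fin n) ℂ :=
    aeval (Sum.elim X (fun k => MvPolynomial.C (c k : ℂ)))
  have hθK : ∀ H : MvPolynomial (Fin n ⊕ κ) F, aeval (fun i => (z i : K)) H =
      algebraMap R K (Ideal.Quotient.mk P (θ H)) := by
    intro H
    have h1 : (aeval (fun i => (z i : K)) : MvPolynomial (Fin n ⊕ κ) F →ₐ[F] K) =
        ((IsScalarTower.toAlgHom F R K).comp (Ideal.Quotient.mkₐ F P)).comp θ := by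
      apply MvPolynomial.algHom_ext
      rintro (i | k)
      · simp only [aeval_X, AlgHom.comp_apply, θ, Sum.elim_inl]
        rfl
      · simp only [aeval_X, AlgHom.comp_apply, θ, Sum.elim_inr]
        rfl
    exact DFunLike.congr_fun h1 H
  have hθ0 : ∀ H : MvPolynomial (Fin n ⊕ κ) F, aeval (fun i => (z i : K)) H = 0 ↔ θ H ∈ P := by
    intro H
    rw [hθK, map_eq_zero_iff _ hRK, Ideal.Quotient.eq_zero_iff_mem]
  obtain ⟨y, hyP, hyG, hyrank⟩ := exists_point n P hP hX hU (θ G) (fun h => hG ((hθ0 G).mpr h))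
  have hIy : I.card + 1 ≤ finrank ℤ (rel y) := by
    have h1 : ((I.card : ℕ) : WithBot ℕ∞) + ((n - finrank ℤ (rel y) : ℕ) : WithBot ℕ∞) + 1 ≤
        (n : WithBot ℕ∞) := by
      refine le_trans ?_ hyrank
      gcongr
    have h3 : I.card + (n - finrank ℤ (rel y)) + 1 ≤ n := by exact_mod_cast h1
    omega
  let z' : Fin n ⊕ κ → ℂˣ := Sum.elim y c
  have hθC : ∀ H : MvPolynomial (Fin n ⊕ κ) F, aeval (fun i => (z' i : ℂ)) H =
      eval (fun i => (y i : ℂ)) (θ H) := by
    intro H
    have h1 : (aeval (fun i => (z' i : ℂ)) : MvPolynomial (Fin n ⊕ κ) F →ₐ[F] ℂ) =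
        ((aeval (fun i => (y i : ℂ)) : MvPolynomial (Fin n) ℂ →ₐ[ℂ] ℂ).restrictScalars F).comp
          θ := by
      apply MvPolynomial.algHom_ext
      rintro (i | k)
      · simp only [aeval_X, AlgHom.comp_apply, θ, Sum.elim_inl]
        simp [z']
      · simp only [aeval_X, AlgHom.comp_apply, θ, Sum.elim_inr]
        simp [z']
    have h2 := DFunLike.congr_fun h1 H
    rw [h2]
    rw [← aeval_eq_eval]
    rfl
  have hspc : Spc F z z' := by
    intro H hH
    rw [hθC]
    exact hyP _ ((hθ0 H).mp hH)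
  -- the rank of the relations of `z'`
  have hrelx : rel xK = ⊥ := by
    rw [Submodule.eq_bot_iff]
    intro a ha
    by_contra ha0
    apply hne
    refine ⟨a, ha0, fun v hv hvP => ?_⟩
    rw [← aeval_binom (F := ℂ)] at ha
    have h1 : (binom ℂ a : MvPolynomial (Fin n) ℂ) ∈ P := by
      have h2 : (aeval (fun i => (xK i : K)) : MvPolynomial (Fin n) ℂ →ₐ[ℂ] K) =
          (IsScalarTower.toAlgHom ℂ R K).comp (Ideal.Quotient.mkₐ ℂ P) := by
        apply MvPolynomial.algHom_ext
        intro i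
        simp only [aeval_X, AlgHom.comp_apply]
        rfl
      rw [h2] at ha
      change algebraMap R K (Ideal.Quotient.mk P (binom ℂ a)) = 0 at ha
      rwa [map_eq_zero_iff _ hRK, Ideal.Quotient.eq_zero_iff_mem] at ha
    have h3 := hvP _ h1
    have h4 := (aeval_binom (F := ℂ) (fun i => Units.mk0 (v i) (hv i)) a).mp (by
      rw [← aeval_eq_eval] at h3
      exact h3)
    rw [mem_rel] at h4
    have h5 := congrArg (fun u : ℂˣ => (u : ℂ)) h4
    simpa using h5
  have hrank : finrank ℤ (rel z) + finrank ℤ (rel y) ≤ finrank ℤ (rel z') := by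
    rw [← finrank_map_eq (ext0_injective (ι := Fin n) (κ := κ)) (rel y)]
    refine finrank_add_le hspc.rel_le ?_ ?_
    · rw [← rel_elim_inf y c]
      exact inf_le_left
    · rw [eq_bot_iff]
      calc rel z ⊓ (rel y).map (ext0 (Fin n) κ) ≤ rel z ⊓ LinearMap.range (ext0 (Fin n) κ) :=
            inf_le_inf_left _ (LinearMap.map_le_range)
        _ = (rel xK).map (ext0 (Fin n) κ) := rel_elim_inf xK cK
        _ = ⊥ := by rw [hrelx, Submodule.map_bot]
        _ ≤ ⊥ := le_rfl
  obtain ⟨w, hw, hwG, hwr⟩ := exists_torsion_units (F := F) z' (E.map ⟨Sum.inr, Sum.inr_injective⟩)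
    ((algebraicIndependent_equiv (Finset.equivMap ⟨Sum.inr, Sum.inr_injective⟩ E)).mp hE) G (by
      rw [hθC]
      exact hyG)
  refine ⟨w, hspc.trans hw, hwG, ?_⟩
  rw [Finset.card_map] at hwr
  omega

end CIT8
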