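import Mathlib
import Pool.Agent.Lib.MP_c95b3b_ag_h8.StepA

set_option autoImplicit false

/-!
From a family of units with property `Star` over `F` back to the complex numbers.
-/

namespace CIT8

open Set MvPolynomial Module

section

variable {F : Type} [Field F] [Algebra F ℂ] {σ : Type}

/-- Apply a linear functional to the coefficients of a polynomial. -/
noncomputable def phi (φ : ℂ →ₗ[F] F) (f : MvPolynomial σ ℂ) : MvPolynomial σ F :=
  ∑ m ∈ f.support, monomial m (φ (coeff m f))

lemma coeff_phi (φ : ℂ →ₗ[F] F) (f : MvPolynomial σ ℂ) (m : σ →₀ ℕ) :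
    coeff m (phi φ f) = φ (coeff m f) := by
  classical
  simp only [phi, coeff_sum, coeff_monomial]
  rw [Finset.sum_ite_eq' f.support m]
  split_ifs with h
  · rfl
  · rw [notMem_support_iff.mp h, map_zero]

lemma eval_phi (φ : ℂ →ₗ[F] F) (f : MvPolynomial σ ℂ) (w : σ → F) :
    aeval w (phi φ f) = φ (eval (fun i => algebraMap F ℂ (w i)) f) := by
  rw [eval_eq, phi, map_sum, map_sum]
  refine Finset.sum_congr rfl fun m _ => ?_
  rw [aeval_monomial]
  have h1 : coeff m f * ∏ i ∈ m.support, algebraMap F ℂ (w i) ^ m i =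
      (∏ i ∈ m.support, w i ^ m i) • coeff m f := by
    rw [Algebra.smul_def, map_prod, mul_comm]
    simp
  rw [h1, map_smul, smul_eq_mul, mul_comm, Algebra.algebraMap_self, RingHom.id_apply]
  rfl

lemma exists_phi (f : MvPolynomial σ ℂ) (hf : f ≠ 0) : ∃ φ : ℂ →ₗ[F] F, phi φ f ≠ 0 := by
  obtain ⟨m, hm⟩ := MvPolynomial.ne_zero_iff.mp hf
  obtain ⟨φ, hφ⟩ := Projective.exists_dual_ne_zero F hm
  refine ⟨φ, fun h => hφ ?_⟩
  rw [← coeff_phi, h, coeff_zero]

variable {K : Type} [Field K] [Algebra F K] {R : ℕ}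

/-- The points with coordinates in `F` of the closure of a point over `F`. -/
def Fpts (F : Type) [Field F] [Algebra F ℂ] {K : Type} [Field K] [Algebra F K] {R : ℕ}
    (b : Fin R → Kˣ) : Set (Fin R → ℂ) :=
  {x | ∃ w : Fin R → F, (∀ H : MvPolynomial (Fin R) F, aeval (fun i => (b i : K)) H = 0 →
    aeval w H = 0) ∧ x = fun i => algebraMap F ℂ (w i)}

/-- The ideal of the complex variety defined by the relations of `b` over `F`. -/
noncomputable def PI (F : Type) [Field F] [Algebra F ℂ] {K : Type} [Field K] [Algebra F K] {R : ℕ}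
    (b : Fin R → Kˣ) : Ideal (MvPolynomial (Fin R) ℂ) := vanishingIdeal ℂ (Fpts F b)

lemma mem_PI {b : Fin R → Kˣ} {f : MvPolynomial (Fin R) ℂ} : f ∈ PI F b ↔
    ∀ w : Fin R → F, (∀ H : MvPolynomial (Fin R) F, aeval (fun i => (b i : K)) H = 0 →
      aeval w H = 0) → eval (fun i => algebraMap F ℂ (w i)) f = 0 := by
  rw [PI, mem_vanishingIdeal_iff]
  constructor
  · intro h w hw
    have := h _ ⟨w, hw, rfl⟩
    rwa [aeval_eq_eval] at this
  · rintro h _ ⟨w, hw, rfl⟩
    rw [aeval_eq_eval]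
    exact h w hw

lemma exists_phi_of_notMem {b : Fin R → Kˣ} {f : MvPolynomial (Fin R) ℂ} (hf : f ∉ PI F b) :
    ∃ φ : ℂ →ₗ[F] F, aeval (fun i => (b i : K)) (phi φ f) ≠ 0 := by
  rw [mem_PI] at hf
  push Not at hf
  obtain ⟨w, hw, hwf⟩ := hf
  obtain ⟨φ, hφ⟩ := Projective.exists_dual_ne_zero F hwf
  refine ⟨φ, fun h => hφ ?_⟩
  rw [← eval_phi]
  exact hw _ h

lemma eval_ne_of_phi {f : MvPolynomial (Fin R) ℂ} {φ : ℂ →ₗ[F] F} {w : Fin R → F}
    (h : aeval w (phi φ f) ≠ 0) : eval (fun i => algebraMap F ℂ (w i)) f ≠ 0 := by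
  intro h0
  rw [eval_phi, h0, map_zero] at h
  exact h rfl

lemma map_mem_PI {b : Fin R → Kˣ} {D : ℕ} (hstar : Star F b D) (H : MvPolynomial (Fin R) F) :
    map (algebraMap F ℂ) H ∈ PI F b ↔ aeval (fun i => (b i : K)) H = 0 := by
  have hmap : ∀ w : Fin R → F, eval (fun i => algebraMap F ℂ (w i)) (map (algebraMap F ℂ) H) =
      algebraMap F ℂ (aeval w H) := by
    intro w
    rw [eval_map, aeval_def, Algebra.algebraMap_self, eval₂_comp_left (algebraMap F ℂ)]
    simp
    rfl
  constructor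
  · intro h
    by_contra hcon
    obtain ⟨w, hw, hwH, -⟩ := hstar H hcon
    rw [mem_PI] at h
    have h1 := h _ hw
    rw [hmap, map_eq_zero_iff _ (algebraMap F ℂ).injective] at h1
    exact hwH h1
  · intro h
    rw [mem_PI]
    intro w hw
    rw [hmap, hw H h, map_zero]

lemma PI_isPrime {b : Fin R → Kˣ} {D : ℕ} (hstar : Star F b D) : (PI F b).IsPrime := by
  constructor
  · rw [Ideal.ne_top_iff_one]
    intro h
    have h1 := (map_mem_PI hstar 1).mp (by rwa [map_one])
    rw [map_one] at h1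
    exact one_ne_zero h1
  · intro f g hfg
    by_contra hcon
    push Not at hcon
    obtain ⟨φ, hφ⟩ := exists_phi_of_notMem hcon.1
    obtain ⟨ψ, hψ⟩ := exists_phi_of_notMem hcon.2
    obtain ⟨w, hw, hwG, -⟩ := hstar (phi φ f * phi ψ g) (by rw [map_mul]; exact mul_ne_zero hφ hψ)
    rw [map_mul] at hwG
    have h1 := mem_PI.mp hfg _ hw
    rw [map_mul] at h1
    rcases mul_eq_zero.mp h1 with h | h
    · exact eval_ne_of_phi (left_ne_zero_of_mul hwG) h
    · exact eval_ne_of_phi (right_ne_zero_of_mul hwG) h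

lemma PI_prod {b : Fin R → Kˣ} {D : ℕ} (hstar : Star F b D) :
    (∏ i : Fin R, (X i : MvPolynomial (Fin R) ℂ)) ∉ PI F b := by
  intro h
  have h1 := (map_mem_PI hstar (∏ i, X i)).mp (by
    rw [map_prod]
    simpa using h)
  rw [map_prod] at h1
  refine Finset.prod_ne_zero_iff.mpr ?_ h1
  intro i _
  rw [aeval_X]
  exact (b i).ne_zero

/-- The dimension. -/
lemma PI_dim {b : Fin R → Kˣ} {D : ℕ} (hstar : Star F b D)
    (J : Finset (Fin R)) (hJ : AlgebraicIndependent F (fun l : J => (b l : K)))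
    (hJ' : ∀ l, (b l : K) ∈ acl F (range (fun l : J => (b l : K)))) :
    ringKrullDim (MvPolynomial (Fin R) ℂ ⧸ PI F b) = (J.card : WithBot ℕ∞) := by
  classical
  have hP := PI_isPrime hstar
  let A := MvPolynomial (Fin R) ℂ ⧸ PI F b
  have : IsDomain A := Ideal.Quotient.isDomain _
  have : FaithfulSMul ℂ A :=
    (faithfulSMul_iff_algebraMap_injective ℂ A).mpr (algebraMap ℂ A).injective
  let x : Fin R → A := fun l => Ideal.Quotient.mk _ (X l)
  have hx : ∀ f : MvPolynomial (Fin R) ℂ, aeval x f = Ideal.Quotient.mk (PI F b) f := by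
    intro f
    have h1 : (aeval x : MvPolynomial (Fin R) ℂ →ₐ[ℂ] A) = Ideal.Quotient.mkₐ ℂ (PI F b) := by
      apply MvPolynomial.algHom_ext
      intro i
      rw [aeval_X]
      rfl
    rw [h1]
    rfl
  have hx0 : ∀ {τ : Type} (e : τ → Fin R) (f : MvPolynomial τ ℂ), aeval (x ∘ e) f = 0 ↔
      rename e f ∈ PI F b := by
    intro τ e f
    rw [← Ideal.Quotient.eq_zero_iff_mem, ← hx, aeval_rename]
  -- independence over `F` gives independence over `ℂ`
  have hup : AlgebraicIndependent ℂ (fun l : J => x l) := by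
    rw [algebraicIndependent_iff]
    intro f hf
    by_contra hf0
    obtain ⟨φ, hφ⟩ := exists_phi (F := F) f hf0
    have h1 : aeval (fun i => (b i : K)) (rename (fun l : J => (l : Fin R)) (phi φ f)) ≠ 0 := by
      rw [aeval_rename]
      intro h2
      exact hφ ((algebraicIndependent_iff.mp hJ) _ h2)
    obtain ⟨w, hw, hwG, -⟩ := hstar _ h1
    rw [aeval_rename] at hwG
    have h3 := (hx0 (fun l : J => (l : Fin R)) f).mp hf
    have h4 := mem_PI.mp h3 _ hw
    rw [eval_rename] at h4
    apply hwG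
    have h5 := eval_phi φ f ((fun i => (w i : F)) ∘ (fun l : J => (l : Fin R)))
    rw [h5]
    have h6 : (fun i => algebraMap F ℂ (((fun i => (w i : F)) ∘ (fun l : J => (l : Fin R))) i)) =
        (fun i => algebraMap F ℂ (w i)) ∘ (fun l : J => (l : Fin R)) := rfl
    rw [h6, h4, map_zero]
  -- independence over `ℂ` gives independence over `F`
  have hdown : ∀ {τ : Type} (e : τ → Fin R), AlgebraicIndependent ℂ (x ∘ e) →
      AlgebraicIndependent F (fun t => (b (e t) : K)) := by
    intro τ e he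
    rw [algebraicIndependent_iff]
    intro H hH
    have h1 : aeval (fun i => (b i : K)) (rename e H) = 0 := by
      rw [aeval_rename]
      exact hH
    rw [← map_mem_PI hstar, map_rename, ← hx0] at h1
    have h2 := (algebraicIndependent_iff.mp he) _ h1
    exact map_injective (algebraMap F ℂ) (algebraMap F ℂ).injective (by rw [h2, map_zero])
  have hacl : ∀ l, x l ∈ acl ℂ (range (fun l : J => x l)) := by
    intro l
    by_contra hcon
    have h1 := (hup.option_iff_transcendental (x l)).mpr hcon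
    let e : Option J → Fin R := fun o => o.elim l (fun j => (j : Fin R))
    have h2 : (fun o : Option J => o.elim (x l) (fun l : J => x l)) = x ∘ e := by
      funext o
      rcases o with _ | j <;> rfl
    rw [h2] at h1
    have h3 := hdown e h1
    have h4 : (fun t => (b (e t) : K)) = fun o : Option J => o.elim (b l : K)
        (fun l : J => (b l : K)) := by
      funext o
      rcases o with _ | j <;> rfl
    rw [h4] at h3
    exact (hJ.option_iff_transcendental (b l : K)).mp h3 (hJ' l)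
  have h1 := ringKrullDim_eq_card (fun l : J => x l) hup (by
    intro r
    obtain ⟨f, rfl⟩ := Ideal.Quotient.mk_surjective r
    rw [← hx]
    induction f using MvPolynomial.induction_on with
    | C a => rw [aeval_C]; exact acl_algebraMap _ _
    | add p q hp hq => rw [map_add]; exact acl_add hp hq
    | mul_X p i hp => rw [map_mul, aeval_X]; exact acl_mul hp (hacl i))
  rwa [Fintype.card_coe] at h1

/-- Density of the special points. -/
lemma PI_dense {b : Fin R → Kˣ} {D : ℕ} (hstar : Star F b D) (hrel : rel b = ⊥)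
    (hdim : ringKrullDim (MvPolynomial (Fin R) ℂ ⧸ PI F b) = (D : WithBot ℕ∞)) :
    ∀ f : MvPolynomial (Fin R) ℂ,
      (∀ x : Fin R → ℂ, (∀ i, x i ≠ 0) → (∀ g ∈ PI F b, MvPolynomial.eval x g = 0) →
        (∃ Λ : Submodule ℤ (Fin R → ℤ),
          ringKrullDim (MvPolynomial (Fin R) ℂ ⧸ PI F b)
              + ((R - Module.finrank ℤ Λ : ℕ) : WithBot ℕ∞) + 1 ≤ (R : WithBot ℕ∞) ∧
          ∀ a ∈ Λ, ∏ i : Fin R, x i ^ a i = 1) →
        MvPolynomial.eval x f = 0) →
      ∀ x : Fin R → ℂ, (∀ i, x i ≠ 0) → (∀ g ∈ PI F b, MvPolynomial.eval x g = 0) →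
        MvPolynomial.eval x f = 0 := by
  intro f hf x hx hxP
  refine hxP f ?_
  by_contra hcon
  obtain ⟨φ, hφ⟩ := exists_phi_of_notMem hcon
  obtain ⟨w, hw, hwG, hwr⟩ := hstar _ hφ
  refine eval_ne_of_phi hwG (hf _ ?_ ?_ ?_)
  · intro i
    rw [Ne, map_eq_zero_iff _ (algebraMap F ℂ).injective]
    exact (w i).ne_zero
  · intro g hg
    exact mem_PI.mp hg _ hw
  · refine ⟨rel w, ?_, ?_⟩
    · rw [hdim]
      rw [hrel, finrank_bot] at hwr
      have h1 : finrank ℤ (rel w) ≤ R := by
        have := Submodule.finrank_le (rel w)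
        rwa [finrank_fintype_fun_eq_card, Fintype.card_fin] at this
      have h2 : D + (R - finrank ℤ (rel w)) + 1 ≤ R := by omega
      exact_mod_cast h2
    · intro a ha
      rw [mem_rel] at ha
      have h1 := congrArg (fun u : Fˣ => algebraMap F ℂ (u : F)) ha
      simpa using h1

/-- No character is trivial. -/
lemma PI_char {b : Fin R → Kˣ} {D : ℕ} (hstar : Star F b D) (hrel : rel b = ⊥) :
    ¬ ∃ a : Fin R → ℤ, a ≠ 0 ∧
      ∀ x : Fin R → ℂ, (∀ i, x i ≠ 0) → (∀ g ∈ PI F b, MvPolynomial.eval x g = 0) →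
        ∏ i : Fin R, x i ^ a i = 1 := by
  rintro ⟨a, ha, h⟩
  obtain ⟨w, hw, hwG, -⟩ := hstar (binom F a) (by
    intro h0
    rw [aeval_binom, hrel, Submodule.mem_bot] at h0
    exact ha h0)
  have h1 := h (fun i => algebraMap F ℂ (w i)) (by
    intro i
    rw [Ne, map_eq_zero_iff _ (algebraMap F ℂ).injective]
    exact (w i).ne_zero) (fun g hg => mem_PI.mp hg _ hw)
  apply hwG
  rw [aeval_binom, mem_rel]
  apply Units.ext
  apply (algebraMap F ℂ).injective
  simpa using h1

end

end CIT8
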