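import Mathlib
import Pool.Agent.Lib.MP_c95b3b_ag_h8.StepD

set_option autoImplicit false

/-!
Trinomial equations and their Jacobian.
-/

namespace CIT8

open Set MvPolynomial Module

lemma PI_trinomial {F : Type} [Field F] [Algebra F ℂ] {K : Type} [Field K] [Algebra F K] {R : ℕ}
    {b : Fin R → Kˣ} {D : ℕ} (hstar : Star F b D) {k : ℕ} (C : Fin k → Fin 3 → Fˣ)
    (α : Fin k → Fin 3 → Fin R → ℤ) (j : Fin k → Fin R)
    (hC : ∀ e t, ∃ N : ℕ, 0 < N ∧ C e t ^ N = 1)
    (hsum : ∀ e, ∑ t, algebraMap F K (C e t) * ((∏ l, b l ^ α e t l : Kˣ) : K) = 0)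
    (hdet : (Matrix.of fun e l => ∑ t, algebraMap F K (C e t) *
      ((∏ l', b l' ^ α e t l' : Kˣ) : K) * (α e t (j l) : K)).det ≠ 0) :
    ∃ (c : Fin k → Fin 3 → ℂ) (s : Fin k → Fin 3 → (Fin R →₀ ℕ)),
      (∀ i t, ∃ N : ℕ, 0 < N ∧ c i t ^ N = 1) ∧
      (∀ i, ∑ t, monomial (s i t) (c i t) ∈ PI F b) ∧
      (Matrix.of fun i l => pderiv (j l) (∑ t, monomial (s i t) (c i t))).det ∉ PI F b := by
  classical
  let N : ℕ := ∑ e, ∑ t, ∑ l, (α e t l).natAbs
  have hN : ∀ e t l, 0 ≤ α e t l + N := by
    intro e t l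
    have h1 : (α e t l).natAbs ≤ N := by
      calc (α e t l).natAbs ≤ ∑ l, (α e t l).natAbs :=
            Finset.single_le_sum (f := fun l => (α e t l).natAbs) (fun _ _ => Nat.zero_le _)
              (Finset.mem_univ l)
        _ ≤ ∑ t, ∑ l, (α e t l).natAbs :=
            Finset.single_le_sum (f := fun t => ∑ l, (α e t l).natAbs) (fun _ _ => Nat.zero_le _)
              (Finset.mem_univ t)
        _ ≤ N :=
            Finset.single_le_sum (f := fun e => ∑ t, ∑ l, (α e t l).natAbs)
              (fun _ _ => Nat.zero_le _) (Finset.mem_univ e)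
    omega
  let s : Fin k → Fin 3 → (Fin R →₀ ℕ) := fun e t =>
    Finsupp.equivFunOnFinite.symm fun l => (α e t l + N).toNat
  let fF : Fin k → MvPolynomial (Fin R) F := fun e => ∑ t, monomial (s e t) (C e t : F)
  have hmono : ∀ e t (r : F), aeval (fun i => (b i : K)) (monomial (s e t) r) =
      (∏ i, (b i : K)) ^ N * (algebraMap F K r * ((∏ l, b l ^ α e t l : Kˣ) : K)) := by
    intro e t r
    rw [aeval_monomial, Finsupp.prod_fintype _ _ (fun _ => pow_zero _)]
    have h1 := prod_toNat b (α e t) N (hN e t)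
    have h2 : ∏ i, (b i : K) ^ (s e t) i = ∏ i, (b i : K) ^ (α e t i + N).toNat := rfl
    rw [h2, h1]
    ring
  have hmap : ∀ e, map (algebraMap F ℂ) (fF e) =
      ∑ t, monomial (s e t) (algebraMap F ℂ (C e t)) := by
    intro e
    rw [map_sum]
    exact Finset.sum_congr rfl fun t _ => map_monomial _ _ _
  refine ⟨fun e t => algebraMap F ℂ (C e t), s, ?_, ?_, ?_⟩
  · intro e t
    obtain ⟨M, hM, hM'⟩ := hC e t
    refine ⟨M, hM, ?_⟩
    rw [← map_pow, ← Units.val_pow_eq_pow_val, hM', Units.val_one, map_one]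
  · intro e
    rw [← hmap, map_mem_PI hstar, map_sum]
    simp only [hmono]
    rw [← Finset.mul_sum, hsum, mul_zero]
  · have h1 : (Matrix.of fun i l => pderiv (j l)
        (∑ t, monomial (s i t) (algebraMap F ℂ (C i t)))) =
        (Matrix.of fun i l => pderiv (j l) (fF i)).map (map (algebraMap F ℂ)) := by
      ext1 i l
      simp only [Matrix.of_apply, Matrix.map_apply]
      rw [← pderiv_map, hmap]
    rw [h1, ← RingHom.mapMatrix_apply, ← RingHom.map_det, map_mem_PI hstar]
    intro h0
    have h2 : aeval (fun i => (b i : K)) (Matrix.of fun i l => pderiv (j l) (fF i)).det =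
        (Matrix.of fun i l => aeval (fun i => (b i : K)) (pderiv (j l) (fF i))).det := by
      rw [AlgHom.map_det]
      rfl
    rw [h2] at h0
    have h3 : ∀ i l, (b (j l) : K) * aeval (fun i => (b i : K)) (pderiv (j l) (fF i)) =
        (∏ i, (b i : K)) ^ N * ∑ t, algebraMap F K (C i t) *
          ((∏ l', b l' ^ α i t l' : Kˣ) : K) * (α i t (j l) : K) := by
      intro i l
      have h4 : (b (j l) : K) * aeval (fun i => (b i : K)) (pderiv (j l) (fF i)) =
          aeval (fun i => (b i : K)) (X (j l) * pderiv (j l) (fF i)) := by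
        rw [map_mul, aeval_X]
      have h5 : X (j l) * pderiv (j l) (fF i) = ∑ t, (s i t) (j l) • monomial (s i t) (C i t : F) := by
        simp only [fF, map_sum, Finset.mul_sum, X_mul_pderiv_monomial]
      rw [h4, h5, map_sum]
      simp only [map_nsmul, hmono]
      have h6 : ∀ t, ((s i t) (j l) : K) = (α i t (j l) : K) + (N : K) := by
        intro t
        have h7 : (((s i t) (j l) : ℕ) : ℤ) = α i t (j l) + N := Int.toNat_of_nonneg (hN i t (j l))
        have h8 := congrArg (fun n : ℤ => (n : K)) h7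
        push_cast at h8
        exact h8
      simp only [nsmul_eq_mul, h6]
      have h7 : ∑ t, ((α i t (j l) : K) + (N : K)) * ((∏ i, (b i : K)) ^ N *
          (algebraMap F K (C i t) * ((∏ l, b l ^ α i t l : Kˣ) : K))) =
          (∏ i, (b i : K)) ^ N * (∑ t, algebraMap F K (C i t) *
          ((∏ l', b l' ^ α i t l' : Kˣ) : K) * (α i t (j l) : K)) +
          (∏ i, (b i : K)) ^ N * (N : K) *
            ∑ t, algebraMap F K (C i t) * ((∏ l, b l ^ α i t l : Kˣ) : K) := by
        rw [Finset.mul_sum, Finset.mul_sum, ← Finset.sum_add_distrib]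
        exact Finset.sum_congr rfl fun t _ => by ring
      rw [h7, hsum, mul_zero, add_zero]
    have h4 := Matrix.det_mul_row (fun l => (b (j l) : K))
      (Matrix.of fun i l => aeval (fun i => (b i : K)) (pderiv (j l) (fF i)))
    rw [h0, mul_zero] at h4
    simp only [Matrix.of_apply, h3] at h4
    have h5 := Matrix.det_mul_row (fun _ : Fin k => (∏ i, (b i : K)) ^ N)
      (Matrix.of fun i l => ∑ t, algebraMap F K (C i t) *
          ((∏ l', b l' ^ α i t l' : Kˣ) : K) * (α i t (j l) : K))
    simp only [Matrix.of_apply] at h5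
    rw [h4] at h5
    rcases mul_eq_zero.mp h5.symm with h6 | h6
    · refine Finset.prod_ne_zero_iff.mpr ?_ h6
      intro _ _
      exact pow_ne_zero _ (Finset.prod_ne_zero_iff.mpr fun i _ => (b i).ne_zero)
    · exact hdet h6

end CIT8
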