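import Mathlib
import Pool.Agent.Lib.MP_c95b3b_ag_h8.Indep

set_option autoImplicit false

/-!
The Jacobian bound for the transcendence degree in characteristic zero.
-/

namespace CIT8

open Set MvPolynomial Module

/-- The differentials of a transcendence basis are linearly independent. -/
lemma linearIndependent_D {k L ι : Type} [Field k] [CharZero k] [Field L] [Algebra k L]
    [Finite ι] (x : ι → L) (hx : AlgebraicIndependent k x)
    (hx' : ∀ y : L, y ∈ acl k (range x)) :
    LinearIndependent L (fun i => KaehlerDifferential.D k L (x i)) := by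
  classical
  let S := MvPolynomial ι k
  let _ : Algebra S L := (aeval x : S →ₐ[k] L).toRingHom.toAlgebra
  have hS : ∀ s : S, algebraMap S L s = aeval x s := fun _ => rfl
  have : IsScalarTower k S L := IsScalarTower.of_algebraMap_eq fun r => by
    rw [hS, MvPolynomial.algebraMap_eq, aeval_C]
  have hinj : Function.Injective (algebraMap S L) := hx
  have : FaithfulSMul S L := (faithfulSMul_iff_algebraMap_injective S L).mpr hinj
  have halg : Algebra.IsAlgebraic S L := by
    constructor
    intro y
    refine IsAlgebraic.ringHom_of_comp_eq (hx.aevalEquiv.symm : _ →+* S) (RingHom.id L) (hx' y)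
      hx.aevalEquiv.symm.injective ?_
    ext s
    obtain ⟨a, rfl⟩ := hx.aevalEquiv.surjective s
    simp only [RingHom.comp_apply, RingHom.id_apply, RingHom.coe_coe]
    rw [AlgEquiv.symm_apply_apply]
    rfl
  let Fr := FractionRing S
  let _ : Algebra Fr L := FractionRing.liftAlgebra S L
  have : IsScalarTower S Fr L := FractionRing.isScalarTower_liftAlgebra S L
  have : Algebra.IsAlgebraic Fr L :=
    (IsFractionRing.comap_isAlgebraic_iff (A := S) (K := Fr) (C := L)).mp halg
  have : CharZero Fr := charZero_of_injective_algebraMap (R := k) (algebraMap k Fr).injective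
  have : Algebra.IsSeparable Fr L := inferInstance
  have : Algebra.FormallyEtale Fr L := Algebra.FormallyEtale.of_isSeparable Fr L
  have : Algebra.FormallyEtale S Fr := Algebra.FormallyEtale.of_isLocalization (nonZeroDivisors S)
  have : Algebra.FormallyEtale S L := Algebra.FormallyEtale.comp S Fr L
  let e := KaehlerDifferential.tensorKaehlerEquivOfFormallyEtale k S L
  let β : Basis ι S (Ω[S⁄k]) := KaehlerDifferential.mvPolynomialBasis k ι
  let β' : Basis ι L (Ω[L⁄k]) := (β.baseChange L).map e
  have hβ : (fun i => KaehlerDifferential.D k L (x i)) = β' := by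
    funext i
    have h1 : β i = KaehlerDifferential.D k S (X i) :=
      KaehlerDifferential.mvPolynomialBasis_apply k ι i
    have h2 := KaehlerDifferential.tensorKaehlerEquivOfFormallyEtale_symm_D_algebraMap k S L (X i)
    rw [LinearEquiv.symm_apply_eq, hS, aeval_X] at h2
    rw [h2]
    change _ = ((β.baseChange L).map e) i
    rw [Basis.map_apply, Basis.baseChange_apply, h1]
  rw [hβ]
  exact β'.linearIndependent

lemma D_aeval {k L : Type} [Field k] [Field L] [Algebra k L] {m : ℕ} (x : Fin m → L)
    (g : MvPolynomial (Fin m) k) : KaehlerDifferential.D k L (aeval x g) =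
      ∑ i, aeval x (pderiv i g) • KaehlerDifferential.D k L (x i) := by
  classical
  induction g using MvPolynomial.induction_on with
  | C a => simp
  | add p q hp hq =>
    simp only [map_add, hp, hq, add_smul, Finset.sum_add_distrib]
  | mul_X p j hp =>
    rw [map_mul, aeval_X, Derivation.leibniz, hp]
    simp only [Derivation.leibniz, map_add, smul_eq_mul, map_mul, aeval_X, add_smul,
      Finset.sum_add_distrib, pderiv_X, Finset.smul_sum]
    congr 1
    · rw [Finset.sum_eq_single j]
      · simp
      · intro i _ hi
        simp [Pi.single_eq_of_ne hi.symm]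
      · simp
    · refine Finset.sum_congr rfl fun i _ => ?_
      rw [smul_smul]

/-- The Jacobian bound. -/
theorem card_add_le {k L : Type} [Field k] [CharZero k] [Field L] [Algebra k L] {m r : ℕ}
    (x : Fin m → L) (J : Finset (Fin m)) (hJ : AlgebraicIndependent k (fun j : J => x j))
    (hJ' : ∀ y : L, y ∈ acl k (range (fun j : J => x j)))
    (g : Fin r → MvPolynomial (Fin m) k) (hg : ∀ j, aeval x (g j) = 0)
    (hli : LinearIndependent L (fun j => fun i => aeval x (pderiv i (g j)))) :
    J.card + r ≤ m := by
  classical
  let T : (Fin m → L) →ₗ[L] Ω[L⁄k] :=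
    Fintype.linearCombination L (fun i => KaehlerDifferential.D k L (x i))
  have hT : ∀ v, T v = ∑ i, v i • KaehlerDifferential.D k L (x i) := fun v => rfl
  have h1 : J.card ≤ finrank L (LinearMap.range T) := by
    have hD := linearIndependent_D (fun j : J => x j) hJ hJ'
    have hmem : ∀ j : J, KaehlerDifferential.D k L (x j) ∈ LinearMap.range T := by
      intro j
      refine ⟨Pi.single (j : Fin m) 1, ?_⟩
      rw [hT, Finset.sum_eq_single (j : Fin m)]
      · simp
      · intro i _ hi
        simp [Pi.single_eq_of_ne hi]
      · simp
    have h2 : LinearIndependent L (fun j : J => (⟨_, hmem j⟩ : LinearMap.range T)) := by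
      refine LinearIndependent.of_comp (LinearMap.range T).subtype ?_
      exact hD
    have h3 := h2.fintype_card_le_finrank
    simpa using h3
  have h2 : r ≤ finrank L (LinearMap.ker T) := by
    have hmem : ∀ j : Fin r, (fun i => aeval x (pderiv i (g j))) ∈ LinearMap.ker T := by
      intro j
      rw [LinearMap.mem_ker, hT, ← D_aeval, hg, map_zero]
    have h3 : LinearIndependent L (fun j : Fin r => (⟨_, hmem j⟩ : LinearMap.ker T)) := by
      refine LinearIndependent.of_comp (LinearMap.ker T).subtype ?_
      exact hli
    have h4 := h3.fintype_card_le_finrank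
    simpa using h4
  have h3 := LinearMap.finrank_range_add_finrank_ker T
  rw [finrank_fintype_fun_eq_card, Fintype.card_fin] at h3
  omega

end CIT8
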