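import Mathlib
import Pool.Agent.Lib.MP_c95b3b_ag_h8.StepC
import Pool.Agent.Lib.MP_c95b3b_ag_h8.StepD

set_option autoImplicit false

/-!
Zilber's conjecture forbids families of units with property `Star`.
-/

namespace CIT8

open Set MvPolynomial Module

/-- Density of the special points of `V(P)`. -/
def Dens (n : ℕ) (P : Ideal (MvPolynomial (Fin n) ℂ)) : Prop :=
  ∀ f : MvPolynomial (Fin n) ℂ,
    (∀ x : Fin n → ℂ, (∀ i, x i ≠ 0) → (∀ g ∈ P, MvPolynomial.eval x g = 0) →
      (∃ Λ : Submodule ℤ (Fin n → ℤ),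
        ringKrullDim (MvPolynomial (Fin n) ℂ ⧸ P)
            + ((n - Module.finrank ℤ Λ : ℕ) : WithBot ℕ∞) + 1 ≤ (n : WithBot ℕ∞) ∧
        ∀ a ∈ Λ, ∏ i : Fin n, x i ^ a i = 1) →
      MvPolynomial.eval x f = 0) →
    ∀ x : Fin n → ℂ, (∀ i, x i ≠ 0) → (∀ g ∈ P, MvPolynomial.eval x g = 0) →
      MvPolynomial.eval x f = 0

/-- Some nontrivial character is identically `1` on `V(P)`. -/
def Chr (n : ℕ) (P : Ideal (MvPolynomial (Fin n) ℂ)) : Prop :=
  ∃ a : Fin n → ℤ, a ≠ 0 ∧
    ∀ x : Fin n → ℂ, (∀ i, x i ≠ 0) → (∀ g ∈ P, MvPolynomial.eval x g = 0) →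
      ∏ i : Fin n, x i ^ a i = 1

/-- Zilber's conjecture for all subvarieties of tori. -/
def ZAll : Prop :=
  ∀ (n : ℕ) (P : Ideal (MvPolynomial (Fin n) ℂ)), P.IsPrime →
      (∏ i : Fin n, (MvPolynomial.X i : MvPolynomial (Fin n) ℂ)) ∉ P → Dens n P → Chr n P

theorem no_star {F : Type} [Field F] [IsAlgClosed F] [CharZero F] [Algebra F ℂ] {K : Type}
    [Field K] [Algebra F K] {ι : Type} [Fintype ι] (z : ι → Kˣ) (J : Finset ι)
    (hJ : AlgebraicIndependent F (fun j : J => (z j : K)))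
    (hJ' : ∀ i, (z i : K) ∈ acl F (range (fun j : J => (z j : K)))) (hZ : ZAll) :
    ¬ Star F z J.card := by
  classical
  intro hstar
  obtain ⟨R, b, B, A, ζ, hb, hz, hζ, hrel, hcard, hBA⟩ := exists_mulbasis z
  choose ζF hζF hζF' using fun i => exists_root_eq (F := F) (ζ i) (hζ i)
  have hzacl : ∀ (T : Set K), (∀ l, (b l : K) ∈ acl F T) → ∀ i, (z i : K) ∈ acl F T := by
    intro T hT i
    have h1 : (z i : K) = algebraMap F K (ζF i) * ∏ l, (b l : K) ^ A i l := by
      rw [hz i, ← hζF' i]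
      simp
    rw [h1]
    exact acl_mul (acl_algebraMap _ _) (acl_prod _ _ fun l _ => acl_zpow (hT l) _)
  have hbacl : ∀ l, (b l : K) ∈ acl F (range (fun j : J => (z j : K))) := by
    intro l
    have h1 : (b l : K) = ∏ i, (z i : K) ^ B l i := by
      rw [hb l]
      simp
    rw [h1]
    exact acl_prod _ _ fun i _ => acl_zpow (hJ' i) _
  obtain ⟨J', hJ'1, hJ'2, -⟩ := exists_maxIndep F (fun l => (b l : K))
  have hJ'card : J'.card = J.card := by
    refine le_antisymm ?_ ?_
    · have := card_le_of_acl (fun l : J' => (b l : K)) (fun j : J => (z j : K)) hJ'1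
        (fun l => hbacl l)
      simpa using this
    · have := card_le_of_acl (fun j : J => (z j : K)) (fun l : J' => (b l : K)) hJ
        (fun i => hzacl _ hJ'2 i)
      simpa using this
  have hstarb : Star F b J.card := hstar.basis b B hb hrel (by simpa using hcard)
  have hdim := PI_dim hstarb J' hJ'1 hJ'2
  rw [hJ'card] at hdim
  exact PI_char hstarb hrel (hZ R (PI F b) (PI_isPrime hstarb) (PI_prod hstarb)
    (PI_dense hstarb hrel hdim))

end CIT8
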