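import Mathlib
import Pool.Agent.Lib.MP_c95b3b_ag_h8.NoStar

set_option autoImplicit false

/-!
Zilber's conjecture implies the finiteness statement for tuples of solutions of the unit equation.
-/

namespace CIT8

open Set MvPolynomial Module

/-- The `2k` numbers `u_i, 1 - u_i`. -/
def W {k : ℕ} (u : Fin k → ℂ) : Fin k ⊕ Fin k → ℂ := Sum.elim u (fun i => 1 - u i)

/-- The open set. -/
def Opn {k : ℕ} (u : Fin k → ℂ) : Prop := ∀ i, u i ≠ 0 ∧ u i ≠ 1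

lemma Opn.ne {k : ℕ} {u : Fin k → ℂ} (h : Opn u) (p : Fin k ⊕ Fin k) : W u p ≠ 0 := by
  rcases p with i | i
  · exact (h i).1
  · exact sub_ne_zero.mpr (h i).2.symm

/-- The units `u_i, 1 - u_i`. -/
noncomputable def WU {k : ℕ} {u : Fin k → ℂ} (h : Opn u) : Fin k ⊕ Fin k → ℂˣ :=
  fun p => Units.mk0 _ (h.ne p)

/-- The substitution `x ↦ (x, 1 - x)`. -/
noncomputable def sub1 (k : ℕ) : MvPolynomial (Fin k ⊕ Fin k) ℂ →ₐ[ℂ] MvPolynomial (Fin k) ℂ :=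
  aeval (Sum.elim X (fun i => 1 - X i))

lemma eval_sub1 {k : ℕ} {u : Fin k → ℂ} (h : Opn u) (H : MvPolynomial (Fin k ⊕ Fin k) ℂ) :
    eval u (sub1 k H) = aeval (fun p => (WU h p : ℂ)) H := by
  have h1 : (aeval u : MvPolynomial (Fin k) ℂ →ₐ[ℂ] ℂ).comp (sub1 k) =
      aeval (fun p => (WU h p : ℂ)) := by
    apply MvPolynomial.algHom_ext
    rintro (i | i) <;> simp [sub1, WU, W]
  rw [← h1, AlgHom.comp_apply, aeval_eq_eval]

section

variable {k : ℕ} (Q : Ideal (MvPolynomial (Fin k) ℂ)) [hQ : Q.IsPrime]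
  (hO : ∏ i : Fin k, ((X i : MvPolynomial (Fin k) ℂ) * (1 - X i)) ∉ Q)

/-- The coordinate functions in the quotient. -/
noncomputable def xq : Fin k ⊕ Fin k → MvPolynomial (Fin k) ℂ ⧸ Q :=
  Sum.elim (fun i => Ideal.Quotient.mk Q (X i)) (fun i => 1 - Ideal.Quotient.mk Q (X i))

include hO in
omit hQ in
lemma xq_ne (p : Fin k ⊕ Fin k) : xq Q p ≠ 0 := by
  have h1 : ∀ i : Fin k, (X i : MvPolynomial (Fin k) ℂ) * (1 - X i) ∉ Q := by
    intro i hi
    apply hO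
    rw [← Finset.mul_prod_erase _ _ (Finset.mem_univ i)]
    exact Q.mul_mem_right _ hi
  rcases p with i | i
  · intro h
    exact h1 i (Q.mul_mem_right _ (Ideal.Quotient.eq_zero_iff_mem.mp h))
  · intro h
    refine h1 i (Q.mul_mem_left _ (Ideal.Quotient.eq_zero_iff_mem.mp ?_))
    rw [map_sub, map_one]
    exact h

/-- The units `u_i, 1 - u_i` in the function field. -/
noncomputable def zq : Fin k ⊕ Fin k → (FractionRing (MvPolynomial (Fin k) ℂ ⧸ Q))ˣ :=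
  fun p => Units.mk0 (algebraMap _ _ (xq Q p)) (by
    have : IsDomain (MvPolynomial (Fin k) ℂ ⧸ Q) := Ideal.Quotient.isDomain Q
    intro h
    exact xq_ne Q hO p ((map_eq_zero_iff _ (IsFractionRing.injective _ _)).mp h))

lemma aeval_zq (H : MvPolynomial (Fin k ⊕ Fin k) ℂ) :
    aeval (fun p => (zq Q hO p : FractionRing (MvPolynomial (Fin k) ℂ ⧸ Q))) H =
      algebraMap (MvPolynomial (Fin k) ℂ ⧸ Q) _ (Ideal.Quotient.mk Q (sub1 k H)) := by
  have h1 : (aeval (fun p => (zq Q hO p : FractionRing (MvPolynomial (Fin k) ℂ ⧸ Q))) :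
      MvPolynomial (Fin k ⊕ Fin k) ℂ →ₐ[ℂ] _) =
      ((IsScalarTower.toAlgHom ℂ (MvPolynomial (Fin k) ℂ ⧸ Q) _).comp
        (Ideal.Quotient.mkₐ ℂ Q)).comp (sub1 k) := by
    apply MvPolynomial.algHom_ext
    rintro (i | i)
    · simp only [aeval_X, AlgHom.comp_apply, sub1, Sum.elim_inl]
      rfl
    · simp only [aeval_X, AlgHom.comp_apply, sub1, Sum.elim_inr]
      rfl
  rw [h1]
  rfl

lemma aeval_zq_eq_zero (H : MvPolynomial (Fin k ⊕ Fin k) ℂ) :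
    aeval (fun p => (zq Q hO p : FractionRing (MvPolynomial (Fin k) ℂ ⧸ Q))) H = 0 ↔
      sub1 k H ∈ Q := by
  have : IsDomain (MvPolynomial (Fin k) ℂ ⧸ Q) := Ideal.Quotient.isDomain Q
  rw [aeval_zq, map_eq_zero_iff _ (IsFractionRing.injective _ _), Ideal.Quotient.eq_zero_iff_mem]

/-- A transcendence basis of the function field among the `u_i, 1 - u_i`. -/
lemma exists_basis_zq : ∃ J : Finset (Fin k ⊕ Fin k),
    AlgebraicIndependent ℂ
      (fun j : J => (zq Q hO j : FractionRing (MvPolynomial (Fin k) ℂ ⧸ Q))) ∧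
    (∀ p, (zq Q hO p : FractionRing (MvPolynomial (Fin k) ℂ ⧸ Q)) ∈
      acl ℂ (range (fun j : J => (zq Q hO j : FractionRing (MvPolynomial (Fin k) ℂ ⧸ Q))))) ∧
    ringKrullDim (MvPolynomial (Fin k) ℂ ⧸ Q) = (J.card : WithBot ℕ∞) := by
  let A := MvPolynomial (Fin k) ℂ ⧸ Q
  have : IsDomain A := Ideal.Quotient.isDomain Q
  have : FaithfulSMul ℂ A :=
    (faithfulSMul_iff_algebraMap_injective ℂ A).mpr (algebraMap ℂ A).injective
  have hinj := IsFractionRing.injective (MvPolynomial (Fin k) ℂ ⧸ Q)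
    (FractionRing (MvPolynomial (Fin k) ℂ ⧸ Q))
  obtain ⟨J, hJ, hJ', -⟩ := exists_maxIndep (A := A) ℂ (xq Q)
  refine ⟨J, ?_, ?_, ?_⟩
  · exact hJ.map' (f := IsScalarTower.toAlgHom ℂ (MvPolynomial (Fin k) ℂ ⧸ Q)
      (FractionRing (MvPolynomial (Fin k) ℂ ⧸ Q))) hinj
  · intro p
    refine acl_transfer (RingHom.id ℂ) (algebraMap (MvPolynomial (Fin k) ℂ ⧸ Q)
      (FractionRing (MvPolynomial (Fin k) ℂ ⧸ Q))) hinj (fun c => ?_) ?_ (hJ' p)
    · rw [← IsScalarTower.algebraMap_apply]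
      rfl
    · rintro _ ⟨j, rfl⟩
      exact ⟨j, rfl⟩
  · have h1 := ringKrullDim_eq_card (R := A) (fun j : J => xq Q j) hJ (by
      intro r
      obtain ⟨f, rfl⟩ := Ideal.Quotient.mk_surjective r
      induction f using MvPolynomial.induction_on with
      | C a => exact acl_algebraMap (F := ℂ) (A := MvPolynomial (Fin k) ℂ ⧸ Q) _ a
      | add p q hp hq => rw [map_add]; exact acl_add hp hq
      | mul_X p i hp => rw [map_mul]; exact acl_mul hp (hJ' (Sum.inl i)))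
    rwa [Fintype.card_coe] at h1

/-- A component on which the special tuples are dense is atypical. -/
lemma atypical_of_dense (hZ : ZAll)
    (hdense : ∀ f : MvPolynomial (Fin k) ℂ, f ∉ Q → ∃ (u : Fin k → ℂ) (h : Opn u),
      (∀ g ∈ Q, eval u g = 0) ∧ k + 1 ≤ finrank ℤ (rel (WU h)) ∧ eval u f ≠ 0) :
    ((k + 1 : ℕ) : WithBot ℕ∞) ≤ ringKrullDim (MvPolynomial (Fin k) ℂ ⧸ Q) +
      (finrank ℤ (rel (zq Q hO)) : WithBot ℕ∞) := by
  obtain ⟨J, hJ, hJ', hdim⟩ := exists_basis_zq Q hO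
  rw [hdim]
  by_contra hcon
  have hcon' : J.card + finrank ℤ (rel (zq Q hO)) ≤ k := by
    by_contra h
    apply hcon
    have : k + 1 ≤ J.card + finrank ℤ (rel (zq Q hO)) := by omega
    exact_mod_cast this
  refine no_star (F := ℂ) (zq Q hO) J hJ hJ' hZ ?_
  intro G hG
  obtain ⟨u, hu, huQ, hrank, hGu⟩ := hdense (sub1 k G) (fun h => hG
    ((aeval_zq_eq_zero Q hO G).mpr h))
  refine ⟨WU hu, ?_, ?_, by omega⟩
  · intro H hH
    rw [← eval_sub1 hu]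
    exact huQ _ ((aeval_zq_eq_zero Q hO H).mp hH)
  · rw [← eval_sub1 hu]
    exact hGu

omit hQ in
/-- Relations in the function field hold at all points. -/
lemma rel_zq_le [hQ : Q.IsPrime] {u : Fin k → ℂ} (hu : Opn u) (huQ : ∀ g ∈ Q, eval u g = 0) :
    rel (zq Q hO) ≤ rel (WU hu) := by
  refine Spc.rel_le (F := ℂ) ?_
  intro H hH
  rw [← eval_sub1 hu]
  exact huQ _ ((aeval_zq_eq_zero Q hO H).mp hH)

end

/-- `V(Q)` is an atypical family of `k`-tuples. -/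
def Atyp (k : ℕ) (Q : Ideal (MvPolynomial (Fin k) ℂ)) : Prop :=
  Q.IsPrime ∧ ∏ i : Fin k, ((X i : MvPolynomial (Fin k) ℂ) * (1 - X i)) ∉ Q ∧
    ∃ Λ : Submodule ℤ (Fin k ⊕ Fin k → ℤ),
      ((k + 1 : ℕ) : WithBot ℕ∞) ≤ ringKrullDim (MvPolynomial (Fin k) ℂ ⧸ Q) +
        (finrank ℤ Λ : WithBot ℕ∞) ∧
      ∀ u : Fin k → ℂ, (∀ i, u i ≠ 0 ∧ u i ≠ 1) → (∀ g ∈ Q, eval u g = 0) →
        ∀ a ∈ Λ, ∏ i, (u i ^ a (Sum.inl i) * (1 - u i) ^ a (Sum.inr i)) = 1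

/-- The `k`-tuple `u` is special: the `2k` numbers `u_i, 1 - u_i` generate a group of rank `< k`. -/
def Spec (k : ℕ) (u : Fin k → ℂ) : Prop :=
  ∃ Λ : Submodule ℤ (Fin k ⊕ Fin k → ℤ), k + 1 ≤ finrank ℤ Λ ∧
        ∀ a ∈ Λ, ∏ i, (u i ^ a (Sum.inl i) * (1 - u i) ^ a (Sum.inr i)) = 1

/-- Finiteness of the atypical families of `k`-tuples with a given property. -/
def UCP (pred : ℂ → Prop) (k : ℕ) : Prop :=
  ∃ S : Finset (Ideal (MvPolynomial (Fin k) ℂ)), (∀ Q ∈ S, Atyp k Q) ∧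
    ∀ u : Fin k → ℂ, (∀ i, pred (u i)) → (∀ i, u i ≠ 0 ∧ u i ≠ 1) →
      Spec k u → ∃ Q ∈ S, ∀ g ∈ Q, eval u g = 0

/-- Families with a dense set of special tuples are atypical. -/
def DnP (pred : ℂ → Prop) (k : ℕ) : Prop :=
  ∀ Q : Ideal (MvPolynomial (Fin k) ℂ), Q.IsPrime →
    ∏ i : Fin k, ((X i : MvPolynomial (Fin k) ℂ) * (1 - X i)) ∉ Q →
    (∀ f : MvPolynomial (Fin k) ℂ, (∀ u : Fin k → ℂ, (∀ i, pred (u i)) →
      (∀ i, u i ≠ 0 ∧ u i ≠ 1) → Spec k u → (∀ g ∈ Q, eval u g = 0) → eval u f = 0) → f ∈ Q) →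
    Atyp k Q

lemma mem_rel_WU {k : ℕ} {u : Fin k → ℂ} (h : Opn u) (a : Fin k ⊕ Fin k → ℤ) :
    a ∈ rel (WU h) ↔ ∏ i, (u i ^ a (Sum.inl i) * (1 - u i) ^ a (Sum.inr i)) = 1 := by
  rw [mem_rel, Fintype.prod_sum_type, Finset.prod_mul_distrib, Units.ext_iff]
  simp [WU, W]

lemma spec_iff {k : ℕ} {u : Fin k → ℂ} (h : Opn u) :
    Spec k u ↔ k + 1 ≤ finrank ℤ (rel (WU h)) := by
  constructor
  · rintro ⟨Λ, hΛ1, hΛ2⟩
    exact hΛ1.trans (finrank_mono fun a ha => (mem_rel_WU h a).mpr (hΛ2 a ha))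
  · intro h1
    exact ⟨rel (WU h), h1, fun a ha => (mem_rel_WU h a).mp ha⟩

theorem dense_of_zilber (hZ : ZAll) (pred : ℂ → Prop) (k : ℕ) : DnP pred k := by
  intro Q hQ hO hd
  refine ⟨hQ, hO, rel (zq Q hO), atypical_of_dense Q hO hZ ?_, ?_⟩
  · intro f hf
    by_contra hcon
    push Not at hcon
    apply hf
    refine hd f ?_
    intro u _ hu hs huQ
    exact hcon u hu huQ ((spec_iff hu).mp hs)
  · intro u hu huQ a ha
    exact (mem_rel_WU hu a).mp (rel_zq_le Q hO hu huQ ha)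

theorem uc_of_dense (pred : ℂ → Prop) (k : ℕ) (hD : DnP pred k) : UCP pred k := by
  classical
  let Sg : Set (Fin k → ℂ) := {u | (∀ i, pred (u i)) ∧ (∀ i, u i ≠ 0 ∧ u i ≠ 1) ∧ Spec k u}
  let I : Ideal (MvPolynomial (Fin k) ℂ) := vanishingIdeal ℂ Sg
  have hfin : I.minimalPrimes.Finite := Ideal.finite_minimalPrimes_of_isNoetherianRing _ I
  have hprime : ∀ Q ∈ I.minimalPrimes, Q.IsPrime := fun Q hQ => hQ.1.1
  -- every special tuple is on a component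
  have hcover : ∀ u ∈ Sg, ∃ Q ∈ I.minimalPrimes, ∀ g ∈ Q, eval u g = 0 := by
    intro u hu
    by_contra hcon
    push Not at hcon
    choose! g hg hg' using hcon
    have h1 : ∏ Q ∈ hfin.toFinset, g Q ∈ I.radical := by
      rw [← Ideal.sInf_minimalPrimes, Ideal.mem_sInf]
      intro Q hQ
      rw [← Finset.mul_prod_erase _ _ (hfin.mem_toFinset.mpr hQ)]
      exact Q.mul_mem_right _ (hg Q hQ)
    obtain ⟨N, hN⟩ := Ideal.mem_radical_iff.mp h1
    have h2 := (mem_vanishingIdeal_iff.mp hN) u hu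
    rw [aeval_eq_eval] at h2
    change eval u _ = 0 at h2
    rw [map_pow, map_prod] at h2
    refine pow_ne_zero N (Finset.prod_ne_zero_iff.mpr fun Q hQ => ?_) h2
    exact hg' Q (hfin.mem_toFinset.mp hQ)
  -- density
  have hdense : ∀ Q ∈ I.minimalPrimes, ∀ f ∉ Q, ∃ u ∈ Sg, (∀ g ∈ Q, eval u g = 0) ∧
      eval u f ≠ 0 := by
    intro Q hQ f hf
    by_contra hcon
    push Not at hcon
    have hne : ∀ Q' ∈ hfin.toFinset.erase Q, ∃ h ∈ Q', h ∉ Q := by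
      intro Q' hQ'
      rw [Finset.mem_erase, hfin.mem_toFinset] at hQ'
      by_contra hsub
      push Not at hsub
      exact hQ'.1 (le_antisymm hsub (hQ.2 hQ'.2.1 hsub))
    choose! h hh hh' using hne
    have h1 : f * ∏ Q' ∈ hfin.toFinset.erase Q, h Q' ∈ I := by
      rw [mem_vanishingIdeal_iff]
      intro u hu
      rw [aeval_eq_eval]
      change eval u _ = 0
      rw [map_mul, map_prod]
      obtain ⟨Q', hQ', hQ'u⟩ := hcover u hu
      by_cases hQQ : Q' = Q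
      · rw [hcon u hu (by rw [← hQQ]; exact hQ'u), zero_mul]
      · have h2 : Q' ∈ hfin.toFinset.erase Q := by
          rw [Finset.mem_erase, hfin.mem_toFinset]
          exact ⟨hQQ, hQ'⟩
        rw [Finset.prod_eq_zero h2 (hQ'u _ (hh Q' h2)), mul_zero]
    have h2 : f * ∏ Q' ∈ hfin.toFinset.erase Q, h Q' ∈ Q := hQ.1.2 h1
    rcases (hprime Q hQ).mem_or_mem h2 with h3 | h3
    · exact hf h3
    · obtain ⟨Q', hQ', hQ'm⟩ := ((hprime Q hQ).prod_mem_iff).mp h3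
      exact hh' Q' hQ' hQ'm
  refine ⟨hfin.toFinset, ?_, ?_⟩
  · intro Q hQ
    rw [hfin.mem_toFinset] at hQ
    have hQp := hprime Q hQ
    have hO : ∏ i : Fin k, ((X i : MvPolynomial (Fin k) ℂ) * (1 - X i)) ∉ Q := by
      intro h0
      obtain ⟨u, ⟨-, hu, -⟩, huQ, -⟩ := hdense Q hQ 1 ((Ideal.ne_top_iff_one Q).mp hQp.ne_top)
      have h1 := huQ _ h0
      rw [map_prod] at h1
      refine Finset.prod_ne_zero_iff.mpr ?_ h1
      intro i _
      rw [map_mul, map_sub, eval_X, map_one]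
      exact mul_ne_zero (hu i).1 (sub_ne_zero.mpr (hu i).2.symm)
    refine hD Q hQp hO ?_
    intro f hf
    by_contra hfQ
    obtain ⟨u, ⟨hu1, hu2, hu3⟩, huQ, huf⟩ := hdense Q hQ f hfQ
    exact huf (hf u hu1 hu2 hu3 huQ)
  · intro u hup hu hs
    obtain ⟨Q, hQ, hQu⟩ := hcover u ⟨hup, hu, hs⟩
    exact ⟨Q, hfin.mem_toFinset.mpr hQ, hQu⟩

end CIT8
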