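import Mathlib
import Pool.Agent.Lib.MP_c95b3b_ag_h8.UnitA
import Pool.Agent.Lib.MP_c95b3b_ag_h8.Der

set_option autoImplicit false

/-!
The finiteness statement for tuples of solutions of the unit equation implies Zilber's conjecture
for trinomial pairs.
-/

namespace CIT8

open Set MvPolynomial Module

/-- Independent rows have a nonvanishing maximal minor. -/
lemma exists_cols {K : Type} [Field K] {r : ℕ} {ι : Type} [Fintype ι] (M : Matrix (Fin r) ι K)
    (hM : LinearIndependent K M.row) : ∃ c : Fin r → ι, (M.submatrix id c).det ≠ 0 := by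
  classical
  have hrank' : M.rank = r := by
    rw [Matrix.rank_eq_finrank_span_row, finrank_span_eq_card hM, Fintype.card_fin]
  obtain ⟨κ', a', ha', hspan', hli'⟩ := exists_linearIndependent' K M.col
  have hκ' : Finite κ' := Finite.of_injective a' ha'
  have := Fintype.ofFinite κ'
  have hcard' : Fintype.card κ' = r := by
    rw [← hrank', Matrix.rank_eq_finrank_span_cols, ← hspan', finrank_span_eq_card hli']
  let eκ' : Fin r ≃ κ' := (Fintype.equivFinOfCardEq hcard').symm
  refine ⟨a' ∘ eκ', ?_⟩
  have h1 : LinearIndependent K (M.submatrix id (a' ∘ eκ')).col := by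
    have : (M.submatrix id (a' ∘ eκ')).col = (M.col ∘ a') ∘ eκ' := rfl
    rw [this]
    exact hli'.comp _ eκ'.injective
  rw [Matrix.linearIndependent_cols_iff_isUnit, Matrix.isUnit_iff_isUnit_det] at h1
  exact h1.ne_zero

/-- A nonvanishing maximal minor gives independent rows. -/
lemma li_of_det {K : Type} [Field K] {r : ℕ} {ι : Type} (M : Matrix (Fin r) ι K)
    (c : Fin r → ι) (h : (M.submatrix id c).det ≠ 0) : LinearIndependent K M.row := by
  have h1 : LinearIndependent K (M.submatrix id c).row := by
    rw [Matrix.linearIndependent_rows_iff_isUnit, Matrix.isUnit_iff_isUnit_det]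
    exact isUnit_iff_ne_zero.mpr h
  exact LinearIndependent.of_comp (LinearMap.funLeft K K c) h1

/-- Independence over the integers gives independence over fields of characteristic zero. -/
lemma li_int {K : Type} [Field K] [CharZero K] {r : ℕ} {ι : Type} [Fintype ι]
    (v : Fin r → ι → ℤ) (hv : LinearIndependent ℤ v) :
    LinearIndependent K (fun j p => (v j p : K)) := by
  classical
  have h1 : LinearIndependent ℤ (fun j p => (v j p : ℚ)) := by
    let f : (ι → ℤ) →ₗ[ℤ] (ι → ℚ) :=
      { toFun := fun a p => (a p : ℚ)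
        map_add' := by intro a b; ext p; simp
        map_smul' := by intro c a; ext p; simp }
    have hf : LinearMap.ker f = ⊥ := by
      rw [LinearMap.ker_eq_bot']
      intro a ha
      ext p
      have := congrFun ha p
      simpa [f] using this
    exact hv.map' f hf
  rw [LinearIndependent.iff_fractionRing ℤ ℚ] at h1
  obtain ⟨c, hc⟩ := exists_cols (Matrix.of fun j p => (v j p : ℚ)) h1
  have h2 : (Matrix.of fun j l => v j (c l)).det ≠ 0 := by
    intro h0
    apply hc
    have h3 : (Matrix.of fun j p => (v j p : ℚ)).submatrix id c =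
        (Matrix.of fun j l => v j (c l)).map (Int.castRingHom ℚ) := by
      ext j l
      simp
    rw [h3, ← RingHom.mapMatrix_apply, ← RingHom.map_det, h0, map_zero]
  have h3 : ((Matrix.of fun j p => (v j p : K)).submatrix id c).det ≠ 0 := by
    have h4 : (Matrix.of fun j p => (v j p : K)).submatrix id c =
        (Matrix.of fun j l => v j (c l)).map (Int.castRingHom K) := by
      ext j l
      simp
    rw [h4, ← RingHom.mapMatrix_apply, ← RingHom.map_det]
    simpa using h2
  exact li_of_det _ c h3

/-- Relations of a torsion multiple of a monomial image. -/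
lemma finrank_rel_mono {ι κ : Type} [Fintype ι] [Fintype κ] {L : Type} [Field L] (y : ι → Lˣ)
    (w : κ → Lˣ) (c : κ → Lˣ) (B : κ → ι → ℤ) (hw : ∀ p, w p = c p * ∏ l, y l ^ B p l)
    (hc : ∀ p, ∃ N : ℕ, 0 < N ∧ c p ^ N = 1) :
    Fintype.card κ + finrank ℤ (rel y) ≤ finrank ℤ (rel w) + Fintype.card ι := by
  classical
  choose N hN hN' using hc
  let M : ℕ := ∏ p, N p
  have hM : M ≠ 0 := Finset.prod_ne_zero_iff.mpr fun p _ => (hN p).ne'
  have hcM : ∀ p, c p ^ M = 1 := by
    intro p
    rw [show M = N p * ∏ k ∈ Finset.univ.erase p, N k from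
      (Finset.mul_prod_erase _ _ (Finset.mem_univ p)).symm, pow_mul, hN', one_pow]
  let f : (κ → ℤ) →ₗ[ℤ] (ι → ℤ) := ∑ p, (LinearMap.proj p).smulRight (B p)
  have hf : ∀ a i, f a i = ∑ p, a p * B p i := by
    intro a i
    simp [f]
  have h1 := finrank_comap f (rel y)
  let g : (κ → ℤ) →ₗ[ℤ] (κ → ℤ) := LinearMap.lsmul ℤ (κ → ℤ) (M : ℤ)
  have hg : Function.Injective g := by
    intro a b hab
    have hab' : (M : ℤ) • a = (M : ℤ) • b := hab
    have : (M : ℤ) ≠ 0 := by exact_mod_cast hM
    exact smul_right_injective _ this hab'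
  have h2 : ((rel y).comap f).map g ≤ rel w := by
    rintro _ ⟨a, ha, rfl⟩
    have ha' : f a ∈ rel y := ha
    rw [mem_rel] at ha'
    rw [mem_rel]
    have h3 : ∏ p, w p ^ (g a) p = (∏ p, (c p ^ (M : ℤ)) ^ a p) *
        (∏ p, (∏ l, y l ^ B p l) ^ a p) ^ (M : ℤ) := by
      rw [← Finset.prod_zpow, ← Finset.prod_mul_distrib]
      refine Finset.prod_congr rfl fun p _ => ?_
      have : (g a) p = (M : ℤ) * a p := rfl
      rw [this, hw p, mul_zpow, zpow_mul, mul_comm (M : ℤ) (a p), zpow_mul (∏ l, y l ^ B p l)]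
    rw [h3, ← mon_sum_units y Finset.univ B a]
    have h4 : ∏ i, y i ^ (∑ l, a l * B l i) = 1 := by
      rw [← ha']
      exact Finset.prod_congr rfl fun i _ => by rw [hf]
    rw [h4, one_zpow, mul_one]
    refine Finset.prod_eq_one fun p _ => ?_
    rw [zpow_natCast, hcM, one_zpow]
  have h3 := finrank_mono h2
  rw [finrank_map_eq hg] at h3
  omega

end CIT8
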