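import Mathlib
import Pool.Agent.Lib.MP_c95b3b_ag_h8.UnitB

set_option autoImplicit false

/-!
Zilber's conjecture for trinomial pairs from the finiteness statement for the unit equation.
-/

namespace CIT8

open Set MvPolynomial Module

lemma aeval_sub1 {k : ℕ} {L : Type} [Field L] [Algebra ℂ L] (u : Fin k → L)
    (H : MvPolynomial (Fin k ⊕ Fin k) ℂ) :
    aeval u (sub1 k H) = aeval (Sum.elim u (fun i => 1 - u i)) H := by
  have h1 : (aeval u : MvPolynomial (Fin k) ℂ →ₐ[ℂ] L).comp (sub1 k) =
      aeval (Sum.elim u (fun i => 1 - u i)) := by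
    apply MvPolynomial.algHom_ext
    rintro (i | i) <;> simp [sub1]
  rw [← h1, AlgHom.comp_apply]

lemma pderiv_sub1 {k : ℕ} {L : Type} [Field L] [Algebra ℂ L] (u : Fin k → L)
    (H : MvPolynomial (Fin k ⊕ Fin k) ℂ) (i : Fin k) :
    aeval u (pderiv i (sub1 k H)) =
      aeval (Sum.elim u (fun i => 1 - u i)) (pderiv (Sum.inl i) H) -
      aeval (Sum.elim u (fun i => 1 - u i)) (pderiv (Sum.inr i) H) := by
  classical
  induction H using MvPolynomial.induction_on with
  | C a => simp [sub1]
  | add p q hp hq => simp only [map_add, hp, hq]; ring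
  | mul_X p q hp =>
    rcases q with j | j
    · have h1 : sub1 k (X (Sum.inl j)) = X j := by simp [sub1]
      simp only [map_mul, Derivation.leibniz, map_add, smul_eq_mul, h1, pderiv_X, hp, aeval_sub1,
        aeval_X, Sum.elim_inl]
      by_cases hij : j = i
      · subst hij
        simp
        ring
      · have h2 : (Pi.single i 1 : Fin k → MvPolynomial (Fin k) ℂ) j = 0 :=
          Pi.single_eq_of_ne hij 1
        have h3 : (Pi.single (Sum.inl i) 1 : Fin k ⊕ Fin k → MvPolynomial (Fin k ⊕ Fin k) ℂ)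
            (Sum.inl j) = 0 := Pi.single_eq_of_ne (by simpa using hij) 1
        have h4 : (Pi.single (Sum.inr i) 1 : Fin k ⊕ Fin k → MvPolynomial (Fin k ⊕ Fin k) ℂ)
            (Sum.inl j) = 0 := Pi.single_eq_of_ne (by simp) 1
        rw [h2, h3, h4]
        simp
        ring
    · have h1 : sub1 k (X (Sum.inr j)) = 1 - X j := by simp [sub1]
      simp only [map_mul, Derivation.leibniz, map_add, smul_eq_mul, h1, map_sub, pderiv_X, hp,
        aeval_sub1, aeval_X, Sum.elim_inr, map_one, pderiv_one]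
      by_cases hij : j = i
      · subst hij
        simp
        ring
      · have h2 : (Pi.single i 1 : Fin k → MvPolynomial (Fin k) ℂ) j = 0 :=
          Pi.single_eq_of_ne hij 1
        have h3 : (Pi.single (Sum.inr i) 1 : Fin k ⊕ Fin k → MvPolynomial (Fin k ⊕ Fin k) ℂ)
            (Sum.inr j) = 0 := Pi.single_eq_of_ne (by simpa using hij) 1
        have h4 : (Pi.single (Sum.inl i) 1 : Fin k ⊕ Fin k → MvPolynomial (Fin k ⊕ Fin k) ℂ)
            (Sum.inr j) = 0 := Pi.single_eq_of_ne (by simp) 1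
        rw [h2, h3, h4]
        simp
        ring

lemma pderiv_binom {ι : Type} [Fintype ι] {L : Type} [Field L] [Algebra ℂ L] (z : ι → Lˣ)
    (a : ι → ℤ) (ha : a ∈ rel z) (p : ι) :
    (z p : L) * aeval (fun i => (z i : L)) (pderiv p (binom ℂ a)) =
      (∏ i, (z i : L) ^ (a i).toNat) * (a p : L) := by
  classical
  have h1 : ∀ e : ι → ℕ, (∏ i, (X i : MvPolynomial ι ℂ) ^ e i) =
      monomial (Finsupp.equivFunOnFinite.symm e) 1 := by
    intro e
    rw [monomial_eq, Finsupp.prod_fintype _ _ (fun i => pow_zero _)]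
    simp
  have h2 : ∀ e : ι → ℕ, (z p : L) * aeval (fun i => (z i : L))
      (pderiv p (∏ i, (X i : MvPolynomial ι ℂ) ^ e i)) = (e p : L) * ∏ i, (z i : L) ^ e i := by
    intro e
    have h3 : (z p : L) * aeval (fun i => (z i : L))
        (pderiv p (∏ i, (X i : MvPolynomial ι ℂ) ^ e i)) =
        aeval (fun i => (z i : L)) (X p * pderiv p (∏ i, (X i : MvPolynomial ι ℂ) ^ e i)) := by
      rw [map_mul, aeval_X]
    rw [h3, h1, X_mul_pderiv_monomial, map_nsmul, ← h1]
    simp
  have h3 : (∏ i, (z i : L) ^ (a i).toNat) = ∏ i, (z i : L) ^ (-a i).toNat := by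
    have h4 := (aeval_binom (F := ℂ) z a).mpr ha
    simp only [binom, map_sub, map_prod, map_pow, aeval_X] at h4
    exact sub_eq_zero.mp h4
  have h4 : (((a p).toNat : ℕ) : L) - (((-a p).toNat : ℕ) : L) = (a p : L) := by
    have h5 : (((a p).toNat : ℕ) : ℤ) - (((-a p).toNat : ℕ) : ℤ) = a p := by omega
    have h6 := congrArg (fun n : ℤ => (n : L)) h5
    push_cast at h6
    exact h6
  rw [binom, map_sub, map_sub, mul_sub, h2, h2, ← h3, ← sub_mul, h4, mul_comm]

/-- Transcendence bases and dimension. -/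
lemma exists_basis_quot {n : ℕ} (P : Ideal (MvPolynomial (Fin n) ℂ)) [hP : P.IsPrime] :
    ∃ J : Finset (Fin n),
      AlgebraicIndependent ℂ (fun j : J => algebraMap (MvPolynomial (Fin n) ℂ ⧸ P)
        (FractionRing (MvPolynomial (Fin n) ℂ ⧸ P)) (Ideal.Quotient.mk P (X (j : Fin n)))) ∧
      (∀ y : FractionRing (MvPolynomial (Fin n) ℂ ⧸ P), y ∈ acl ℂ
        (range (fun j : J => algebraMap (MvPolynomial (Fin n) ℂ ⧸ P)
        (FractionRing (MvPolynomial (Fin n) ℂ ⧸ P)) (Ideal.Quotient.mk P (X (j : Fin n)))))) ∧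
      ringKrullDim (MvPolynomial (Fin n) ℂ ⧸ P) = (J.card : WithBot ℕ∞) := by
  let A := MvPolynomial (Fin n) ℂ ⧸ P
  have : IsDomain A := Ideal.Quotient.isDomain P
  have : FaithfulSMul ℂ A :=
    (faithfulSMul_iff_algebraMap_injective ℂ A).mpr (algebraMap ℂ A).injective
  have hinj := IsFractionRing.injective A (FractionRing A)
  obtain ⟨J, hJ, hJ', -⟩ := exists_maxIndep (A := A) ℂ (fun i => Ideal.Quotient.mk P (X i))
  have hall : ∀ r : A, r ∈ acl ℂ (range (fun j : J => Ideal.Quotient.mk P (X (j : Fin n)))) := by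
    intro r
    obtain ⟨f, rfl⟩ := Ideal.Quotient.mk_surjective r
    induction f using MvPolynomial.induction_on with
    | C a => exact acl_algebraMap (F := ℂ) (A := A) _ a
    | add p q hp hq => rw [map_add]; exact acl_add hp hq
    | mul_X p i hp => rw [map_mul]; exact acl_mul hp (hJ' i)
  refine ⟨J, ?_, ?_, ?_⟩
  · exact hJ.map' (f := IsScalarTower.toAlgHom ℂ A (FractionRing A)) hinj
  · intro y
    have h1 : ∀ r : A, algebraMap A (FractionRing A) r ∈ acl ℂ
        (range (fun j : J => algebraMap A (FractionRing A)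
          (Ideal.Quotient.mk P (X (j : Fin n))))) := by
      intro r
      refine acl_transfer (RingHom.id ℂ) (algebraMap A (FractionRing A)) hinj (fun c => ?_) ?_
        (hall r)
      · rw [← IsScalarTower.algebraMap_apply]
        rfl
      · rintro _ ⟨j, rfl⟩
        exact ⟨j, rfl⟩
    obtain ⟨r, s, hs, rfl⟩ := IsFractionRing.div_surjective (A := A) y
    rw [div_eq_mul_inv]
    exact acl_mul (h1 r) (acl_inv (h1 s))
  · have h1 := ringKrullDim_eq_card (R := A) (fun j : J => Ideal.Quotient.mk P (X (j : Fin n)))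
      hJ hall
    rwa [Fintype.card_coe] at h1

end CIT8
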