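import Mathlib
import Pool.Agent.Lib.MP_c95b3b_ag_h8.UnitC

set_option autoImplicit false

/-!
Zilber's conjecture for trinomial pairs from the finiteness statement for the unit equation:
the main argument.
-/

namespace CIT8

open Set MvPolynomial Module

section

variable {n k : ℕ} (z : Fin k → Fin 3 → ℂˣ) (a : Fin k → Fin 3 → (Fin n →₀ ℕ))

/-- The coefficients of the solutions of the unit equation. -/
noncomputable def cf : Fin k ⊕ Fin k → ℂˣ :=
  Sum.elim (fun i => -(z i 0 / z i 2)) (fun i => -(z i 1 / z i 2))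

/-- The exponents of the solutions of the unit equation. -/
def ex : Fin k ⊕ Fin k → Fin n → ℤ :=
  Sum.elim (fun i l => (a i 0 l : ℤ) - a i 2 l) (fun i l => (a i 1 l : ℤ) - a i 2 l)

/-- The solutions of the unit equation attached to a point. -/
noncomputable def sol {L : Type} [Field L] [Algebra ℂ L] (y : Fin n → Lˣ) :
    Fin k ⊕ Fin k → Lˣ :=
  fun p => Units.map (algebraMap ℂ L : ℂ →* L) (cf z p) * ∏ l, y l ^ ex a p l

/-- The terms of the trinomials. -/
noncomputable def tm {L : Type} [Field L] [Algebra ℂ L] (y : Fin n → Lˣ) (i : Fin k) (t : Fin 3) :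
    Lˣ :=
  Units.map (algebraMap ℂ L : ℂ →* L) (z i t) * ∏ l, y l ^ (a i t l : ℤ)

lemma aeval_trin {L : Type} [Field L] [Algebra ℂ L] (y : Fin n → Lˣ) (i : Fin k) (t : Fin 3) :
    aeval (fun l => (y l : L)) (monomial (a i t) (z i t : ℂ)) = (tm z a y i t : L) := by
  rw [aeval_monomial, Finsupp.prod_fintype _ _ (fun _ => pow_zero _)]
  simp [tm]

lemma sol_inl {L : Type} [Field L] [Algebra ℂ L] (y : Fin n → Lˣ) (i : Fin k) :
    sol z a y (Sum.inl i) * tm z a y i 2 = - tm z a y i 0 := by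
  have h1 : (∏ l, y l ^ ex a (Sum.inl i) l) * ∏ l, y l ^ (a i 2 l : ℤ) =
      ∏ l, y l ^ (a i 0 l : ℤ) := by
    rw [← Finset.prod_mul_distrib]
    refine Finset.prod_congr rfl fun l _ => ?_
    rw [← zpow_add]
    congr 1
    simp [ex]
  have h2 : Units.map (algebraMap ℂ L : ℂ →* L) (cf z (Sum.inl i)) *
      Units.map (algebraMap ℂ L : ℂ →* L) (z i 2) =
      - Units.map (algebraMap ℂ L : ℂ →* L) (z i 0) := by
    rw [← map_mul]
    have : cf z (Sum.inl i) * z i 2 = - z i 0 := by simp [cf]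
    rw [this]
    ext
    simp
  rw [sol, tm, tm, mul_mul_mul_comm, h1, h2, neg_mul]

lemma sol_inr {L : Type} [Field L] [Algebra ℂ L] (y : Fin n → Lˣ) (i : Fin k) :
    sol z a y (Sum.inr i) * tm z a y i 2 = - tm z a y i 1 := by
  have h1 : (∏ l, y l ^ ex a (Sum.inr i) l) * ∏ l, y l ^ (a i 2 l : ℤ) =
      ∏ l, y l ^ (a i 1 l : ℤ) := by
    rw [← Finset.prod_mul_distrib]
    refine Finset.prod_congr rfl fun l _ => ?_
    rw [← zpow_add]
    congr 1
    simp [ex]
  have h2 : Units.map (algebraMap ℂ L : ℂ →* L) (cf z (Sum.inr i)) *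
      Units.map (algebraMap ℂ L : ℂ →* L) (z i 2) =
      - Units.map (algebraMap ℂ L : ℂ →* L) (z i 1) := by
    rw [← map_mul]
    have : cf z (Sum.inr i) * z i 2 = - z i 1 := by simp [cf]
    rw [this]
    ext
    simp
  rw [sol, tm, tm, mul_mul_mul_comm, h1, h2, neg_mul]

lemma sol_add {L : Type} [Field L] [Algebra ℂ L] (y : Fin n → Lˣ) (i : Fin k)
    (h : ∑ t, (tm z a y i t : L) = 0) :
    (sol z a y (Sum.inr i) : L) = 1 - sol z a y (Sum.inl i) := by
  have h0 := congrArg (fun u : Lˣ => (u : L)) (sol_inl z a y i)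
  have h1 := congrArg (fun u : Lˣ => (u : L)) (sol_inr z a y i)
  simp only [Units.val_mul, Units.val_neg] at h0 h1
  rw [Fin.sum_univ_three] at h
  have h2 : (tm z a y i 2 : L) ≠ 0 := (tm z a y i 2).ne_zero
  apply mul_right_cancel₀ h2
  linear_combination h0 + h1 - h

lemma cf_torsion (hz : ∀ i t, ∃ N : ℕ, 0 < N ∧ z i t ^ N = 1) (p : Fin k ⊕ Fin k) :
    ∃ N : ℕ, 0 < N ∧ cf z p ^ N = 1 := by
  have key : ∀ x y : ℂˣ, (∃ N : ℕ, 0 < N ∧ x ^ N = 1) → (∃ N : ℕ, 0 < N ∧ y ^ N = 1) →
      ∃ N : ℕ, 0 < N ∧ (-(x / y)) ^ N = 1 := by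
    rintro x y ⟨N, hN, hN'⟩ ⟨M, hM, hM'⟩
    refine ⟨2 * (N * M), by positivity, ?_⟩
    rw [pow_mul, neg_sq, ← pow_mul, div_pow, show 2 * (N * M) = N * (2 * M) by ring, pow_mul x, hN',
      one_pow, show N * (2 * M) = M * (2 * N) by ring, pow_mul y, hM', one_pow, div_one]
  rcases p with i | i
  · exact key _ _ (hz i 0) (hz i 2)
  · exact key _ _ (hz i 1) (hz i 2)

/-- Clearing denominators in a polynomial evaluated at the solutions. -/
lemma exists_clear_sol (G : MvPolynomial (Fin k) ℂ) :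
    ∃ (N : ℕ) (G' : MvPolynomial (Fin n) ℂ), ∀ (L : Type) [Field L] [Algebra ℂ L]
      (y : Fin n → Lˣ), aeval (fun l => (y l : L)) G' =
        (∏ l, (y l : L)) ^ N * aeval (fun i => (sol z a y (Sum.inl i) : L)) G := by
  obtain ⟨N, G', hG'⟩ := exists_clear (F := ℂ) (fun i : Fin k => ex a (Sum.inl i))
    (aeval (fun i => C (cf z (Sum.inl i) : ℂ) * X i) G : MvPolynomial (Fin k) ℂ)
  refine ⟨N, G', fun L _ _ y => ?_⟩
  rw [hG' L y]
  congr 1
  have h1 : ((aeval (fun i : Fin k => ((∏ l, y l ^ ex a (Sum.inl i) l : Lˣ) : L)) :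
      MvPolynomial (Fin k) ℂ →ₐ[ℂ] L).comp
      (aeval (fun i => C (cf z (Sum.inl i) : ℂ) * X i) : MvPolynomial (Fin k) ℂ →ₐ[ℂ] _)) =
      aeval (fun i => (sol z a y (Sum.inl i) : L)) := by
    apply MvPolynomial.algHom_ext
    intro i
    simp [sol]
  rw [← h1, AlgHom.comp_apply]

end

/-- The tangent space argument. -/
lemma li_gradient {n k : ℕ} (z : Fin k → Fin 3 → ℂˣ) (a : Fin k → Fin 3 → (Fin n →₀ ℕ))
    (hz : ∀ i t, ∃ N : ℕ, 0 < N ∧ z i t ^ N = 1) {K : Type} [Field K] [Algebra ℂ K]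
    (y : Fin n → Kˣ) (hy : rel y = ⊥)
    (hf : ∀ i, ∑ t, (tm z a y i t : K) = 0) (jj : Fin k → Fin n)
    (hdet : (Matrix.of fun i l => aeval (fun l => (y l : K))
      (pderiv (jj l) (∑ t, monomial (a i t) (z i t : ℂ)))).det ≠ 0)
    {r : ℕ} (lam : Fin r → Fin k ⊕ Fin k → ℤ) (hlam : LinearIndependent ℤ lam)
    (hrel : ∀ j, lam j ∈ rel (sol z a y)) :
    LinearIndependent K (fun j => fun i => aeval (fun i => (sol z a y (Sum.inl i) : K))
      (pderiv i (sub1 k (binom ℂ (lam j))))) := by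
  classical
  have hK : CharZero K := charZero_of_injective_algebraMap (algebraMap ℂ K).injective
  have hsol : (Sum.elim (fun i => (sol z a y (Sum.inl i) : K))
      (fun i => 1 - (sol z a y (Sum.inl i) : K))) = fun p => (sol z a y p : K) := by
    funext p
    rcases p with i | i
    · rfl
    · exact (sol_add z a y i (hf i)).symm
  let M : Fin r → K := fun j => ∏ p, (sol z a y p : K) ^ (lam j p).toNat
  have hM : ∀ j, M j ≠ 0 := fun j =>
    Finset.prod_ne_zero_iff.mpr fun p _ => pow_ne_zero _ (sol z a y p).ne_zero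
  have hgrad : ∀ j i, aeval (fun i => (sol z a y (Sum.inl i) : K))
      (pderiv i (sub1 k (binom ℂ (lam j)))) =
      M j * (lam j (Sum.inl i) : K) / (sol z a y (Sum.inl i) : K) -
      M j * (lam j (Sum.inr i) : K) / (sol z a y (Sum.inr i) : K) := by
    intro j i
    rw [pderiv_sub1, hsol]
    have h1 := pderiv_binom (sol z a y) (lam j) (hrel j) (Sum.inl i)
    have h2 := pderiv_binom (sol z a y) (lam j) (hrel j) (Sum.inr i)
    have h3 : (sol z a y (Sum.inl i) : K) ≠ 0 := (sol z a y (Sum.inl i)).ne_zero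
    have h4 : (sol z a y (Sum.inr i) : K) ≠ 0 := (sol z a y (Sum.inr i)).ne_zero
    rw [eq_sub_iff_add_eq, ← eq_sub_iff_add_eq]
    simp only [M]
    rw [← h1, ← h2, mul_div_cancel_left₀ _ h3, mul_div_cancel_left₀ _ h4]
  -- the relations among the exponents
  have hB : ∀ j l, ∑ p, lam j p * ex a p l = 0 := by
    intro j l
    have h1 := hrel j
    rw [mem_rel] at h1
    choose N hN hN' using fun p => cf_torsion z hz p
    let Mt : ℕ := ∏ p, N p
    have hMt : Mt ≠ 0 := Finset.prod_ne_zero_iff.mpr fun p _ => (hN p).ne'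
    have hcM : ∀ p, (Units.map (algebraMap ℂ K : ℂ →* K) (cf z p)) ^ Mt = 1 := by
      intro p
      rw [← map_pow, show Mt = N p * ∏ k ∈ Finset.univ.erase p, N k from
        (Finset.mul_prod_erase _ _ (Finset.mem_univ p)).symm, pow_mul, hN', one_pow, map_one]
    have h2 : (Mt : ℤ) • (fun l => ∑ p, lam j p * ex a p l) ∈ rel y := by
      rw [mem_rel]
      have h3 : ∏ i, y i ^ ((Mt : ℤ) • (fun l => ∑ p, lam j p * ex a p l)) i =
          (∏ i, y i ^ (∑ p, lam j p * ex a p i)) ^ Mt := by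
        rw [← Finset.prod_pow]
        refine Finset.prod_congr rfl fun i _ => ?_
        rw [Pi.smul_apply, smul_eq_mul, mul_comm, zpow_mul, zpow_natCast]
      rw [h3, mon_sum_units y Finset.univ (ex a) (lam j)]
      have h4 : (∏ p, (∏ l, y l ^ ex a p l) ^ lam j p) ^ Mt = (∏ p, sol z a y p ^ lam j p) ^ Mt := by
        rw [← Finset.prod_pow, ← Finset.prod_pow]
        refine Finset.prod_congr rfl fun p _ => ?_
        rw [sol, mul_zpow, mul_pow, ← zpow_natCast ((Units.map _ _) ^ lam j p), ← zpow_mul,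
          mul_comm (lam j p), zpow_mul, zpow_natCast, hcM, one_zpow, one_mul]
      rw [h4, h1, one_pow]
    rw [hy, Submodule.mem_bot] at h2
    rcases smul_eq_zero.mp h2 with h3 | h3
    · exact absurd h3 (by exact_mod_cast hMt)
    · exact congrFun h3 l
  rw [Fintype.linearIndependent_iff]
  intro c hc
  -- the combination of the relations
  let al : Fin k ⊕ Fin k → K := fun p => ∑ j, c j * M j * (lam j p : K)
  have hal1 : ∀ i, al (Sum.inl i) / (sol z a y (Sum.inl i) : K) =
      al (Sum.inr i) / (sol z a y (Sum.inr i) : K) := by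
    intro i
    have h1 := congrFun hc i
    simp only [Finset.sum_apply, Pi.smul_apply, smul_eq_mul, hgrad, Pi.zero_apply] at h1
    rw [← sub_eq_zero, ← h1]
    simp only [al, Finset.sum_div, ← Finset.sum_sub_distrib]
    exact Finset.sum_congr rfl fun j _ => by ring
  have hal2 : ∀ l, ∑ p, al p * (ex a p l : K) = 0 := by
    intro l
    simp only [al, Finset.sum_mul]
    rw [Finset.sum_comm]
    refine Finset.sum_eq_zero fun j _ => ?_
    have h1 := congrArg (fun m : ℤ => (m : K)) (hB j l)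
    push_cast at h1
    calc ∑ p, c j * M j * (lam j p : K) * (ex a p l : K) =
        c j * M j * ∑ p, (lam j p : K) * (ex a p l : K) := by
          rw [Finset.mul_sum]
          exact Finset.sum_congr rfl fun p _ => by ring
      _ = 0 := by rw [h1, mul_zero]
  let s : Fin k → K := fun i => al (Sum.inl i) / (sol z a y (Sum.inl i) : K)
  have hs0 : ∀ i, al (Sum.inl i) = s i * (sol z a y (Sum.inl i) : K) := fun i =>
    (div_mul_cancel₀ _ (sol z a y (Sum.inl i)).ne_zero).symm
  have hs1 : ∀ i, al (Sum.inr i) = s i * (sol z a y (Sum.inr i) : K) := fun i => by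
    simp only [s]
    rw [hal1]
    exact (div_mul_cancel₀ _ (sol z a y (Sum.inr i)).ne_zero).symm
  have hgf : ∀ i l, (y l : K) * aeval (fun l => (y l : K))
      (pderiv l (∑ t, monomial (a i t) (z i t : ℂ))) = ∑ t, (tm z a y i t : K) * (a i t l : K) := by
    intro i l
    have h1 : (y l : K) * aeval (fun l => (y l : K))
        (pderiv l (∑ t, monomial (a i t) (z i t : ℂ))) =
        aeval (fun l => (y l : K)) (X l * pderiv l (∑ t, monomial (a i t) (z i t : ℂ))) := by
      rw [map_mul, aeval_X]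
    rw [h1, map_sum, Finset.mul_sum, map_sum]
    refine Finset.sum_congr rfl fun t _ => ?_
    rw [X_mul_pderiv_monomial, map_nsmul, aeval_trin, nsmul_eq_mul, mul_comm]
  have hcomb : ∀ l, ∑ i, (s i / (tm z a y i 2 : K)) * aeval (fun l => (y l : K))
      (pderiv l (∑ t, monomial (a i t) (z i t : ℂ))) = 0 := by
    intro l
    have h1 := hal2 l
    rw [Fintype.sum_sum_type] at h1
    have h2 : (y l : K) * ∑ i, (s i / (tm z a y i 2 : K)) * aeval (fun l => (y l : K))
        (pderiv l (∑ t, monomial (a i t) (z i t : ℂ))) = 0 := by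
      rw [← neg_eq_zero, ← h1, Finset.mul_sum, ← Finset.sum_add_distrib, ← Finset.sum_neg_distrib]
      refine Finset.sum_congr rfl fun i _ => ?_
      have h3 : (y l : K) * ((s i / (tm z a y i 2 : K)) * aeval (fun l => (y l : K))
          (pderiv l (∑ t, monomial (a i t) (z i t : ℂ)))) =
          (s i / (tm z a y i 2 : K)) * ∑ t, (tm z a y i t : K) * (a i t l : K) := by
        rw [← hgf]; ring
      rw [h3, hs0, hs1]
      have h4 := congrArg (fun u : Kˣ => (u : K)) (sol_inl z a y i)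
      have h5 := congrArg (fun u : Kˣ => (u : K)) (sol_inr z a y i)
      simp only [Units.val_mul, Units.val_neg] at h4 h5
      have h6 : (tm z a y i 2 : K) ≠ 0 := (tm z a y i 2).ne_zero
      have h7 := hf i
      rw [Fin.sum_univ_three] at h7 ⊢
      simp only [ex, Sum.elim_inl, Sum.elim_inr, Int.cast_sub, Int.cast_natCast]
      rw [div_mul_eq_mul_div, neg_eq_iff_eq_neg, div_eq_iff h6]
      linear_combination (s i * ((a i 0 l : K) - a i 2 l)) * h4 +
        (s i * ((a i 1 l : K) - a i 2 l)) * h5 + (s i * (a i 2 l : K)) * h7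
    rcases mul_eq_zero.mp h2 with h3 | h3
    · exact absurd h3 (y l).ne_zero
    · exact h3
  have hs : ∀ i, s i = 0 := by
    have h1 := Matrix.eq_zero_of_vecMul_eq_zero hdet (v := fun i => s i / (tm z a y i 2 : K)) (by
      funext l
      rw [Matrix.vecMul]
      simp only [dotProduct, Matrix.of_apply, Pi.zero_apply]
      exact hcomb (jj l))
    intro i
    have h2 := congrFun h1 i
    rcases div_eq_zero_iff.mp h2 with h3 | h3
    · exact h3
    · exact absurd h3 (tm z a y i 2).ne_zero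
  have hal : ∀ p, al p = 0 := by
    rintro (i | i)
    · rw [hs0, hs, zero_mul]
    · rw [hs1, hs, zero_mul]
  have hli := li_int (K := K) lam hlam
  rw [Fintype.linearIndependent_iff] at hli
  intro j
  have h1 := hli (fun j => c j * M j) (by
    funext p
    rw [Finset.sum_apply]
    exact hal p) j
  rcases mul_eq_zero.mp h1 with h2 | h2
  · exact h2
  · exact absurd h2 (hM j)

end CIT8
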