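import Mathlib
import Pool.Agent.Lib.MP_c95b3b_ag_h8.UnitD

set_option autoImplicit false

/-!
Zilber's conjecture for trinomial pairs from the finiteness statement for the unit equation:
assembly.
-/

namespace CIT8

open Set MvPolynomial Module

theorem trin_of_unit {n k : ℕ} (pred : ℂ → Prop) (P : Ideal (MvPolynomial (Fin n) ℂ)) (hP : P.IsPrime)
    (hX : (∏ i : Fin n, (MvPolynomial.X i : MvPolynomial (Fin n) ℂ)) ∉ P)
    (z : Fin k → Fin 3 → ℂˣ) (a : Fin k → Fin 3 → (Fin n →₀ ℕ)) (jj : Fin k → Fin n)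
    (hz : ∀ i t, ∃ N : ℕ, 0 < N ∧ z i t ^ N = 1)
    (hmem : ∀ i, ∑ t, monomial (a i t) (z i t : ℂ) ∈ P)
    (hdim : (n : WithBot ℕ∞) ≤ k + ringKrullDim (MvPolynomial (Fin n) ℂ ⧸ P))
    (hdet : (Matrix.of fun i l => pderiv (jj l) (∑ t, monomial (a i t) (z i t : ℂ))).det ∉ P)
    (hUC : UCP pred k)
    (hpts : ∀ G ∉ P, ∃ y : Fin n → ℂˣ, (∀ i, pred (sol z a y (Sum.inl i))) ∧
      (∀ g ∈ P, eval (fun i => (y i : ℂ)) g = 0) ∧ eval (fun i => (y i : ℂ)) G ≠ 0 ∧
      ringKrullDim (MvPolynomial (Fin n) ℂ ⧸ P)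
              + ((n - Module.finrank ℤ (rel y) : ℕ) : WithBot ℕ∞) + 1 ≤ (n : WithBot ℕ∞)) :
    Chr n P := by
  classical
  by_contra hne
  let A := MvPolynomial (Fin n) ℂ ⧸ P
  have : IsDomain A := Ideal.Quotient.isDomain P
  let K := FractionRing A
  have hinj : Function.Injective (algebraMap A K) := IsFractionRing.injective A K
  have hK : CharZero K := charZero_of_injective_algebraMap (algebraMap ℂ K).injective
  obtain ⟨J, -, -, hJd⟩ := exists_basis_quot P
  rw [hJd] at hdim
  have hnk : n ≤ k + J.card := by exact_mod_cast hdim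
  have hy0 : ∀ l, algebraMap A K (Ideal.Quotient.mk P (X l)) ≠ 0 := by
    intro l h
    rw [map_eq_zero_iff _ hinj] at h
    apply hX
    rw [← Finset.mul_prod_erase _ _ (Finset.mem_univ l)]
    exact P.mul_mem_right _ (Ideal.Quotient.eq_zero_iff_mem.mp h)
  let y : Fin n → Kˣ := fun l => Units.mk0 _ (hy0 l)
  have hyH : ∀ H : MvPolynomial (Fin n) ℂ, aeval (fun l => (y l : K)) H = 0 ↔ H ∈ P := by
    intro H
    have h1 : (aeval (fun l => (y l : K)) : MvPolynomial (Fin n) ℂ →ₐ[ℂ] K) =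
        (IsScalarTower.toAlgHom ℂ A K).comp (Ideal.Quotient.mkₐ ℂ P) := by
      apply MvPolynomial.algHom_ext
      intro i
      simp only [aeval_X, AlgHom.comp_apply]
      rfl
    rw [h1]
    change algebraMap A K (Ideal.Quotient.mk P H) = 0 ↔ _
    rw [map_eq_zero_iff _ hinj, Ideal.Quotient.eq_zero_iff_mem]
  have hrely : rel y = ⊥ := by
    rw [Submodule.eq_bot_iff]
    intro e he
    by_contra he0
    apply hne
    refine ⟨e, he0, fun v hv hvP => ?_⟩
    rw [← aeval_binom (F := ℂ), hyH] at he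
    have h3 := hvP _ he
    have h4 := (aeval_binom (F := ℂ) (fun i => Units.mk0 (v i) (hv i)) e).mp (by
      rw [← aeval_eq_eval] at h3
      exact h3)
    rw [mem_rel] at h4
    have h5 := congrArg (fun u : ℂˣ => (u : ℂ)) h4
    simpa using h5
  have hfy : ∀ i, ∑ t, (tm z a y i t : K) = 0 := by
    intro i
    have h1 := (hyH _).mpr (hmem i)
    rw [map_sum] at h1
    simpa only [aeval_trin] using h1
  -- special points give special tuples
  have hpt : ∀ x : Fin n → ℂˣ, (∀ g ∈ P, eval (fun i => (x i : ℂ)) g = 0) →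
      ringKrullDim (MvPolynomial (Fin n) ℂ ⧸ P)
              + ((n - Module.finrank ℤ (rel x) : ℕ) : WithBot ℕ∞) + 1 ≤ (n : WithBot ℕ∞) →
      ∃ (h : Opn (fun i => (sol z a x (Sum.inl i) : ℂ))), k + 1 ≤ finrank ℤ (rel (WU h)) := by
    intro x hxP hxr
    have hfx : ∀ i, ∑ t, (tm z a x i t : ℂ) = 0 := by
      intro i
      have h1 := hxP _ (hmem i)
      rw [← aeval_eq_eval, map_sum] at h1
      simpa only [← aeval_trin] using h1
    have hO : Opn (fun i => (sol z a x (Sum.inl i) : ℂ)) := by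
      intro i
      refine ⟨(sol z a x (Sum.inl i)).ne_zero, ?_⟩
      intro h1
      have h1' : (sol z a x (Sum.inl i) : ℂ) = 1 := h1
      have h2 := sol_add z a x i (hfx i)
      rw [h1', sub_self] at h2
      exact (sol z a x (Sum.inr i)).ne_zero h2
    refine ⟨hO, ?_⟩
    have hWU : WU hO = sol z a x := by
      funext p
      apply Units.ext
      rcases p with i | i
      · rfl
      · exact (sol_add z a x i (hfx i)).symm
    rw [hWU]
    have h1 := finrank_rel_mono x (sol z a x)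
      (fun p => Units.map (algebraMap ℂ ℂ : ℂ →* ℂ) (cf z p)) (ex a) (fun p => rfl) (by
        intro p
        obtain ⟨N, hN, hN'⟩ := cf_torsion z hz p
        exact ⟨N, hN, by rw [← map_pow, hN', map_one]⟩)
    rw [Fintype.card_sum, Fintype.card_fin, Fintype.card_fin] at h1
    rw [hJd] at hxr
    have h2 : J.card + (n - finrank ℤ (rel x)) + 1 ≤ n := by exact_mod_cast hxr
    omega
  obtain ⟨S, hS, hSc⟩ := hUC
  -- a family containing the solutions at the generic point
  obtain ⟨Q, hQS, hQ⟩ : ∃ Q ∈ S, ∀ g ∈ Q, aeval (fun i => (sol z a y (Sum.inl i) : K)) g = 0 := by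
    by_contra hcon
    push Not at hcon
    choose! g hg hg' using hcon
    obtain ⟨N, G', hG'⟩ := exists_clear_sol z a (∏ Q ∈ S, g Q)
    have h1 : G' ∉ P := by
      rw [← hyH, hG' K y, map_prod]
      exact mul_ne_zero (pow_ne_zero _ (Finset.prod_ne_zero_iff.mpr fun i _ => (y i).ne_zero))
        (Finset.prod_ne_zero_iff.mpr fun Q hQ => hg' Q hQ)
    obtain ⟨x, hxp, hxP, hxG, hxr⟩ := hpts G' h1
    obtain ⟨hO, hr⟩ := hpt x hxP hxr
    obtain ⟨Q, hQ, hQx⟩ := hSc _ hxp hO ⟨rel (WU hO), hr, fun e he => (mem_rel_WU hO e).mp he⟩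
    rw [← aeval_eq_eval] at hxG
    have h2 := hG' ℂ x
    rw [map_prod] at h2
    apply hxG
    rw [h2]
    have h3 : aeval (fun i => (sol z a x (Sum.inl i) : ℂ)) (g Q) = 0 := by
      rw [aeval_eq_eval]
      exact hQx _ (hg Q hQ)
    rw [Finset.prod_eq_zero hQ h3, mul_zero]
  obtain ⟨hQp, hQO, Λ, hΛ, hΛ'⟩ := hS Q hQS
  -- the relations
  have hΛQ : ∀ e ∈ Λ, sub1 k (binom ℂ e) ∈ Q := by
    intro e he
    have h1 : sub1 k (binom ℂ e) * ∏ i : Fin k, ((X i : MvPolynomial (Fin k) ℂ) * (1 - X i)) ∈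
        vanishingIdeal ℂ (zeroLocus ℂ Q) := by
      rw [mem_vanishingIdeal_iff]
      intro u hu
      rw [mem_zeroLocus_iff] at hu
      simp only [aeval_eq_eval] at hu ⊢
      change eval u _ = 0
      by_cases h0 : Opn u
      · have h2 : e ∈ rel (WU h0) := (mem_rel_WU h0 e).mpr (hΛ' u h0 (fun g hg => hu g hg) e he)
        rw [map_mul, eval_sub1 h0, (aeval_binom (F := ℂ) (WU h0) e).mpr h2, zero_mul]
      · simp only [Opn, not_forall] at h0
        obtain ⟨i, hi⟩ := h0
        rw [map_mul, map_prod, Finset.prod_eq_zero (Finset.mem_univ i), mul_zero]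
        rw [map_mul, map_sub, eval_X, map_one]
        by_cases h2 : u i = 0
        · rw [h2, zero_mul]
        · have h3 : u i = 1 := by
            by_contra h3
            exact hi ⟨h2, h3⟩
          rw [h3, sub_self, mul_zero]
    rw [vanishingIdeal_zeroLocus_eq_radical, hQp.radical] at h1
    exact (hQp.mem_or_mem h1).resolve_right hQO
  have hsol : (Sum.elim (fun i => (sol z a y (Sum.inl i) : K))
      (fun i => 1 - (sol z a y (Sum.inl i) : K))) = fun p => (sol z a y p : K) := by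
    funext p
    rcases p with i | i
    · rfl
    · exact (sol_add z a y i (hfy i)).symm
  let r := finrank ℤ Λ
  let β : Basis (Fin r) ℤ Λ := Module.finBasis ℤ Λ
  let lam : Fin r → Fin k ⊕ Fin k → ℤ := fun j => (β j : Fin k ⊕ Fin k → ℤ)
  have hlam : LinearIndependent ℤ lam := by
    have := β.linearIndependent.map' Λ.subtype (Submodule.ker_subtype Λ)
    exact this
  have hrel : ∀ j, lam j ∈ rel (sol z a y) := by
    intro j
    rw [← aeval_binom (F := ℂ), ← hsol, ← aeval_sub1]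
    exact hQ _ (hΛQ _ (β j).2)
  have hdet' : (Matrix.of fun i l => aeval (fun l => (y l : K))
      (pderiv (jj l) (∑ t, monomial (a i t) (z i t : ℂ)))).det ≠ 0 := by
    intro h0
    apply hdet
    rw [← hyH, AlgHom.map_det, ← h0]
    rfl
  have hli := li_gradient z a hz y hrely hfy jj hdet' lam hlam hrel
  -- a minor
  obtain ⟨c, hc⟩ := exists_cols (Matrix.of fun j i => aeval (fun i => (sol z a y (Sum.inl i) : K))
      (pderiv i (sub1 k (binom ℂ (lam j))))) hli
  have hΔ : (Matrix.of fun j l => pderiv (c l) (sub1 k (binom ℂ (lam j)))).det ∉ Q := by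
    intro h0
    apply hc
    have h1 := hQ _ h0
    rw [AlgHom.map_det] at h1
    exact h1
  -- the function field of the family
  let AQ := MvPolynomial (Fin k) ℂ ⧸ Q
  have : IsDomain AQ := Ideal.Quotient.isDomain Q
  let KQ := FractionRing AQ
  have hinjQ : Function.Injective (algebraMap AQ KQ) := IsFractionRing.injective AQ KQ
  let xQ : Fin k → KQ := fun i => algebraMap AQ KQ (Ideal.Quotient.mk Q (X i))
  have hxQ : ∀ H : MvPolynomial (Fin k) ℂ, aeval xQ H = 0 ↔ H ∈ Q := by
    intro H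
    have h1 : (aeval xQ : MvPolynomial (Fin k) ℂ →ₐ[ℂ] KQ) =
        (IsScalarTower.toAlgHom ℂ AQ KQ).comp (Ideal.Quotient.mkₐ ℂ Q) := by
      apply MvPolynomial.algHom_ext
      intro i
      simp only [aeval_X, AlgHom.comp_apply]
      rfl
    rw [h1]
    change algebraMap AQ KQ (Ideal.Quotient.mk Q H) = 0 ↔ _
    rw [map_eq_zero_iff _ hinjQ, Ideal.Quotient.eq_zero_iff_mem]
  obtain ⟨JQ, hJQ, hJQ', hJQd⟩ := exists_basis_quot Q
  have hliQ : LinearIndependent KQ (fun j => fun i =>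
      aeval xQ (pderiv i (sub1 k (binom ℂ (lam j))))) := by
    refine li_of_det (Matrix.of fun j i => aeval xQ (pderiv i (sub1 k (binom ℂ (lam j))))) c ?_
    intro h0
    apply hΔ
    rw [← hxQ, AlgHom.map_det]
    exact h0
  have hle := card_add_le (k := ℂ) xQ JQ hJQ hJQ' (fun j => sub1 k (binom ℂ (lam j)))
    (fun j => (hxQ _).mpr (hΛQ _ (β j).2)) hliQ
  rw [hJQd] at hΛ
  have hge : k + 1 ≤ JQ.card + r := by exact_mod_cast hΛ
  omega

end CIT8
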