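import Mathlib
import Pool.Agent.Lib.MP_c95b3b_ag_h8.StepB2
import Pool.Agent.Lib.MP_c95b3b_ag_h8.StepC2
import Pool.Agent.Lib.MP_c95b3b_ag_h8.Trin
import Pool.Agent.Lib.MP_c95b3b_ag_h8.UnitE

set_option autoImplicit false

/-!
Assembly of the two reductions.
-/

namespace CIT8

open Set MvPolynomial Module

lemma PI_points {F : Type} [Field F] [Algebra F ℂ] {K : Type} [Field K] [Algebra F K] {R : ℕ}
    {b : Fin R → Kˣ} {D : ℕ} (hstar : Star F b D) (hrel : rel b = ⊥)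
    (hdim : ringKrullDim (MvPolynomial (Fin R) ℂ ⧸ PI F b) = (D : WithBot ℕ∞))
    (G : MvPolynomial (Fin R) ℂ) (hG : G ∉ PI F b) :
    ∃ w : Fin R → Fˣ, (∀ g ∈ PI F b,
        eval (fun i => ((Units.map (algebraMap F ℂ : F →* ℂ) (w i) : ℂˣ) : ℂ)) g = 0) ∧
      eval (fun i => ((Units.map (algebraMap F ℂ : F →* ℂ) (w i) : ℂˣ) : ℂ)) G ≠ 0 ∧
      ringKrullDim (MvPolynomial (Fin R) ℂ ⧸ PI F b) + ((R - Module.finrank ℤ
        (rel (fun i => Units.map (algebraMap F ℂ : F →* ℂ) (w i))) : ℕ) : WithBot ℕ∞) + 1 ≤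
        (R : WithBot ℕ∞) := by
  obtain ⟨φ, hφ⟩ := exists_phi_of_notMem hG
  obtain ⟨w, hw, hwG, hwr⟩ := hstar _ hφ
  refine ⟨w, fun g hg => mem_PI.mp hg _ hw, eval_ne_of_phi hwG, ?_⟩
  rw [hdim]
  rw [hrel, finrank_bot] at hwr
  have h0 : rel w ≤ rel (fun i => Units.map (algebraMap F ℂ : F →* ℂ) (w i)) := by
    intro a ha
    rw [mem_rel] at ha ⊢
    have h1 := congrArg (Units.map (algebraMap F ℂ : F →* ℂ)) ha
    rw [map_prod, map_one] at h1
    rw [← h1]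
    exact Finset.prod_congr rfl fun i _ => (map_zpow _ _ _).symm
  have h0' := finrank_mono h0
  have h1 : finrank ℤ (rel (fun i => Units.map (algebraMap F ℂ : F →* ℂ) (w i))) ≤ R := by
    have := Submodule.finrank_le (rel (fun i => Units.map (algebraMap F ℂ : F →* ℂ) (w i)))
    rwa [finrank_fintype_fun_eq_card, Fintype.card_fin] at this
  have h2 : D + (R - finrank ℤ (rel (fun i => Units.map (algebraMap F ℂ : F →* ℂ) (w i)))) + 1 ≤ R := by
    omega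
  exact_mod_cast h2

/-- Every counterexample to Zilber's conjecture produces a counterexample which is a generically
transversal component of an intersection of trinomial hypersurfaces, with a dense set of special
points with algebraic coordinates. -/
theorem main_reduction (n : ℕ) (P : Ideal (MvPolynomial (Fin n) ℂ)) (hP : P.IsPrime)
    (hX : (∏ i : Fin n, (MvPolynomial.X i : MvPolynomial (Fin n) ℂ)) ∉ P)
    (hU : Dens n P) (hne : ¬ Chr n P) :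
    ∃ (R : ℕ) (P' : Ideal (MvPolynomial (Fin R) ℂ)) (k : ℕ) (z : Fin k → Fin 3 → ℂˣ)
      (a : Fin k → Fin 3 → (Fin R →₀ ℕ)) (jj : Fin k → Fin R),
      P'.IsPrime ∧ (∏ i : Fin R, (MvPolynomial.X i : MvPolynomial (Fin R) ℂ)) ∉ P' ∧
      (∀ i t, ∃ N : ℕ, 0 < N ∧ z i t ^ N = 1) ∧
      (∀ i, ∑ t, monomial (a i t) (z i t : ℂ) ∈ P') ∧
      (R : WithBot ℕ∞) ≤ k + ringKrullDim (MvPolynomial (Fin R) ℂ ⧸ P') ∧
      (Matrix.of fun i l => pderiv (jj l) (∑ t, monomial (a i t) (z i t : ℂ))).det ∉ P' ∧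
      Dens R P' ∧ ¬ Chr R P' ∧
      (∀ G ∉ P', ∃ y : Fin R → ℂˣ, (∀ i, IsAlgebraic ℚ (y i : ℂ)) ∧
      (∀ g ∈ P', eval (fun i => (y i : ℂ)) g = 0) ∧ eval (fun i => (y i : ℂ)) G ≠ 0 ∧
      ringKrullDim (MvPolynomial (Fin R) ℂ ⧸ P')
              + ((R - Module.finrank ℤ (rel y) : ℕ) : WithBot ℕ∞) + 1 ≤ (R : WithBot ℕ∞)) := by
  let F := algebraicClosure ℚ ℂ
  have hF : IsAlgClosed F := (algebraicClosure.isAlgClosure ℚ ℂ).isAlgClosed
  have hF' := algebraicClosure.isAlgebraic ℚ ℂ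
  have halg : Algebra.IsAlgebraic ℤ F :=
    (IsFractionRing.comap_isAlgebraic_iff (A := ℤ) (K := ℚ)).mpr hF'
  obtain ⟨K, iK, iKF, ι, iι, z, J, hJ, hJ', hstar⟩ := stepA F n P hP hX hU hne
  obtain ⟨ι', iι', z', J', E, iE, c, a, hc, hsum, htan, hcard, hJ1, hJ1', hstar'⟩ :=
    stepB F z J hJ hJ' J.card hstar
  obtain ⟨R, b, k, C, α, j, hrel, hC, hsum2, hR, hdet, ⟨I, hIcard, hI, hI'⟩, hstarb⟩ :=
    stepC z' J' c a hc hsum htan hJ1 hJ1' J.card hcard hstar'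
  obtain ⟨c', s, hc', hmem, hdet'⟩ := PI_trinomial hstarb C α j hC hsum2 hdet
  have hdim := PI_dim hstarb I hI hI'
  rw [hIcard] at hdim
  have hc0 : ∀ i t, c' i t ≠ 0 := by
    intro i t h0
    obtain ⟨N, hN, hN'⟩ := hc' i t
    rw [h0, zero_pow hN.ne'] at hN'
    exact zero_ne_one hN'
  refine ⟨R, PI F b, k, fun i t => Units.mk0 (c' i t) (hc0 i t), s, j, PI_isPrime hstarb,
    PI_prod hstarb, ?_, hmem, ?_, hdet', PI_dense hstarb hrel hdim, PI_char hstarb hrel, ?_⟩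
  · intro i t
    obtain ⟨N, hN, hN'⟩ := hc' i t
    exact ⟨N, hN, Units.ext (by simpa using hN')⟩
  · rw [hdim]
    exact_mod_cast hR
  · intro G hG
    obtain ⟨w, hw, hwG, hwr⟩ := PI_points hstarb hrel hdim G hG
    refine ⟨fun i => Units.map (algebraMap F ℂ : F →* ℂ) (w i), ?_, hw, hwG, hwr⟩
    intro i
    exact mem_algebraicClosure_iff.mp (w i : F).2

lemma sol_algebraic {n k : ℕ} (z : Fin k → Fin 3 → ℂˣ) (a : Fin k → Fin 3 → (Fin n →₀ ℕ))
    (hz : ∀ i t, ∃ N : ℕ, 0 < N ∧ z i t ^ N = 1) (y : Fin n → ℂˣ)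
    (hy : ∀ i, IsAlgebraic ℚ (y i : ℂ)) (p : Fin k ⊕ Fin k) :
    IsAlgebraic ℚ (sol z a y p : ℂ) := by
  have h1 : (sol z a y p : ℂ) = (cf z p : ℂ) * ∏ l, (y l : ℂ) ^ ex a p l := by
    simp [sol]
  rw [h1, ← mem_algebraicClosure_iff]
  refine mul_mem ?_ (prod_mem fun l _ => zpow_mem ?_ _)
  · rw [mem_algebraicClosure_iff]
    obtain ⟨N, hN, hN'⟩ := cf_torsion z hz p
    refine IsAlgebraic.of_pow hN ?_
    rw [← Units.val_pow_eq_pow_val, hN', Units.val_one]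
    exact isAlgebraic_one
  · rw [mem_algebraicClosure_iff]
    exact hy l

end CIT8
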